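import Pool.Agent.H482R3.EA.Stm

set_option autoImplicit false

/-! Project EA, task VCOMP (helper816): the value map of codes is computable. -/

namespace Pool.Agent.H816R2.EA

open Pool.Agent.H482R3.EA

theorem vcomp_inv {S : Type} [Primcodable S] : Primrec (fun u : W S => inv u) := by
  unfold inv
  exact Primrec.list_reverse.comp (Primrec.list_map Primrec.id
    ((Primrec.pair (Primrec.fst.comp Primrec.snd)
      (Primrec.not.comp (Primrec.snd.comp Primrec.snd))).to₂))

theorem vcomp_rep {S : Type} [Primcodable S] :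
    Primrec₂ (fun (n : ℕ) (x : S) => List.replicate n x) := by
  have h : Primrec (fun p : ℕ × S => (List.range p.1).map (fun _ => p.2)) :=
    Primrec.list_map (Primrec.list_range.comp Primrec.fst) ((Primrec.snd.comp Primrec.fst).to₂)
  have h2 : Primrec (fun p : ℕ × S => List.replicate p.1 p.2) := h.of_eq (fun p => by simp)
  exact h2.to₂

section

variable (a b : ℕ)

theorem vcomp_iW : Primrec (fun g : W (Fin b) => (iW g : W (Fin a ⊕ Fin b))) := by
  unfold iW
  exact Primrec.list_map Primrec.id ((Primrec.pair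
    (Primrec.sumInr.comp (Primrec.fst.comp Primrec.snd)) (Primrec.snd.comp Primrec.snd)).to₂)

theorem vcomp_iV : Primrec (fun g : W (Fin a) => (iV g : W (Fin a ⊕ Fin b))) := by
  unfold iV
  exact Primrec.list_map Primrec.id ((Primrec.pair
    (Primrec.sumInl.comp (Primrec.fst.comp Primrec.snd)) (Primrec.snd.comp Primrec.snd)).to₂)

theorem vcomp_letF : Primrec (fun p : (ℕ × Fin a × Fin b) × (ℕ × Bool) =>
    (letF p.1.1 p.1.2.1 p.1.2.2 p.2 : W (Fin a ⊕ Fin b))) := by
  have hm : Primrec (fun p : (ℕ × Fin a × Fin b) × (ℕ × Bool) => p.2.1 % p.1.1) :=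
    Primrec.nat_mod.comp (Primrec.fst.comp Primrec.snd) (Primrec.fst.comp Primrec.fst)
  have hw : Primrec (fun p : (ℕ × Fin a × Fin b) × (ℕ × Bool) =>
      (Sum.inr p.1.2.2 : Fin a ⊕ Fin b)) :=
    Primrec.sumInr.comp (Primrec.snd.comp (Primrec.snd.comp Primrec.fst))
  have hv : Primrec (fun p : (ℕ × Fin a × Fin b) × (ℕ × Bool) =>
      (Sum.inl p.1.2.1 : Fin a ⊕ Fin b)) :=
    Primrec.sumInl.comp (Primrec.fst.comp (Primrec.snd.comp Primrec.fst))
  have h1 := vcomp_rep.comp hm (Primrec.pair hw (Primrec.const true))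
  have h3 := vcomp_rep.comp hm (Primrec.pair hw (Primrec.const false))
  have h2 := Primrec.list_cons.comp (Primrec.pair hv (Primrec.snd.comp Primrec.snd))
    (Primrec.const ([] : List ((Fin a ⊕ Fin b) × Bool)))
  exact Primrec.list_append.comp (Primrec.list_append.comp h1 h2) h3

variable (c : Fin a ⊕ Fin b → Fin a ⊕ Fin b → ℕ)

theorem vcomp_1 : Primrec (fun x : W (Fin b) × Fin a × Bool × ℕ =>
    (iW x.1 ++ List.replicate x.2.2.2 ((Sum.inl x.2.1 : Fin a ⊕ Fin b), x.2.2.1) ++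
      inv (iW x.1) : W (Fin a ⊕ Fin b))) := by
  have h1 : Primrec (fun x : W (Fin b) × Fin a × Bool × ℕ => (iW x.1 : W (Fin a ⊕ Fin b))) :=
    (vcomp_iW a b).comp Primrec.fst
  have h2 : Primrec (fun x : W (Fin b) × Fin a × Bool × ℕ =>
      List.replicate x.2.2.2 ((Sum.inl x.2.1 : Fin a ⊕ Fin b), x.2.2.1)) :=
    vcomp_rep.comp (Primrec.snd.comp (Primrec.snd.comp Primrec.snd))
      (Primrec.pair (Primrec.sumInl.comp (Primrec.fst.comp Primrec.snd))
        (Primrec.fst.comp (Primrec.snd.comp Primrec.snd)))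
  exact Primrec.list_append.comp (Primrec.list_append.comp h1 h2) (vcomp_inv.comp h1)

theorem vcomp_2 : Primrec (fun x : W (Fin b) × W (Fin a) =>
    (iW x.1 ++ iV x.2 ++ inv (iW x.1) : W (Fin a ⊕ Fin b))) := by
  have h1 : Primrec (fun x : W (Fin b) × W (Fin a) => (iW x.1 : W (Fin a ⊕ Fin b))) :=
    (vcomp_iW a b).comp Primrec.fst
  have h2 : Primrec (fun x : W (Fin b) × W (Fin a) => (iV x.2 : W (Fin a ⊕ Fin b))) :=
    (vcomp_iV a b).comp Primrec.snd
  exact Primrec.list_append.comp (Primrec.list_append.comp h1 h2) (vcomp_inv.comp h1)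

theorem vcomp_3 : Primrec (fun x : W (Fin b) × Fin a × Fin b × W ℕ =>
    (iW x.1 ++ x.2.2.2.flatMap (letF (c (.inl x.2.1) (.inr x.2.2.1)) x.2.1 x.2.2.1) ++
      inv (iW x.1) : W (Fin a ⊕ Fin b))) := by
  have h1 : Primrec (fun x : W (Fin b) × Fin a × Fin b × W ℕ =>
      (iW x.1 : W (Fin a ⊕ Fin b))) := (vcomp_iW a b).comp Primrec.fst
  have hc : Primrec (fun q : Fin a × Fin b => c (.inl q.1) (.inr q.2)) := Primrec.dom_finite _
  have hv : Primrec (fun x : W (Fin b) × Fin a × Fin b × W ℕ => x.2.1) :=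
    Primrec.fst.comp Primrec.snd
  have hw : Primrec (fun x : W (Fin b) × Fin a × Fin b × W ℕ => x.2.2.1) :=
    Primrec.fst.comp (Primrec.snd.comp Primrec.snd)
  have hk : Primrec (fun x : W (Fin b) × Fin a × Fin b × W ℕ =>
      ((c (.inl x.2.1) (.inr x.2.2.1), x.2.1, x.2.2.1) : ℕ × Fin a × Fin b)) :=
    Primrec.pair (hc.comp (Primrec.pair hv hw)) (Primrec.pair hv hw)
  have h2 : Primrec (fun x : W (Fin b) × Fin a × Fin b × W ℕ =>
      x.2.2.2.flatMap (letF (c (.inl x.2.1) (.inr x.2.2.1)) x.2.1 x.2.2.1)) :=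
    Primrec.list_flatMap (Primrec.snd.comp (Primrec.snd.comp Primrec.snd))
      (((vcomp_letF a b).comp (Primrec.pair (hk.comp Primrec.fst) Primrec.snd)).to₂)
  exact Primrec.list_append.comp (Primrec.list_append.comp h1 h2) (vcomp_inv.comp h1)

theorem vcomp_valS : Primrec (fun s : Syl (Fin a) (Fin b) => valS c s) := by
  have h := Primrec.sumCasesOn (α := Syl (Fin a) (Fin b)) Primrec.id
    ((vcomp_1 a b).comp Primrec.snd).to₂
    ((Primrec.sumCasesOn Primrec.snd ((vcomp_2 a b).comp Primrec.snd).to₂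
      ((vcomp_3 a b c).comp Primrec.snd).to₂)).to₂
  refine h.of_eq (fun s => ?_)
  rcases s with s | s | s
  · rfl
  · rfl
  · rfl

end

theorem t_VCOMP : S_VCOMP := by
  intro a b c
  have h1 : Primrec (fun p : W (Fin a ⊕ Fin b) × (List (Syl (Fin a) (Fin b)) × W (Fin b)) =>
      inv p.1) := vcomp_inv.comp Primrec.fst
  have h2 : Primrec (fun p : W (Fin a ⊕ Fin b) × (List (Syl (Fin a) (Fin b)) × W (Fin b)) =>
      p.2.1.flatMap (valS c)) :=
    Primrec.list_flatMap (Primrec.fst.comp Primrec.snd)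
      (((vcomp_valS a b c).comp Primrec.snd).to₂)
  have h3 : Primrec (fun p : W (Fin a ⊕ Fin b) × (List (Syl (Fin a) (Fin b)) × W (Fin b)) =>
      (iW p.2.2 : W (Fin a ⊕ Fin b))) :=
    (vcomp_iW a b).comp (Primrec.snd.comp Primrec.snd)
  exact (Primrec.list_append.comp (Primrec.list_append.comp h1 h2) h3).to_comp

end Pool.Agent.H816R2.EA
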