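import Mathlib
import Pool.Agent.H925R3.DC.Stubs

set_option autoImplicit false

namespace Pool.Agent.H816R2.DCREDB

open Pool.Agent.H925R3.DC WeierstrassCurve

theorem eqn {K : Type} [Field K] {a b x y : K} (h : (crv K a b).Nonsingular x y) :
    y ^ 2 = x ^ 3 + a * x + b := by
  have h1 := (Affine.equation_iff _ _).1 h.1
  simp only [crv] at h1
  linear_combination h1

theorem slope_rel {K : Type} [Field K] [DecidableEq K] {a b x₁ y₁ x₂ y₂ : K}
    (h₁ : (crv K a b).Nonsingular x₁ y₁) (h₂ : (crv K a b).Nonsingular x₂ y₂)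
    (hne : ¬ (x₁ = x₂ ∧ y₁ = - y₂)) :
    (crv K a b).slope x₁ x₂ y₁ y₂ * (x₁ - x₂) = y₁ - y₂ ∧
    (crv K a b).slope x₁ x₂ y₁ y₂ * (y₁ + y₂) = x₁ ^ 2 + x₁ * x₂ + x₂ ^ 2 + a := by
  have e1 := eqn h₁
  have e2 := eqn h₂
  by_cases hx : x₁ = x₂
  · have hy : y₁ ≠ - y₂ := fun h => hne ⟨hx, h⟩
    have hyy : y₁ = y₂ := by
      have h3 : (y₁ - y₂) * (y₁ + y₂) = 0 := by
        rw [hx] at e1
        linear_combination e1 - e2
      rcases mul_eq_zero.1 h3 with h | h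
      · exact sub_eq_zero.1 h
      · exact absurd (eq_neg_of_add_eq_zero_left h) hy
    subst hx
    subst hyy
    have hy' : y₁ ≠ (crv K a b).negY x₁ y₁ := by
      simp only [Affine.negY, crv]
      intro h
      apply hy
      linear_combination h
    have h0 : y₁ + y₁ ≠ 0 := fun h => hy (eq_neg_of_add_eq_zero_left h)
    rw [Affine.slope_of_Y_ne rfl hy']
    simp only [Affine.negY, crv]
    have h0' : y₁ - (-y₁ - 0 * x₁ - 0) ≠ 0 := by
      intro h
      apply h0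
      linear_combination h
    refine ⟨by ring, ?_⟩
    rw [div_mul_eq_mul_div, div_eq_iff h0']
    ring
  · rw [Affine.slope_of_X_ne hx]
    have h0 : x₁ - x₂ ≠ 0 := sub_ne_zero.2 hx
    refine ⟨div_mul_cancel₀ _ h0, ?_⟩
    rw [div_mul_eq_mul_div, div_eq_iff h0]
    linear_combination e1 - e2

theorem redb : Pool.Agent.H925R3.DC.REDB := by
  intro K k _ _ _ O φ hO hu h2 a b hΔ x₁ y₁ x₂ y₂ h₁ h₂ hx hy x₃ y₃ h₃ hadd hx3
  have hne : ¬ ((x₁ : K) = x₂ ∧ (y₁ : K) = - y₂) := by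
    rintro ⟨h4, h5⟩
    have h6 : (y₁ : K) = (crv K (a : K) b).negY x₂ y₂ := by
      simp only [Affine.negY, crv]
      rw [h5]
      ring
    have h7 := Affine.Point.add_of_Y_eq (h₁ := h₁) (h₂ := h₂) h4 h6
    rw [h7] at hadd
    exact absurd hadd.symm (Affine.Point.some_ne_zero h₃)
  obtain ⟨r1, r2⟩ := slope_rel h₁ h₂ hne
  set ℓ : K := (crv K (a : K) b).slope (x₁ : K) x₂ y₁ y₂ with hℓ
  have hne' : ¬ ((x₁ : K) = x₂ ∧ (y₁ : K) = (crv K (a : K) b).negY x₂ y₂) := by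
    rintro ⟨h4, h5⟩
    apply hne
    refine ⟨h4, ?_⟩
    rw [h5]
    simp only [Affine.negY, crv]
    ring
  rw [Affine.Point.add_some hne'] at hadd
  have hx3e : x₃ = ℓ ^ 2 - x₁ - x₂ := by
    have h4 := (Affine.Point.some.inj hadd).1
    rw [← h4]
    simp only [Affine.addX, crv, hℓ]
    ring
  have hℓ2 : ℓ ^ 2 ∈ O := by
    have h4 : ℓ ^ 2 = x₃ + x₁ + x₂ := by rw [hx3e]; ring
    rw [h4]
    exact O.add_mem (O.add_mem hx3 x₁.2) x₂.2
  have hℓO : ℓ ∈ O := by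
    rcases hO ℓ with h | h
    · exact h
    · by_cases h0 : ℓ = 0
      · rw [h0]; exact O.zero_mem
      · have h4 : ℓ = ℓ ^ 2 * ℓ⁻¹ := by
          field_simp
        rw [h4]
        exact O.mul_mem hℓ2 h
  have s1 : (⟨ℓ, hℓO⟩ : O) * (x₁ - x₂) = y₁ - y₂ := by
    apply Subtype.ext
    simpa using r1
  have s2 : (⟨ℓ, hℓO⟩ : O) * (y₁ + y₂) = x₁ ^ 2 + x₁ * x₂ + x₂ ^ 2 + a := by
    apply Subtype.ext
    simpa using r2
  have s3 : y₁ ^ 2 = x₁ ^ 3 + a * x₁ + b := by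
    apply Subtype.ext
    have := eqn h₁
    simpa using this
  have t1 := congrArg φ s1
  have t2 := congrArg φ s2
  have t3 := congrArg φ s3
  simp only [map_mul, map_sub, map_add, map_pow] at t1 t2 t3
  rw [hx, hy] at t1 t2
  rw [hx, hy] at t3
  have hy0 : φ y₂ = 0 := by
    have h4 : (2 : k) * φ y₂ = 0 := by linear_combination t1
    exact (mul_eq_zero.1 h4).resolve_left h2
  rw [hy0] at t3
  apply hΔ
  have ha : φ a = -(3 * φ x₂ ^ 2) := by linear_combination -t2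
  have hb : φ b = 2 * φ x₂ ^ 3 := by
    rw [ha] at t3
    linear_combination -t3
  rw [ha, hb]
  ring

end Pool.Agent.H816R2.DCREDB
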