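import Mathlib

/-!
Steiner systems with `r = 2` from difference families: general lemmas.
-/

namespace Pool.Agent.H816R2.DF

open Finset

/-- `𝓑` is a Steiner system `S(n,q,r)` on the point set `Fin n`: a family of `q`-subsets such
that every `r`-subset of the points lies in exactly one member of the family. -/
def IsSteiner (n q r : ℕ) (𝓑 : Finset (Finset (Fin n))) : Prop :=
  (∀ B ∈ 𝓑, B.card = q) ∧ ∀ T : Finset (Fin n), T.card = r → ∃! B, B ∈ 𝓑 ∧ T ⊆ B

/-! ### Bit mask test for lists of natural numbers -/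

def go : List ℕ → ℕ → Option ℕ
  | [], acc => some acc
  | d :: l, acc => if Nat.testBit acc d then none else go l (acc ||| (1 <<< d))

theorem go_spec : ∀ (l : List ℕ) (acc M : ℕ), go l acc = some M →
    l.Nodup ∧ (∀ d ∈ l, Nat.testBit acc d = false) ∧
      ∀ d, Nat.testBit M d = true ↔ (Nat.testBit acc d = true ∨ d ∈ l) := by
  intro l
  induction l with
  | nil =>
    intro acc M h
    simp only [go, Option.some.injEq] at h
    subst h
    simp
  | cons a l ih =>
    intro acc M h
    rw [go] at h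
    split_ifs at h with h1
    obtain ⟨h2, h3, h4⟩ := ih _ _ h
    have hb : ∀ d, Nat.testBit (acc ||| (1 <<< a)) d = true ↔
        (Nat.testBit acc d = true ∨ d = a) := by
      intro d
      rw [Nat.testBit_or, Bool.or_eq_true, Nat.one_shiftLeft, Nat.testBit_two_pow]
      constructor
      · rintro (h | h)
        · exact Or.inl h
        · exact Or.inr (by simpa using (of_decide_eq_true h).symm)
      · rintro (h | h)
        · exact Or.inl h
        · exact Or.inr (by simp [h])
    have hal : a ∉ l := by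
      intro hal
      have := h3 a hal
      have h5 := (hb a).2 (Or.inr rfl)
      rw [this] at h5
      exact Bool.false_ne_true h5
    refine ⟨List.nodup_cons.2 ⟨hal, h2⟩, ?_, ?_⟩
    · intro d hd
      rcases List.mem_cons.1 hd with rfl | hd
      · simpa using h1
      · have h5 := h3 d hd
        by_contra h6
        have h7 : Nat.testBit acc d = true := by simpa using h6
        have := (hb d).2 (Or.inl h7)
        rw [h5] at this
        exact Bool.false_ne_true this
    · intro d
      rw [h4 d, hb d, List.mem_cons]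
      tauto

/-! ### Difference codes -/

/-- code of the difference `x - y` in `Fin a × Fin b`, computed with natural numbers -/
def dc (a b : ℕ) (x y : ℕ × ℕ) : ℕ := ((a - y.1 + x.1) % a) * b + (b - y.2 + x.2) % b

/-- codes of all differences of two distinct elements of a block -/
def dl (a b : ℕ) (B : List (ℕ × ℕ)) : List ℕ :=
  B.flatMap fun x => B.flatMap fun y => if x = y then [] else [dc a b x y]

/-- codes of all differences of the base blocks -/
def dls (a b : ℕ) (base : List (List (ℕ × ℕ))) : List ℕ := base.flatMap (dl a b)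

/-- each base block has `k` distinct entries which are reduced residues -/
def okBlocks (a b k : ℕ) (base : List (List (ℕ × ℕ))) : Bool :=
  base.all fun B => (B.length == k) && decide B.Nodup && B.all fun x =>
    decide (x.1 < a) && decide (x.2 < b)

section General

variable {a b : ℕ} [NeZero a] [NeZero b]
set_option linter.unusedSectionVars false

/-- code of a group element -/
def code (g : Fin a × Fin b) : ℕ := g.1.val * b + g.2.val

theorem code_inj {g h : Fin a × Fin b} (e : code g = code h) : g = h := by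
  have hb : 0 < b := Nat.pos_of_ne_zero (NeZero.ne b)
  unfold code at e
  have h1 : (g.1.val * b + g.2.val) / b = (h.1.val * b + h.2.val) / b := by rw [e]
  have h2 : (g.1.val * b + g.2.val) % b = (h.1.val * b + h.2.val) % b := by rw [e]
  rw [Nat.add_comm, Nat.add_mul_div_right _ _ hb, Nat.div_eq_of_lt g.2.2, Nat.zero_add,
    Nat.add_comm, Nat.add_mul_div_right _ _ hb, Nat.div_eq_of_lt h.2.2, Nat.zero_add] at h1
  rw [Nat.add_comm, Nat.add_mul_mod_self_right, Nat.mod_eq_of_lt g.2.2, Nat.add_comm,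
    Nat.add_mul_mod_self_right, Nat.mod_eq_of_lt h.2.2] at h2
  exact Prod.ext (Fin.ext h1) (Fin.ext h2)

theorem code_lt (g : Fin a × Fin b) : code g < a * b := by
  unfold code
  have h1 := g.1.2
  have h2 := g.2.2
  calc g.1.val * b + g.2.val < g.1.val * b + b := by omega
    _ = (g.1.val + 1) * b := by ring
    _ ≤ a * b := Nat.mul_le_mul_right _ h1

/-- the group element given by a pair of natural numbers -/
def el (a b : ℕ) [NeZero a] [NeZero b] (x : ℕ × ℕ) : Fin a × Fin b :=
  (Fin.ofNat a x.1, Fin.ofNat b x.2)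

theorem code_sub {x y : ℕ × ℕ} (hx : x.1 < a ∧ x.2 < b) (hy : y.1 < a ∧ y.2 < b) :
    code (el a b x - el a b y) = dc a b x y := by
  unfold code el dc
  simp only [Prod.fst_sub, Prod.snd_sub, Fin.sub_def, Fin.val_ofNat, Nat.mod_eq_of_lt hx.1,
    Nat.mod_eq_of_lt hx.2, Nat.mod_eq_of_lt hy.1, Nat.mod_eq_of_lt hy.2]

theorem el_inj {x y : ℕ × ℕ} (hx : x.1 < a ∧ x.2 < b) (hy : y.1 < a ∧ y.2 < b)
    (h : el a b x = el a b y) : x = y := by
  unfold el at h
  have h1 := congrArg (fun g : Fin a × Fin b => g.1.val) h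
  have h2 := congrArg (fun g : Fin a × Fin b => g.2.val) h
  simp only [Fin.val_ofNat, Nat.mod_eq_of_lt hx.1, Nat.mod_eq_of_lt hx.2, Nat.mod_eq_of_lt hy.1,
    Nat.mod_eq_of_lt hy.2] at h1 h2
  exact Prod.ext h1 h2

/-- translate of a base block -/
def tr (B : List (ℕ × ℕ)) (g : Fin a × Fin b) : Finset (Fin a × Fin b) :=
  (B.map fun x => el a b x + g).toFinset

theorem mem_tr {B : List (ℕ × ℕ)} {g z : Fin a × Fin b} :
    z ∈ tr B g ↔ ∃ x ∈ B, el a b x + g = z := by
  simp [tr]

theorem card_tr {k : ℕ} {base : List (List (ℕ × ℕ))} (hok : okBlocks a b k base = true)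
    {B : List (ℕ × ℕ)} (hB : B ∈ base) (g : Fin a × Fin b) : (tr B g).card = k := by
  unfold okBlocks at hok
  rw [List.all_eq_true] at hok
  have h := hok B hB
  simp only [Bool.and_eq_true, beq_iff_eq, decide_eq_true_eq, List.all_eq_true] at h
  obtain ⟨⟨h1, h2⟩, h3⟩ := h
  unfold tr
  rw [List.toFinset_card_of_nodup, List.length_map, h1]
  refine List.Nodup.map_on ?_ h2
  intro x hx y hy hxy
  exact el_inj (h3 x hx) (h3 y hy) (add_right_cancel hxy)

theorem lt_of_ok {k : ℕ} {base : List (List (ℕ × ℕ))} (hok : okBlocks a b k base = true)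
    {B : List (ℕ × ℕ)} (hB : B ∈ base) {x : ℕ × ℕ} (hx : x ∈ B) : x.1 < a ∧ x.2 < b := by
  unfold okBlocks at hok
  rw [List.all_eq_true] at hok
  have h := hok B hB
  simp only [Bool.and_eq_true, beq_iff_eq, decide_eq_true_eq, List.all_eq_true] at h
  exact h.2 x hx

theorem mem_dl {B : List (ℕ × ℕ)} {d : ℕ} :
    d ∈ dl a b B ↔ ∃ x ∈ B, ∃ y ∈ B, x ≠ y ∧ d = dc a b x y := by
  unfold dl
  simp only [List.mem_flatMap]
  constructor
  · rintro ⟨x, hx, y, hy, h⟩
    split_ifs at h with hxy
    · simp at h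
    · exact ⟨x, hx, y, hy, hxy, by simpa using h⟩
  · rintro ⟨x, hx, y, hy, hxy, h⟩
    exact ⟨x, hx, y, hy, by simp [hxy, h]⟩

/-- uniqueness inside the list of all differences -/
theorem uniq {base : List (List (ℕ × ℕ))} (hnd : (dls a b base).Nodup)
    {B B' : List (ℕ × ℕ)} (hB : B ∈ base) (hB' : B' ∈ base) {x y x' y' : ℕ × ℕ}
    (hx : x ∈ B) (hy : y ∈ B) (hxy : x ≠ y) (hx' : x' ∈ B') (hy' : y' ∈ B') (hxy' : x' ≠ y')
    (e : dc a b x y = dc a b x' y') : B = B' ∧ x = x' ∧ y = y' := by
  unfold dls at hnd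
  rw [List.nodup_flatMap] at hnd
  obtain ⟨h1, h2⟩ := hnd
  have hBB : B = B' := by
    by_contra hne
    have hsymm : Std.Symm (Function.onFun List.Disjoint (dl a b)) :=
      ⟨fun u v huv => List.Disjoint.symm huv⟩
    have h3 := h2.forall hB hB' hne
    have h4 : dc a b x y ∈ dl a b B := mem_dl.2 ⟨x, hx, y, hy, hxy, rfl⟩
    have h5 : dc a b x y ∈ dl a b B' := mem_dl.2 ⟨x', hx', y', hy', hxy', e⟩
    exact h3 h4 h5
  subst hBB
  have h3 := h1 B hB
  unfold dl at h3
  rw [List.nodup_flatMap] at h3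
  obtain ⟨h4, h5⟩ := h3
  have hmem : ∀ {p q : ℕ × ℕ}, p ∈ B → q ∈ B → p ≠ q →
      dc a b p q ∈ B.flatMap fun y => if p = y then [] else [dc a b p y] := by
    intro p q hp hq hpq
    rw [List.mem_flatMap]
    exact ⟨q, hq, by simp [hpq]⟩
  have hxx : x = x' := by
    by_contra hne
    have hsymm : Std.Symm (Function.onFun List.Disjoint
        (fun x : ℕ × ℕ => B.flatMap fun y => if x = y then [] else [dc a b x y])) :=
      ⟨fun u v huv => List.Disjoint.symm huv⟩
    have h6 := h5.forall hx hx' hne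
    exact h6 (hmem hx hy hxy) (by rw [e]; exact hmem hx' hy' hxy')
  subst hxx
  refine ⟨rfl, rfl, ?_⟩
  have h7 := h4 x hx
  rw [List.nodup_flatMap] at h7
  by_contra hne
  have hsymm : Std.Symm (Function.onFun List.Disjoint
      (fun y : ℕ × ℕ => if x = y then [] else [dc a b x y])) :=
    ⟨fun u v huv => List.Disjoint.symm huv⟩
  have h8 := h7.2.forall hy hy' hne
  refine h8 (a := dc a b x y) ?_ ?_
  · simp [hxy]
  · simp [hxy', e]

/-- The design given by all translates of the base blocks together with extra blocks `𝓗`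
that take care of the differences in the set `S`. -/
theorem design (k : ℕ) (base : List (List (ℕ × ℕ))) (hok : okBlocks a b k base = true)
    (hnd : (dls a b base).Nodup) (S : Set (Fin a × Fin b))
    (hcov : ∀ g : Fin a × Fin b, g ∉ S → code g ∈ dls a b base)
    (hdis : ∀ g : Fin a × Fin b, g ∈ S → g ≠ 0 → code g ∉ dls a b base)
    (𝓗 : Finset (Finset (Fin a × Fin b))) (hH : ∀ B ∈ 𝓗, B.card = k)
    (hH1 : ∀ x y : Fin a × Fin b, x ≠ y → x - y ∈ S → ∃! B, B ∈ 𝓗 ∧ x ∈ B ∧ y ∈ B)
    (hH2 : ∀ x y : Fin a × Fin b, x - y ∉ S → ∀ B ∈ 𝓗, ¬ (x ∈ B ∧ y ∈ B)) :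
    ∃ 𝓑 : Finset (Finset (Fin (a * b))), IsSteiner (a * b) k 2 𝓑 := by
  classical
  -- the family on the group
  let 𝓒 : Finset (Finset (Fin a × Fin b)) :=
    (base.toFinset ×ˢ (Finset.univ : Finset (Fin a × Fin b))).image (fun p => tr p.1 p.2) ∪ 𝓗
  have hmem : ∀ C, C ∈ 𝓒 ↔ (∃ B ∈ base, ∃ g, tr B g = C) ∨ C ∈ 𝓗 := by
    intro C
    rw [Finset.mem_union, Finset.mem_image]
    constructor
    · rintro (⟨p, hp, rfl⟩ | h)
      · rw [Finset.mem_product, List.mem_toFinset] at hp
        exact Or.inl ⟨p.1, hp.1, p.2, rfl⟩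
      · exact Or.inr h
    · rintro (⟨B, hB, g, rfl⟩ | h)
      · exact Or.inl ⟨(B, g), Finset.mem_product.2 ⟨List.mem_toFinset.2 hB, Finset.mem_univ g⟩,
          rfl⟩
      · exact Or.inr h
  have hcard : ∀ C ∈ 𝓒, C.card = k := by
    intro C hC
    rcases (hmem C).1 hC with ⟨B, hB, g, rfl⟩ | h
    · exact card_tr hok hB g
    · exact hH C h
  have key : ∀ x y : Fin a × Fin b, x ≠ y → ∃! C, C ∈ 𝓒 ∧ x ∈ C ∧ y ∈ C := by
    intro x y hxy
    by_cases hS : x - y ∈ S
    · obtain ⟨C, ⟨hC1, hC2⟩, hC3⟩ := hH1 x y hxy hS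
      refine ⟨C, ⟨(hmem C).2 (Or.inr hC1), hC2⟩, ?_⟩
      rintro D ⟨hD1, hD2, hD3⟩
      rcases (hmem D).1 hD1 with ⟨B, hB, g, rfl⟩ | h
      · exfalso
        rw [mem_tr] at hD2 hD3
        obtain ⟨p, hp, hpx⟩ := hD2
        obtain ⟨q, hq, hqy⟩ := hD3
        have hpq : p ≠ q := by
          rintro rfl
          exact hxy (hpx.symm.trans hqy)
        have hsub : x - y = el a b p - el a b q := by
          rw [← hpx, ← hqy]; abel
        have hc : code (x - y) = dc a b p q := by
          rw [hsub]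
          exact code_sub (lt_of_ok hok hB hp) (lt_of_ok hok hB hq)
        refine hdis (x - y) hS (sub_ne_zero.2 hxy) ?_
        rw [hc]
        unfold dls
        rw [List.mem_flatMap]
        exact ⟨B, hB, mem_dl.2 ⟨p, hp, q, hq, hpq, rfl⟩⟩
      · exact hC3 D ⟨h, hD2, hD3⟩
    · have h1 := hcov (x - y) hS
      unfold dls at h1
      rw [List.mem_flatMap] at h1
      obtain ⟨B, hB, h2⟩ := h1
      rw [mem_dl] at h2
      obtain ⟨p, hp, q, hq, hpq, e⟩ := h2
      have hsub : x - y = el a b p - el a b q := by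
        apply code_inj
        rw [e]
        exact (code_sub (lt_of_ok hok hB hp) (lt_of_ok hok hB hq)).symm
      refine ⟨tr B (x - el a b p), ⟨(hmem _).2 (Or.inl ⟨B, hB, _, rfl⟩), ?_, ?_⟩, ?_⟩
      · exact mem_tr.2 ⟨p, hp, by abel⟩
      · refine mem_tr.2 ⟨q, hq, ?_⟩
        have : x = y + (el a b p - el a b q) := by rw [← hsub]; abel
        rw [this]; abel
      · rintro D ⟨hD1, hD2, hD3⟩
        rcases (hmem D).1 hD1 with ⟨B', hB', g, rfl⟩ | h
        · rw [mem_tr] at hD2 hD3
          obtain ⟨p', hp', hpx⟩ := hD2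
          obtain ⟨q', hq', hqy⟩ := hD3
          have hpq' : p' ≠ q' := by
            rintro rfl
            exact hxy (hpx.symm.trans hqy)
          have hsub' : x - y = el a b p' - el a b q' := by
            rw [← hpx, ← hqy]; abel
          have hc' : dc a b p q = dc a b p' q' := by
            rw [← code_sub (lt_of_ok hok hB hp) (lt_of_ok hok hB hq),
              ← code_sub (lt_of_ok hok hB' hp') (lt_of_ok hok hB' hq'), ← hsub, ← hsub']
          obtain ⟨h3, h4, h5⟩ := uniq hnd hB hB' hp hq hpq hp' hq' hpq' hc'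
          subst h3 h4 h5
          have : g = x - el a b p := by rw [← hpx]; abel
          rw [this]
        · exact absurd ⟨hD2, hD3⟩ (hH2 x y hS D h)
  -- transport to `Fin (a * b)`
  let e : Fin a × Fin b ≃ Fin (a * b) := finProdFinEquiv
  refine ⟨𝓒.image (fun C => C.map e.toEmbedding), ?_, ?_⟩
  · intro B hB
    rw [Finset.mem_image] at hB
    obtain ⟨C, hC, rfl⟩ := hB
    rw [Finset.card_map]
    exact hcard C hC
  · intro T hT
    obtain ⟨u, v, huv, rfl⟩ := Finset.card_eq_two.1 hT
    obtain ⟨C, ⟨hC1, hC2, hC3⟩, hC4⟩ := key (e.symm u) (e.symm v) (by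
      intro h
      exact huv (e.symm.injective h))
    have hsubset : ∀ D : Finset (Fin a × Fin b),
        ({u, v} : Finset (Fin (a * b))) ⊆ D.map e.toEmbedding ↔ e.symm u ∈ D ∧ e.symm v ∈ D := by
      intro D
      rw [Finset.insert_subset_iff, Finset.singleton_subset_iff, Finset.mem_map_equiv,
        Finset.mem_map_equiv]
    refine ⟨C.map e.toEmbedding, ⟨Finset.mem_image_of_mem _ hC1, (hsubset C).2 ⟨hC2, hC3⟩⟩, ?_⟩
    rintro D ⟨hD1, hD2⟩
    rw [Finset.mem_image] at hD1
    obtain ⟨C', hC', rfl⟩ := hD1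
    obtain ⟨h1, h2⟩ := (hsubset C').1 hD2
    have h3 := hC4 C' ⟨hC', h1, h2⟩
    show C'.map e.toEmbedding = C.map e.toEmbedding
    rw [h3]

end General

/-- difference family in `Fin a × Fin b` -/
theorem of_df (a b k : ℕ) (ha : a ≠ 0) (hb : b ≠ 0) (base : List (List (ℕ × ℕ)))
    (hok : okBlocks a b k base = true) (M : ℕ) (hgo : go (dls a b base) 1 = some M)
    (hM : ∀ d < a * b, Nat.testBit M d = true) :
    ∃ 𝓑 : Finset (Finset (Fin (a * b))), IsSteiner (a * b) k 2 𝓑 := by
  have : NeZero a := ⟨ha⟩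
  have : NeZero b := ⟨hb⟩
  obtain ⟨h1, h2, h3⟩ := go_spec _ _ _ hgo
  have hcode0 : ∀ g : Fin a × Fin b, code g = 0 → g = 0 := by
    intro g hg
    apply code_inj
    rw [hg]
    simp [code]
  refine design k base hok h1 {0} ?_ ?_ ∅ (by simp) ?_ ?_
  · intro g hg
    have h4 := hM (code g) (code_lt g)
    rcases (h3 (code g)).1 h4 with h5 | h5
    · exfalso
      have h6 : code g = 0 := by
        by_contra hne
        have : Nat.testBit 1 (code g) = false := by
          rw [← Nat.pow_zero 2, Nat.testBit_two_pow]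
          simp only [decide_eq_false_iff_not]
          exact fun h => hne h.symm
        rw [this] at h5
        exact Bool.false_ne_true h5
      exact hg (by simpa using hcode0 g h6)
    · exact h5
  · intro g hg hg0
    exact absurd (by simpa using hg) hg0
  · intro x y hxy h
    exact absurd (sub_eq_zero.1 (by simpa using h)) hxy
  · intro x y _ B hB
    simp at hB

/-- difference family in `Fin a × Fin b` relative to the subgroup `Fin a × 0` -/
theorem of_rdf (a b : ℕ) (ha : a ≠ 0) (hb : b ≠ 0) (base : List (List (ℕ × ℕ)))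
    (hok : okBlocks a b a base = true) (M0 M : ℕ)
    (hM0 : ∀ i < a, Nat.testBit M0 (i * b) = true)
    (hgo : go (dls a b base) M0 = some M)
    (hM : ∀ i < a, ∀ j < b, j ≠ 0 → Nat.testBit M0 (i * b + j) = false ∧
      Nat.testBit M (i * b + j) = true) :
    ∃ 𝓑 : Finset (Finset (Fin (a * b))), IsSteiner (a * b) a 2 𝓑 := by
  classical
  have : NeZero a := ⟨ha⟩
  have : NeZero b := ⟨hb⟩
  obtain ⟨h1, h2, h3⟩ := go_spec _ _ _ hgo
  let 𝓗 : Finset (Finset (Fin a × Fin b)) :=
    (Finset.univ : Finset (Fin b)).image (fun j => Finset.univ ×ˢ {j})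
  have hmem : ∀ C, C ∈ 𝓗 ↔ ∃ j : Fin b, (Finset.univ : Finset (Fin a)) ×ˢ {j} = C := by
    intro C
    simp [𝓗]
  have hin : ∀ (j : Fin b) (x : Fin a × Fin b),
      x ∈ (Finset.univ : Finset (Fin a)) ×ˢ ({j} : Finset (Fin b)) ↔ x.2 = j := by
    intro j x
    rw [Finset.mem_product, Finset.mem_singleton]
    exact ⟨fun h => h.2, fun h => ⟨Finset.mem_univ _, h⟩⟩
  refine design a base hok h1 {g | g.2 = 0} ?_ ?_ 𝓗 ?_ ?_ ?_
  · intro g hg
    have hg2 : g.2.val ≠ 0 := by
      intro h
      exact hg (Fin.ext (by simpa using h))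
    have h4 := hM g.1.val g.1.2 g.2.val g.2.2 hg2
    rcases (h3 (code g)).1 h4.2 with h5 | h5
    · exfalso
      have : Nat.testBit M0 (code g) = false := h4.1
      rw [this] at h5
      exact Bool.false_ne_true h5
    · exact h5
  · intro g hg _ hmem'
    have h4 := h2 (code g) hmem'
    have h5 := hM0 g.1.val g.1.2
    have h6 : code g = g.1.val * b := by
      have : g.2 = 0 := hg
      simp [code, this]
    rw [h6, h5] at h4
    exact Bool.false_ne_true h4.symm
  · intro B hB
    obtain ⟨j, rfl⟩ := (hmem B).1 hB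
    simp
  · intro x y _ h
    have h' : x.2 = y.2 := by
      have : x.2 - y.2 = 0 := h
      exact sub_eq_zero.1 this
    refine ⟨(Finset.univ : Finset (Fin a)) ×ˢ {x.2}, ⟨(hmem _).2 ⟨x.2, rfl⟩, (hin _ _).2 rfl,
      (hin _ _).2 h'.symm⟩, ?_⟩
    rintro D ⟨hD1, hD2, -⟩
    obtain ⟨j, rfl⟩ := (hmem D).1 hD1
    rw [hin] at hD2
    rw [hD2]
  · rintro x y h B hB ⟨hx, hy⟩
    obtain ⟨j, rfl⟩ := (hmem B).1 hB
    rw [hin] at hx hy
    apply h
    show x.2 - y.2 = 0
    rw [hx, hy, sub_self]

end Pool.Agent.H816R2.DF
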