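import Pool.Agent.H816R2.DF

/-!
Steiner systems `S(n,7,2)`, `n = 505, 589, 925, 1387`, and `S(873,9,2)` from difference families.
-/

namespace Pool.Agent.H816R2.DF

open Finset

/-- base blocks of a difference family with 505 points -/
def f505 : List (List (ℕ × ℕ)) := [
   [(0, 0), (4, 0), (0, 3), (0, 83), (0, 7), (0, 59), (0, 50)],
   [(0, 0), (3, 0), (0, 5), (0, 71), (0, 79), (0, 31), (0, 16)],
   [(0, 0), (3, 41), (4, 10), (2, 25), (3, 78), (1, 37), (1, 94)],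
   [(0, 0), (3, 57), (4, 41), (2, 52), (3, 37), (1, 81), (1, 42)],
   [(0, 0), (3, 62), (4, 57), (2, 92), (3, 81), (1, 19), (1, 51)],
   [(0, 0), (3, 32), (4, 62), (2, 54), (3, 19), (1, 88), (1, 98)],
   [(0, 0), (3, 10), (4, 32), (2, 80), (3, 88), (1, 78), (1, 18)],
   [(0, 0), (0, 1), (1, 35), (2, 89), (3, 2), (4, 26), (4, 38)],
   [(0, 0), (0, 95), (1, 93), (2, 72), (3, 89), (4, 46), (4, 75)],
   [(0, 0), (0, 36), (1, 48), (2, 73), (3, 72), (4, 27), (4, 55)],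
   [(0, 0), (0, 87), (1, 15), (2, 67), (3, 73), (4, 40), (4, 74)],
   [(0, 0), (0, 84), (1, 11), (2, 2), (3, 67), (4, 63), (4, 61)]]

theorem s505 : ∃ 𝓑 : Finset (Finset (Fin 505)), IsSteiner 505 7 2 𝓑 :=
  of_df 5 101 7 (by decide) (by decide) f505 (by decide +kernel) (2 ^ 505 - 1) (by decide +kernel)
    (by decide +kernel)

/-- base blocks of a difference family with 589 points -/
def f589 : List (List (ℕ × ℕ)) := [
   [(1, 0), (3, 15), (3, 16), (7, 0), (12, 0), (18, 6), (18, 25)],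
   [(1, 0), (8, 1), (8, 30), (11, 0), (14, 13), (14, 18), (18, 0)],
   [(2, 3), (2, 28), (7, 0), (8, 0), (11, 0), (12, 5), (12, 26)],
   [(1, 14), (1, 17), (2, 10), (2, 21), (4, 11), (4, 20), (13, 0)],
   [(3, 12), (3, 19), (6, 7), (6, 24), (10, 0), (11, 8), (11, 23)],
   [(7, 9), (7, 22), (9, 4), (9, 27), (14, 2), (14, 29), (15, 0)],
   [(0, 0), (2, 11), (3, 24), (10, 26), (13, 30), (14, 27), (15, 6)],
   [(0, 0), (2, 20), (3, 7), (10, 5), (13, 1), (14, 4), (15, 25)],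
   [(0, 0), (1, 1), (3, 20), (10, 10), (14, 12), (15, 23), (18, 9)],
   [(0, 0), (1, 30), (3, 11), (10, 21), (14, 19), (15, 8), (18, 22)],
   [(0, 0), (2, 2), (8, 17), (11, 26), (13, 9), (14, 24), (15, 12)],
   [(0, 0), (2, 4), (3, 21), (7, 25), (10, 17), (12, 8), (13, 2)],
   [(0, 0), (2, 27), (3, 10), (7, 6), (10, 14), (12, 23), (13, 29)],
   [(0, 0), (2, 29), (8, 14), (11, 5), (13, 22), (14, 7), (15, 19)]]

theorem s589 : ∃ 𝓑 : Finset (Finset (Fin 589)), IsSteiner 589 7 2 𝓑 :=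
  of_df 19 31 7 (by decide) (by decide) f589 (by decide +kernel) (2 ^ 589 - 1) (by decide +kernel)
    (by decide +kernel)

/-- base blocks of a difference family with 925 points -/
def f925 : List (List (ℕ × ℕ)) := [
   [(0, 5), (0, 160), (0, 180), (1, 142), (1, 39), (4, 76), (4, 68)],
   [(0, 120), (0, 50), (0, 135), (2, 125), (2, 94), (3, 125), (3, 131)],
   [(0, 90), (0, 55), (0, 130), (1, 15), (2, 103), (3, 177), (4, 15)],
   [(0, 85), (0, 165), (0, 140), (1, 153), (2, 6), (3, 154), (4, 42)],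
   [(0, 125), (0, 175), (0, 35), (1, 56), (2, 82), (3, 8), (4, 19)],
   [(0, 170), (0, 105), (0, 110), (0, 171), (0, 87), (0, 13), (0, 134)],
   [(0, 0), (0, 152), (1, 151), (3, 65), (3, 132), (4, 67), (4, 173)],
   [(0, 0), (0, 78), (1, 62), (1, 178), (2, 65), (2, 58), (4, 114)],
   [(0, 0), (0, 76), (0, 133), (1, 128), (2, 126), (3, 168), (4, 109)],
   [(0, 0), (0, 22), (0, 39), (1, 146), (2, 57), (3, 89), (4, 17)],
   [(0, 0), (0, 151), (0, 132), (2, 130), (3, 44), (4, 105), (4, 54)],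
   [(0, 0), (0, 181), (1, 14), (2, 67), (3, 42), (4, 22), (4, 99)],
   [(0, 0), (0, 72), (1, 28), (3, 66), (3, 108), (3, 4), (4, 13)],
   [(0, 0), (0, 58), (0, 114), (1, 105), (1, 91), (2, 81), (3, 130)],
   [(0, 0), (0, 183), (1, 87), (2, 41), (2, 182), (2, 29), (4, 102)],
   [(0, 0), (0, 144), (1, 136), (1, 133), (2, 153), (3, 178), (4, 51)],
   [(0, 0), (0, 46), (0, 59), (1, 109), (2, 154), (3, 155), (3, 38)],
   [(0, 0), (0, 96), (0, 9), (2, 155), (2, 112), (3, 6), (4, 146)],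
   [(0, 0), (0, 26), (1, 170), (2, 86), (3, 54), (4, 156), (4, 108)],
   [(0, 0), (0, 174), (1, 182), (1, 119), (2, 91), (3, 49), (4, 170)],
   [(0, 0), (1, 60), (2, 127), (2, 33), (2, 54), (3, 183), (3, 84)],
   [(0, 0), (2, 121), (2, 72), (3, 91), (3, 107), (3, 53), (4, 60)]]

theorem s925 : ∃ 𝓑 : Finset (Finset (Fin 925)), IsSteiner 925 7 2 𝓑 :=
  of_df 5 185 7 (by decide) (by decide) f925 (by decide +kernel) (2 ^ 925 - 1) (by decide +kernel)
    (by decide +kernel)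

/-- base blocks of a difference family with 1387 points -/
def f1387 : List (List (ℕ × ℕ)) := [
   [(0, 0), (1, 28), (5, 44), (7, 5), (11, 40), (16, 60), (17, 42)],
   [(0, 0), (1, 15), (4, 56), (6, 7), (7, 47), (9, 10), (11, 11)],
   [(0, 0), (4, 30), (5, 14), (6, 22), (9, 21), (16, 39), (17, 20)],
   [(0, 0), (0, 17), (0, 63), (0, 66), (1, 4), (7, 32), (11, 37)],
   [(0, 0), (0, 34), (0, 53), (0, 59), (4, 8), (6, 1), (9, 64)],
   [(0, 0), (0, 33), (0, 45), (0, 68), (5, 2), (16, 16), (17, 55)],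
   [(0, 0), (0, 29), (1, 2), (3, 48), (10, 44), (16, 31), (17, 9)],
   [(0, 0), (0, 58), (2, 15), (4, 4), (7, 62), (11, 18), (12, 23)],
   [(0, 0), (0, 43), (6, 36), (8, 30), (9, 51), (10, 46), (16, 8)],
   [(0, 0), (0, 13), (2, 19), (5, 72), (7, 16), (13, 60), (17, 29)],
   [(0, 0), (0, 26), (1, 71), (8, 38), (9, 32), (11, 58), (14, 47)],
   [(0, 0), (0, 52), (4, 69), (6, 43), (13, 3), (17, 64), (18, 21)],
   [(0, 0), (0, 31), (5, 13), (11, 55), (14, 6), (15, 42), (16, 65)],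
   [(0, 0), (0, 62), (1, 26), (3, 11), (6, 37), (7, 57), (18, 12)],
   [(0, 0), (0, 51), (4, 52), (5, 1), (9, 41), (12, 22), (15, 24)],
   [(0, 0), (1, 7), (2, 3), (2, 7), (4, 11), (13, 34), (17, 25)],
   [(0, 0), (4, 14), (8, 6), (8, 14), (11, 50), (14, 68), (16, 22)],
   [(0, 0), (6, 27), (7, 44), (13, 12), (13, 28), (16, 28), (18, 63)],
   [(0, 0), (5, 54), (7, 56), (9, 15), (14, 24), (14, 56), (15, 53)],
   [(0, 0), (1, 35), (3, 33), (9, 39), (17, 30), (18, 39), (18, 48)],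
   [(0, 0), (4, 70), (11, 60), (12, 66), (15, 5), (15, 23), (17, 5)],
   [(0, 0), (3, 10), (3, 46), (6, 47), (10, 59), (11, 10), (16, 67)],
   [(0, 0), (2, 45), (5, 21), (6, 20), (7, 61), (12, 19), (12, 20)],
   [(0, 0), (1, 42), (5, 40), (8, 17), (9, 49), (10, 38), (10, 40)],
   [(0, 0), (1, 1), (6, 51), (8, 56), (11, 6), (12, 49), (13, 62)],
   [(0, 0), (4, 2), (5, 29), (6, 12), (10, 25), (13, 39), (14, 51)],
   [(0, 0), (1, 58), (2, 50), (5, 24), (14, 5), (16, 4), (18, 29)],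
   [(0, 0), (1, 48), (4, 43), (7, 8), (8, 27), (15, 58), (18, 10)],
   [(0, 0), (3, 43), (4, 23), (9, 16), (13, 54), (15, 20), (16, 13)],
   [(0, 0), (3, 40), (7, 26), (12, 13), (14, 35), (16, 46), (17, 32)],
   [(0, 0), (7, 19), (9, 52), (10, 26), (11, 64), (12, 7), (18, 70)],
   [(0, 0), (2, 52), (6, 55), (9, 38), (10, 14), (15, 67), (17, 31)],
   [(0, 0), (2, 28), (3, 61), (5, 37), (8, 31), (11, 62), (17, 3)]]

theorem s1387 : ∃ 𝓑 : Finset (Finset (Fin 1387)), IsSteiner 1387 7 2 𝓑 :=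
  of_df 19 73 7 (by decide) (by decide) f1387 (by decide +kernel) (2 ^ 1387 - 1) (by decide +kernel)
    (by decide +kernel)

/-- base blocks of a difference family with 873 points -/
def f873 : List (List (ℕ × ℕ)) := [
   [(0, 0), (1, 3), (1, 94), (2, 36), (2, 61), (5, 20), (5, 77), (7, 5), (7, 92)],
   [(0, 0), (2, 18), (2, 79), (4, 22), (4, 75), (1, 23), (1, 74), (5, 30), (5, 67)],
   [(0, 0), (4, 11), (4, 86), (8, 35), (8, 62), (2, 41), (2, 56), (1, 83), (1, 14)],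
   [(0, 0), (8, 66), (8, 31), (7, 16), (7, 81), (4, 52), (4, 45), (2, 13), (2, 84)],
   [(0, 0), (7, 8), (7, 89), (5, 96), (5, 1), (8, 21), (8, 76), (4, 78), (4, 19)],
   [(0, 0), (5, 48), (5, 49), (1, 91), (1, 6), (7, 29), (7, 68), (8, 80), (8, 17)],
   [(0, 0), (1, 2), (1, 95), (3, 40), (3, 57), (6, 10), (6, 87), (8, 24), (8, 73)],
   [(0, 0), (2, 12), (2, 85), (6, 46), (6, 51), (3, 60), (3, 37), (7, 47), (7, 50)],
   [(0, 0), (4, 72), (4, 25), (3, 82), (3, 15), (6, 69), (6, 28), (5, 88), (5, 9)],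
   [(0, 0), (8, 44), (8, 53), (6, 7), (6, 90), (3, 26), (3, 71), (1, 43), (1, 54)],
   [(0, 0), (7, 70), (7, 27), (3, 42), (3, 55), (6, 59), (6, 38), (2, 64), (2, 33)],
   [(0, 0), (5, 32), (5, 65), (6, 58), (6, 39), (3, 63), (3, 34), (4, 93), (4, 4)]]

theorem s873 : ∃ 𝓑 : Finset (Finset (Fin 873)), IsSteiner 873 9 2 𝓑 :=
  of_rdf 9 97 (by decide) (by decide) f873 (by decide +kernel) 397444631628981487398138749048908882400819379709591631857130790357878705250594750434201738738164912900972814553085987634233900702510524525189370339002269357111346684210193004251939929950842158384238184587771736986169990550561038008321 (2 ^ 873 - 1)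
    (by decide +kernel) (by decide +kernel) (by decide +kernel)


end Pool.Agent.H816R2.DF
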