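import Pool.Agent.H482R3.EA.Stm

set_option autoImplicit false

/-! Project EA, task VALA (helper816): valuation into `EA c`. -/

namespace Pool.Agent.H816R2.EA

open Pool.Agent.H482R3.EA

theorem vala_rel {S : Type} (c : S → S → ℕ) (s t : S) (hst : s ≠ t) (hc : c s t ≠ 0) :
    (gen c s * gen c t) ^ (c s t) = (gen c t * gen c s) ^ (c s t) := by
  have h1 : (FreeGroup.of s * FreeGroup.of t) ^ (c s t) *
      ((FreeGroup.of t * FreeGroup.of s) ^ (c s t))⁻¹ ∈ rels c := ⟨s, t, hst, hc, rfl⟩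
  have h2 : PresentedGroup.mk (rels c) ((FreeGroup.of s * FreeGroup.of t) ^ (c s t) *
      ((FreeGroup.of t * FreeGroup.of s) ^ (c s t))⁻¹) = 1 := PresentedGroup.one_of_mem h1
  rw [map_mul, map_inv, map_pow, map_pow, map_mul, map_mul, mul_inv_eq_one] at h2
  exact h2

section

variable {V Wt : Type} (c : V ⊕ Wt → V ⊕ Wt → ℕ)

/-- the homomorphisms of the line groups -/
noncomputable def valaPhi (jV : EA (cV c) →* EA c) (jW : EA (cW c) →* EA c) :
    (l : LnEA c) → LEA c l →* EA c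
  | .inl g => ((MulAut.conj (jW g)).toMonoidHom.comp jV : EA (cV c) →* EA c)
  | .inr q => (FreeGroup.lift (fun r : Fin (c (.inl q.1.1.1) (.inr q.1.1.2)) =>
      jW q.2.out * gen c (.inr q.1.1.2) ^ (r : ℕ) * gen c (.inl q.1.1.1) *
        gen c (.inr q.1.1.2) ^ (-((r : ℕ) : ℤ)) * (jW q.2.out)⁻¹) :
      FreeGroup (Fin (c (.inl q.1.1.1) (.inr q.1.1.2))) →* EA c)

theorem valaPhi_inl (jV : EA (cV c) →* EA c) (jW : EA (cW c) →* EA c) (g : EA (cW c))
    (y : EA (cV c)) :
    valaPhi c jV jW (.inl g) y = jW g * jV y * (jW g)⁻¹ := rfl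

theorem valaPhi_inr (jV : EA (cV c) →* EA c) (jW : EA (cW c) →* EA c)
    (q : Σ i : LIdx c, EA (cW c) ⧸ Subgroup.zpowers (gen (cW c) i.1.2))
    (y : FreeGroup (Fin (c (.inl q.1.1.1) (.inr q.1.1.2)))) :
    valaPhi c jV jW (.inr q) y =
      FreeGroup.lift (fun r : Fin (c (.inl q.1.1.1) (.inr q.1.1.2)) =>
      jW q.2.out * gen c (.inr q.1.1.2) ^ (r : ℕ) * gen c (.inl q.1.1.1) *
        gen c (.inr q.1.1.2) ^ (-((r : ℕ) : ℤ)) * (jW q.2.out)⁻¹) y := rfl

end

theorem vala_ev_cons {S G : Type} [Group G] (f : S → G) (a : S × Bool) (u : W S) :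
    ev f (a :: u) = (if a.2 then f a.1 else (f a.1)⁻¹) * ev f u := by
  simp [ev]

theorem t_VALA (hH : S_XH) (hL : S_LIFT) (hG : S_EXG) : S_VALA := by
  intro V Wt _ _ c hS hC h A
  obtain ⟨jV, hjV, -⟩ := hL V (EA c) inferInstance (cV c) (fun v => gen c (.inl v))
    (fun s t hst hc => vala_rel c (.inl s) (.inl t) (fun e => hst (Sum.inl_injective e)) hc)
  obtain ⟨jW, hjW, -⟩ := hL Wt (EA c) inferInstance (cW c) (fun w => gen c (.inr w))
    (fun s t hst hc => vala_rel c (.inr s) (.inr t) (fun e => hst (Sum.inr_injective e)) hc)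
  have key : ∀ (l : LnEA c) (p : PEA c), IEA c p l →
      valaPhi c jV jW l (xEA c l p) = jW p.1 * gen c (.inl p.2) * (jW p.1)⁻¹ := by
    intro l p hp
    rcases l with g | q
    · have hp' : p.1 = g := hp
      subst hp'
      show valaPhi c jV jW (.inl p.1) (gen (cV c) p.2) = _
      rw [valaPhi_inl, hjV]
    · obtain ⟨hp1, hp2⟩ : p.2 = q.1.1.1 ∧
        (QuotientGroup.mk p.1 : EA (cW c) ⧸ Subgroup.zpowers (gen (cW c) q.1.1.2)) = q.2 := hp
      have hk : c (.inl q.1.1.1) (.inr q.1.1.2) ≠ 0 := q.1.2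
      have h1 : (q.2.out)⁻¹ * p.1 ∈ Subgroup.zpowers (gen (cW c) q.1.1.2) := by
        rw [← QuotientGroup.eq, hp2]
        exact Quotient.out_eq' q.2
      obtain ⟨n, hn⟩ := Subgroup.mem_zpowers_iff.1 h1
      have hx : exg c q.1.1.2 ((q.2.out)⁻¹ * p.1) = n := by
        rw [← hn, (hG V Wt inferInstance c q.1.1.2).2.2, if_pos rfl]
      have hp3 : p.1 = q.2.out * gen (cW c) q.1.1.2 ^ n := by
        rw [hn, mul_inv_cancel_left]
      have hr := vala_rel c (.inl q.1.1.1) (.inr q.1.1.2) (by simp) hk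
      show valaPhi c jV jW (.inr q) (xx _ (exg c q.1.1.2 ((q.2.out : EA (cW c))⁻¹ * p.1))) = _
      rw [hx, valaPhi_inr, hH (EA c) inferInstance _ _ _ _ (Nat.pos_of_ne_zero hk) hr n, hp3, hp1,
        map_mul, map_zpow, hjW]
      group
  obtain ⟨v, hv1, hv2⟩ := A.val (EA c) (valaPhi c jV jW)
    (fun p : PEA c => jW p.1 * gen c (.inl p.2) * (jW p.1)⁻¹) key
  refine ⟨fun x => v x.1 * jW x.2, by show v A.one * jW 1 = 1; rw [hv1, map_one, mul_one], ?_⟩
  have hstep : ∀ (x : A.Ω × EA (cW c)) (a : (V ⊕ Wt) × Bool),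
      v (stepA c h A x a).1 * jW (stepA c h A x a).2 =
        v x.1 * jW x.2 * (if a.2 then gen c a.1 else (gen c a.1)⁻¹) := by
    rintro ⟨ω, g⟩ ⟨s | s, b⟩
    · show v (A.act ω (Sum.inl g : LnEA c)
        (if b then gen (cV c) s else (gen (cV c) s)⁻¹ : EA (cV c))) * jW g = _
      rw [hv2]
      show v ω * (jW g * jV (if b then gen (cV c) s else (gen (cV c) s)⁻¹ : EA (cV c)) *
        (jW g)⁻¹) * jW g = v ω * jW g * (if b then gen c (.inl s) else (gen c (.inl s))⁻¹)
      have e : jV (if b then gen (cV c) s else (gen (cV c) s)⁻¹ : EA (cV c)) =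
          (if b then gen c (.inl s) else (gen c (.inl s))⁻¹) := by
        cases b
        · simp only [Bool.false_eq_true, if_false]
          rw [map_inv, hjV]
        · simp only [if_true]
          rw [hjV]
      rw [e]
      group
    · show v ω * jW (g * if b then gen (cW c) s else (gen (cW c) s)⁻¹) =
        v ω * jW g * (if b then gen c (.inr s) else (gen c (.inr s))⁻¹)
      have e : jW (if b then gen (cW c) s else (gen (cW c) s)⁻¹) =
          (if b then gen c (.inr s) else (gen c (.inr s))⁻¹) := by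
        cases b
        · simp only [Bool.false_eq_true, if_false]
          rw [map_inv, hjW]
        · simp only [if_true]
          rw [hjW]
      rw [map_mul, e, mul_assoc]
  intro u
  induction u with
  | nil =>
    intro x
    show v x.1 * jW x.2 = v x.1 * jW x.2 * 1
    rw [mul_one]
  | cons a u ih =>
    intro x
    have h1 := ih (stepA c h A x a)
    have h2 : runA c h A (a :: u) x = runA c h A u (stepA c h A x a) := rfl
    rw [h2]
    refine h1.trans ?_
    show v (stepA c h A x a).1 * jW (stepA c h A x a).2 * ev (gen c) u = _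
    rw [hstep, vala_ev_cons, mul_assoc]

end Pool.Agent.H816R2.EA
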