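import Mathlib

/-!
The Goethals-Seidel construction: four `±1` sequences on `ZMod v` whose periodic
autocorrelations add up to zero give a Hadamard matrix of order `4 v`.
-/

namespace Pool.Agent.H816R2.GS

open Finset Matrix

/-- There is a Hadamard matrix of order `n`. -/
def HasHadamard (n : ℕ) : Prop :=
  ∃ H : Matrix (Fin n) (Fin n) ℤ, (∀ i j, H i j = 1 ∨ H i j = -1) ∧
    H * Matrix.transpose H = (n : ℤ) • (1 : Matrix (Fin n) (Fin n) ℤ)

section

variable {G : Type*} [AddCommGroup G] [Fintype G]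

/-- convolution -/
def C1 (f g : G → ℤ) (t : G) : ℤ := ∑ y, f y * g (t - y)

/-- correlation -/
def C2 (f g : G → ℤ) (t : G) : ℤ := ∑ y, f y * g (y + t)

theorem C1_comm (f g : G → ℤ) (t : G) : C1 f g t = C1 g f t := by
  unfold C1
  rw [← Equiv.sum_comp (Equiv.subLeft t)]
  refine Finset.sum_congr rfl fun y _ => ?_
  simp [mul_comm]

theorem C2_comm (f g : G → ℤ) (t : G) : C2 f g t = C2 g f (-t) := by
  unfold C2
  rw [← Equiv.sum_comp (Equiv.subRight t)]
  refine Finset.sum_congr rfl fun y _ => ?_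
  simp [mul_comm, sub_eq_add_neg]

theorem s1 (f g : G → ℤ) (x x' : G) : ∑ y, f (y - x) * g (y - x') = C2 f g (x - x') := by
  unfold C2
  rw [← Equiv.sum_comp (Equiv.subRight x) (fun y => f y * g (y + (x - x')))]
  refine Finset.sum_congr rfl fun y _ => ?_
  simp only [Equiv.subRight_apply]
  congr 2
  abel

theorem s2 (f g : G → ℤ) (x x' : G) : ∑ y, f (-x - y) * g (-x' - y) = C2 f g (x - x') := by
  unfold C2
  rw [← Equiv.sum_comp (Equiv.subLeft (-x)) (fun y => f y * g (y + (x - x')))]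
  refine Finset.sum_congr rfl fun y _ => ?_
  simp only [Equiv.subLeft_apply]
  congr 2
  abel

theorem s3 (f g : G → ℤ) (x x' : G) : ∑ y, f (x + y) * g (x' + y) = C2 f g (x' - x) := by
  unfold C2
  rw [← Equiv.sum_comp (Equiv.addLeft x) (fun y => f y * g (y + (x' - x)))]
  refine Finset.sum_congr rfl fun y _ => ?_
  simp only [Equiv.coe_addLeft]
  congr 2
  abel

theorem s4 (f g : G → ℤ) (x x' : G) : ∑ y, f (y - x) * g (-x' - y) = C1 f g (-x - x') := by
  unfold C1
  rw [← Equiv.sum_comp (Equiv.subRight x) (fun y => f y * g (-x - x' - y))]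
  refine Finset.sum_congr rfl fun y _ => ?_
  simp only [Equiv.subRight_apply]
  congr 2
  abel

theorem s5 (f g : G → ℤ) (x x' : G) : ∑ y, f (-x - y) * g (y - x') = C1 f g (-x - x') := by
  unfold C1
  rw [← Equiv.sum_comp (Equiv.subLeft (-x)) (fun y => f y * g (-x - x' - y))]
  refine Finset.sum_congr rfl fun y _ => ?_
  simp only [Equiv.subLeft_apply]
  congr 2
  abel

theorem s6 (f g : G → ℤ) (x x' : G) : ∑ y, f (y - x) * g (x' + y) = C2 f g (x + x') := by
  unfold C2
  rw [← Equiv.sum_comp (Equiv.subRight x) (fun y => f y * g (y + (x + x')))]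
  refine Finset.sum_congr rfl fun y _ => ?_
  simp only [Equiv.subRight_apply]
  congr 2
  abel

theorem s7 (f g : G → ℤ) (x x' : G) : ∑ y, f (x + y) * g (y - x') = C2 f g (-x - x') := by
  unfold C2
  rw [← Equiv.sum_comp (Equiv.addLeft x) (fun y => f y * g (y + (-x - x')))]
  refine Finset.sum_congr rfl fun y _ => ?_
  simp only [Equiv.coe_addLeft]
  congr 2
  abel

theorem s8 (f g : G → ℤ) (x x' : G) : ∑ y, f (-x - y) * g (x' + y) = C1 f g (x' - x) := by
  unfold C1
  rw [← Equiv.sum_comp (Equiv.subLeft (-x)) (fun y => f y * g (x' - x - y))]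
  refine Finset.sum_congr rfl fun y _ => ?_
  simp only [Equiv.subLeft_apply]
  congr 2
  abel

theorem s9 (f g : G → ℤ) (x x' : G) : ∑ y, f (x + y) * g (-x' - y) = C1 f g (x - x') := by
  unfold C1
  rw [← Equiv.sum_comp (Equiv.addLeft x) (fun y => f y * g (x - x' - y))]
  refine Finset.sum_congr rfl fun y _ => ?_
  simp only [Equiv.coe_addLeft]
  congr 2
  abel

theorem C2_self (f : G → ℤ) (hf : ∀ x, f x = 1 ∨ f x = -1) : C2 f f 0 = Fintype.card G := by
  unfold C2
  have : ∀ y ∈ (Finset.univ : Finset G), f y * f (y + 0) = 1 := by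
    intro y _
    rcases hf y with h | h <;> simp [h]
  rw [Finset.sum_congr rfl this]
  simp

end

/-- The Goethals-Seidel array. -/
def gsM {G : Type*} [AddCommGroup G] (a b c d : G → ℤ) :
    Matrix (Fin 4 × G) (Fin 4 × G) ℤ := fun p q =>
  match p.1, q.1 with
  | 0, 0 => a (q.2 - p.2)
  | 0, 1 => b (-p.2 - q.2)
  | 0, 2 => c (-p.2 - q.2)
  | 0, 3 => d (-p.2 - q.2)
  | 1, 0 => - b (-p.2 - q.2)
  | 1, 1 => a (q.2 - p.2)
  | 1, 2 => d (p.2 + q.2)
  | 1, 3 => - c (p.2 + q.2)
  | 2, 0 => - c (-p.2 - q.2)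
  | 2, 1 => - d (p.2 + q.2)
  | 2, 2 => a (q.2 - p.2)
  | 2, 3 => b (p.2 + q.2)
  | 3, 0 => - d (-p.2 - q.2)
  | 3, 1 => c (p.2 + q.2)
  | 3, 2 => - b (p.2 + q.2)
  | 3, 3 => a (q.2 - p.2)

theorem gs {G : Type*} [AddCommGroup G] [Fintype G] [DecidableEq G] (a b c d : G → ℤ)
    (ha : ∀ x, a x = 1 ∨ a x = -1) (hb : ∀ x, b x = 1 ∨ b x = -1)
    (hc : ∀ x, c x = 1 ∨ c x = -1) (hd : ∀ x, d x = 1 ∨ d x = -1)
    (h : ∀ s, s ≠ 0 → C2 a a s + C2 b b s + C2 c c s + C2 d d s = 0) :
    (∀ i j, gsM a b c d i j = 1 ∨ gsM a b c d i j = -1) ∧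
    gsM a b c d * Matrix.transpose (gsM a b c d) =
      ((4 * Fintype.card G : ℕ) : ℤ) • (1 : Matrix (Fin 4 × G) (Fin 4 × G) ℤ) := by
  constructor
  · rintro ⟨i, x⟩ ⟨j, y⟩
    have na : ∀ z, - a z = 1 ∨ - a z = -1 := fun z => by rcases ha z with h | h <;> simp [h]
    have nb : ∀ z, - b z = 1 ∨ - b z = -1 := fun z => by rcases hb z with h | h <;> simp [h]
    have nc : ∀ z, - c z = 1 ∨ - c z = -1 := fun z => by rcases hc z with h | h <;> simp [h]
    have nd : ∀ z, - d z = 1 ∨ - d z = -1 := fun z => by rcases hd z with h | h <;> simp [h]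
    fin_cases i <;> fin_cases j <;>
      first
        | exact ha _
        | exact hb _
        | exact hc _
        | exact hd _
        | exact nb _
        | exact nc _
        | exact nd _
  · have key : ∀ x x' : G, C2 a a (x - x') + C2 b b (x - x') + C2 c c (x - x') + C2 d d (x - x')
        = if x = x' then (4 * Fintype.card G : ℤ) else 0 := by
      intro x x'
      split_ifs with hx
      · subst hx
        rw [sub_self, C2_self a ha, C2_self b hb, C2_self c hc, C2_self d hd]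
        ring
      · exact h _ (sub_ne_zero.2 hx)
    have n1 : ∀ (f g : G → ℤ) (x x' : G), C2 f g (x' - x) = C2 g f (x - x') := by
      intro f g x x'
      rw [C2_comm, neg_sub]
    have n2 : ∀ (f g : G → ℤ) (x x' : G), C2 f g (-x - x') = C2 g f (x + x') := by
      intro f g x x'
      rw [C2_comm]
      congr 1
      abel
    ext ⟨i, x⟩ ⟨j, x'⟩
    rw [Matrix.mul_apply, Fintype.sum_prod_type, Fin.sum_univ_four, Matrix.smul_apply,
      Matrix.one_apply]
    fin_cases i <;> fin_cases j <;>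
      simp only [gsM, Matrix.transpose_apply, neg_mul, mul_neg, neg_neg, Finset.sum_neg_distrib,
        s1, s2, s3, s4, s5, s6, s7, s8, s9, Fin.zero_eta, Fin.mk_one, Fin.reduceFinMk,
        Prod.mk.injEq, true_and, smul_eq_mul]
    · rw [key]; push_cast; split_ifs <;> simp
    · rw [C1_comm b a, C1_comm d c]; simp
    · rw [C1_comm c a, C1_comm d b]; simp
    · rw [C1_comm d a, C1_comm c b]; simp
    · rw [C1_comm b a, C1_comm d c]; simp
    · rw [n1 d d, n1 c c]
      have := key x x'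
      push_cast
      split_ifs at this ⊢ <;> simp <;> linarith
    · rw [n2 d a, n1 c b]; simp
    · rw [n2 c a, n1 d b]; simp
    · rw [C1_comm c a, C1_comm d b]; simp
    · rw [n2 d a, n1 b c]; simp
    · rw [n1 d d, n1 b b]
      have := key x x'
      push_cast
      split_ifs at this ⊢ <;> simp <;> linarith
    · rw [n2 b a, n1 d c]; simp
    · rw [C1_comm d a, C1_comm c b]; simp
    · rw [n2 c a, n1 b d]; simp
    · rw [n2 b a, n1 c d]; simp
    · rw [n1 c c, n1 b b]
      have := key x x'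
      push_cast
      split_ifs at this ⊢ <;> simp <;> linarith

end Pool.Agent.H816R2.GS
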