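import Pool.Agent.H816R2.GSInv

/-!
A Hadamard matrix of order `4 * 223`: Goethals-Seidel array with four sequences on `ZMod 223`
invariant under multiplication by `183` (of order 3).
-/

namespace Pool.Agent.H816R2.GS

def a223 : ℕ := 0x584c0e911fcc9e1f6b296b9ef17bc6ccd20e977b70629beeab1da10a

def b223 : ℕ := 0x2baa2b778bfc142b07409e36e84cb6773e638b6fd3d24bdac73b392

def c223 : ℕ := 0x6caea7a4cb7b5eafe23ea050dcb66bf74603ef19312aed2e9c0c650c

def d223 : ℕ := 0x290f768b4e78bfdfb7c7419678e6abd83a37b7da8a5c466e08bc4df8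

theorem hadamard223 : HasHadamard (4 * 223) :=
  haveI : NeZero 223 := ⟨by norm_num⟩
  hasHadamard_of_invCheck 223 183 3 a223 b223 c223 d223 [1, 3, 9, 27, 81, 20, 60, 180, 94, 59, 177, 85, 32, 96, 65, 195, 139, 194, 136, 185, 109, 104, 89, 44, 132, 173, 73, 219, 211, 187, 115, 122, 143, 206, 172, 70, 210]
    (by decide +kernel) (by norm_num) (by decide +kernel) (by decide +kernel) (by decide +kernel)

end Pool.Agent.H816R2.GS
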