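import Pool.Agent.H816R2.GSInv

/-!
A Hadamard matrix of order `4 * 311`: Goethals-Seidel array with four sequences on `ZMod 311`
invariant under multiplication by `36` (of order 5).
-/

namespace Pool.Agent.H816R2.GS

def a311 : ℕ := 0x20b80c44e29fc099768d26152dd742eec34467e1531676cb9f8d471c985799e3f4969eabfbf2d6

def b311 : ℕ := 0x10b36f2de25ec059f651cd3c2f7f05ab6b3c08ab57f773ebd32b5d30ccd7431167a60d03f33794

def c311 : ℕ := 0x63fd1104886eff0eebe7d66f4cc5bf55f42c2da61857d0d6816741b1b4c3470e55abf9c8e37b66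

def d311 : ℕ := 0x1c22e7f351c550c95d21eb5ed3285f16de61bad9ff79cfe04ab6f20550baf3170b7323f726c539

theorem hadamard311 : HasHadamard (4 * 311) :=
  haveI : NeZero 311 := ⟨by norm_num⟩
  hasHadamard_of_invCheck 311 36 5 a311 b311 c311 d311 [1, 17, 289, 248, 173, 142, 237, 297, 73, 308, 260, 66, 189, 103, 196, 222, 42, 92, 9, 153, 113, 55, 2, 34, 267, 185, 35, 284, 163, 283, 146]
    (by decide +kernel) (by norm_num) (by decide +kernel) (by decide +kernel) (by decide +kernel)

end Pool.Agent.H816R2.GS
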