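import Pool.Agent.H816R2.GSInv

/-!
A Hadamard matrix of order `4 * 487`: Goethals-Seidel array with four sequences on `ZMod 487`
invariant under multiplication by `362` (of order 9).
-/

namespace Pool.Agent.H816R2.GS

def a487 : ℕ := 0x7972ed838661a682deaff7d05ef7dfd1725e753e38d4c756eb68704e5296edbedde41d93a5414fd4263df21ae321ce0773e32772928955c97599f2a644

def b487 : ℕ := 0x28e0b7fff0b9552ef2862818a1f153686e5ba53d0ddbd24e54139b26433e21fcae4d6f9c0f7318f8258aa7d1241acb13315e357d191b79f92ddffe270d

def c487 : ℕ := 0x5e58fa68c374bc1b9220421d43bf8fd763f98d858efe26fd48a5e43ecdeb2ad37ed871aaabaf0acb6914e6752172c491a9c91983f309707bbf5805b3a3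

def d487 : ℕ := 0x6816b54b05671dfac696339224bd566018b7f56e8ed2cbd747400c58669765b697440fbc0e45507b362a1218116f838ef6ea261ec0cfb5dc7391f3b67d

theorem hadamard487 : HasHadamard (4 * 487) :=
  haveI : NeZero 487 := ⟨by norm_num⟩
  hasHadamard_of_invCheck 487 362 9 a487 b487 c487 d487 [1, 3, 9, 27, 81, 243, 242, 239, 230, 203, 122, 366, 124, 372, 142, 426, 304, 425, 301, 416, 274, 335, 31, 93, 279, 350, 76]
    (by decide +kernel) (by norm_num) (by decide +kernel) (by decide +kernel) (by decide +kernel)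

end Pool.Agent.H816R2.GS
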