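import Pool.Agent.H816R2.GS

/-!
A checker for the Goethals-Seidel condition on cyclic groups, with sequences coded as binary
numbers.
-/

namespace Pool.Agent.H816R2.GS

open Finset Matrix

/-- number of ones among the lowest `f` binary digits -/
def pc (f : ℕ) : ℕ → ℕ :=
  Nat.rec (fun _ => 0) (fun _ ih n => n % 2 + ih (n / 2)) f

theorem pc_zero (n : ℕ) : pc 0 n = 0 := rfl

theorem pc_succ (f n : ℕ) : pc (f + 1) n = n % 2 + pc f (n / 2) := rfl

theorem pc_eq (f n : ℕ) : pc f n = ∑ x ∈ Finset.range f, if n.testBit x then 1 else 0 := by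
  induction f generalizing n with
  | zero => simp [pc_zero]
  | succ f ih =>
    rw [pc_succ, ih, Finset.sum_range_succ']
    rw [add_comm]
    congr 1
    · refine Finset.sum_congr rfl fun x _ => ?_
      rw [Nat.testBit_succ]
    · rw [Nat.testBit_zero]
      rcases Nat.mod_two_eq_zero_or_one n with h | h <;> simp [h]

/-- the check for one shift -/
def chk (v : ℕ) (l : List ℕ) (s : ℕ) : Bool :=
  (l.map fun A => pc v (A ^^^ ((A ||| (A <<< v)) >>> s))).sum == 2 * v

/-- the sequence coded by a binary number -/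
def seqOf (v A : ℕ) : ZMod v → ℤ := fun x => if A.testBit x.val then 1 else -1

theorem seqOf_pm (v A : ℕ) (x : ZMod v) : seqOf v A x = 1 ∨ seqOf v A x = -1 := by
  unfold seqOf
  split_ifs <;> simp

theorem bit_rot {v A : ℕ} (hA : A < 2 ^ v) {s x : ℕ} (hs : s < v) (hx : x < v) :
    ((A ||| (A <<< v)) >>> s).testBit x = A.testBit ((x + s) % v) := by
  rw [Nat.testBit_shiftRight, Nat.testBit_lor, Nat.testBit_shiftLeft]
  by_cases h : s + x < v
  · have : ¬ v ≤ s + x := by omega
    rw [Nat.mod_eq_of_lt (by omega : x + s < v), add_comm x s]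
    simp [this]
  · have h1 : v ≤ s + x := by omega
    have h2 : A.testBit (s + x) = false := by
      apply Nat.testBit_lt_two_pow
      exact lt_of_lt_of_le hA (Nat.pow_le_pow_right (by norm_num) h1)
    have h3 : (x + s) % v = s + x - v := by
      rw [add_comm x s, Nat.mod_eq_sub_mod h1, Nat.mod_eq_of_lt (by omega)]
    rw [h2, h3]
    simp [h1]

theorem C2_seqOf {v A : ℕ} [NeZero v] (hA : A < 2 ^ v) {s : ℕ} (hs : s < v) :
    C2 (seqOf v A) (seqOf v A) (s : ZMod v) =
      (v : ℤ) - 2 * (pc v (A ^^^ ((A ||| (A <<< v)) >>> s)) : ℕ) := by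
  have hv : 0 < v := Nat.pos_of_ne_zero (NeZero.ne v)
  unfold C2
  have e1 : ∀ y : ZMod v, seqOf v A y * seqOf v A (y + (s : ZMod v)) =
      1 - 2 * (if (A ^^^ ((A ||| (A <<< v)) >>> s)).testBit y.val then 1 else 0 : ℤ) := by
    intro y
    have hy : y.val < v := ZMod.val_lt y
    rw [Nat.testBit_xor, bit_rot hA hs hy]
    have : (y + (s : ZMod v)).val = (y.val + s) % v := by
      rw [ZMod.val_add, ZMod.val_natCast, Nat.add_mod_mod]
    unfold seqOf
    rw [this]
    cases h1 : A.testBit y.val <;> cases h2 : A.testBit ((y.val + s) % v) <;> simp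
  rw [Finset.sum_congr rfl fun y _ => e1 y, pc_eq]
  rw [Finset.sum_sub_distrib, ← Finset.mul_sum]
  have e2 : ∑ y : ZMod v, (if (A ^^^ ((A ||| (A <<< v)) >>> s)).testBit y.val then 1 else 0 : ℤ) =
      ∑ x ∈ Finset.range v, (if (A ^^^ ((A ||| (A <<< v)) >>> s)).testBit x then 1 else 0 : ℤ) := by
    refine Finset.sum_bij (fun y _ => y.val) ?_ ?_ ?_ ?_
    · intro y _; exact Finset.mem_range.2 (ZMod.val_lt y)
    · intro y _ z _ h; exact ZMod.val_injective v h
    · intro x hx
      refine ⟨(x : ZMod v), Finset.mem_univ _, ?_⟩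
      rw [ZMod.val_natCast, Nat.mod_eq_of_lt (Finset.mem_range.1 hx)]
    · intro y _; rfl
  rw [e2]
  push_cast
  simp [ZMod.card]

theorem hasHadamard_of_check (v : ℕ) [NeZero v] (A B C D : ℕ)
    (hlt : A < 2 ^ v ∧ B < 2 ^ v ∧ C < 2 ^ v ∧ D < 2 ^ v)
    (hchk : ∀ s ∈ List.range v, s ≠ 0 → 2 * s ≤ v → chk v [A, B, C, D] s = true) :
    HasHadamard (4 * v) := by
  obtain ⟨hA, hB, hC, hD⟩ := hlt
  have main : ∀ s : ℕ, s < v → s ≠ 0 → 2 * s ≤ v →
      C2 (seqOf v A) (seqOf v A) (s : ZMod v) + C2 (seqOf v B) (seqOf v B) (s : ZMod v) +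
      C2 (seqOf v C) (seqOf v C) (s : ZMod v) + C2 (seqOf v D) (seqOf v D) (s : ZMod v) = 0 := by
    intro s hs h0 h2
    have := hchk s (List.mem_range.2 hs) h0 h2
    unfold chk at this
    simp only [List.map_cons, List.map_nil, List.sum_cons, List.sum_nil, beq_iff_eq,
      add_zero] at this
    rw [C2_seqOf hA hs, C2_seqOf hB hs, C2_seqOf hC hs, C2_seqOf hD hs]
    zify at this
    linarith
  have h := gs (seqOf v A) (seqOf v B) (seqOf v C) (seqOf v D)
    (seqOf_pm v A) (seqOf_pm v B) (seqOf_pm v C) (seqOf_pm v D) (by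
      intro s hs
      have hs0 : s.val ≠ 0 := by rwa [Ne, ZMod.val_eq_zero]
      have hlt := ZMod.val_lt s
      by_cases h2 : 2 * s.val ≤ v
      · have := main s.val hlt hs0 h2
        rwa [ZMod.natCast_zmod_val] at this
      · have h3 : (-s).val = v - s.val := by
          rw [ZMod.neg_val, if_neg hs]
        have := main (-s).val (ZMod.val_lt _) (by omega) (by omega)
        rw [ZMod.natCast_zmod_val] at this
        rw [C2_comm (seqOf v A), C2_comm (seqOf v B), C2_comm (seqOf v C), C2_comm (seqOf v D)]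
        exact this)
  have hcard : Fintype.card (Fin 4 × ZMod v) = 4 * v := by simp [ZMod.card]
  let e : Fin (4 * v) ≃ Fin 4 × ZMod v :=
    (Fintype.equivFinOfCardEq hcard).symm
  refine ⟨(gsM (seqOf v A) (seqOf v B) (seqOf v C) (seqOf v D)).submatrix e e, ?_, ?_⟩
  · intro i j
    exact h.1 _ _
  · rw [Matrix.transpose_submatrix, Matrix.submatrix_mul_equiv, h.2]
    rw [Matrix.submatrix_smul, Pi.smul_apply, Pi.smul_apply, Matrix.submatrix_one_equiv, ZMod.card]

theorem hasHadamard_double {n : ℕ} (h : HasHadamard n) : HasHadamard (2 * n) := by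
  obtain ⟨H, h1, h2⟩ := h
  let S : Matrix (Fin 2) (Fin 2) ℤ := !![1, 1; 1, -1]
  have hS : ∀ i j, S i j = 1 ∨ S i j = -1 := by
    intro i j
    fin_cases i <;> fin_cases j <;> simp [S]
  have hSS : S * Matrix.transpose S = (2 : ℤ) • (1 : Matrix (Fin 2) (Fin 2) ℤ) := by
    ext i j
    fin_cases i <;> fin_cases j <;> simp [S, Matrix.mul_apply, Fin.sum_univ_two]
  let e : Fin (2 * n) ≃ Fin 2 × Fin n := finProdFinEquiv.symm
  refine ⟨(Matrix.kroneckerMap (· * ·) S H).submatrix e e, ?_, ?_⟩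
  · intro i j
    simp only [Matrix.submatrix_apply, Matrix.kroneckerMap_apply]
    rcases hS (e i).1 (e j).1 with h | h <;> rcases h1 (e i).2 (e j).2 with h' | h' <;>
      simp [h, h']
  · rw [Matrix.transpose_submatrix, Matrix.submatrix_mul_equiv]
    have : Matrix.kroneckerMap (· * ·) S H * Matrix.transpose (Matrix.kroneckerMap (· * ·) S H) =
        ((2 * n : ℕ) : ℤ) • (1 : Matrix (Fin 2 × Fin n) (Fin 2 × Fin n) ℤ) := by
      rw [← Matrix.kroneckerMap_transpose]
      refine (Matrix.mul_kronecker_mul S (Matrix.transpose S) H (Matrix.transpose H)).symm.trans ?_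
      rw [hSS, h2]
      ext ⟨i, x⟩ ⟨j, y⟩
      simp only [Matrix.kroneckerMap_apply, Matrix.smul_apply, Matrix.one_apply, smul_eq_mul,
        Prod.mk.injEq]
      by_cases hi : i = j <;> by_cases hx : x = y <;> simp [hi, hx]
    rw [this, Matrix.submatrix_smul, Pi.smul_apply, Pi.smul_apply, Matrix.submatrix_one_equiv]

theorem hasHadamard_pow {q : ℕ} (h : HasHadamard (4 * q)) (t : ℕ) (ht : 2 ≤ t) :
    HasHadamard (2 ^ t * q) := by
  induction t, ht using Nat.le_induction with
  | base => exact h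
  | succ t _ ih =>
    have : 2 ^ (t + 1) * q = 2 * (2 ^ t * q) := by ring
    rw [this]
    exact hasHadamard_double ih

end Pool.Agent.H816R2.GS
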