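import Pool.Agent.H816R2.GSCheck

/-!
A faster checker: the sequences are invariant under multiplication by `μ`, so the autocorrelation
has to be checked only for representatives.
-/

namespace Pool.Agent.H816R2.GS

open Finset Matrix

theorem C2_mul {v : ℕ} [NeZero v] (f : ZMod v → ℤ) (u : (ZMod v)ˣ)
    (hf : ∀ x, f ((u : ZMod v) * x) = f x) (s : ZMod v) :
    C2 f f ((u : ZMod v) * s) = C2 f f s := by
  unfold C2
  rw [← Equiv.sum_comp (Units.mulLeft u)]
  refine Finset.sum_congr rfl fun y _ => ?_
  rw [Units.mulLeft_apply, hf, ← mul_add, hf]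

/-- `l` lists, for each orbit representative, the whole list of the shifts it covers. -/
def orbitMask (v μ : ℕ) (k : ℕ) (r : ℕ) : ℕ :=
  Nat.rec (motive := fun _ => ℕ → ℕ) (fun _ => 0)
    (fun _ ih x => (1 <<< x) ||| ((1 <<< (v - x)) ||| ih (μ * x % v))) k r

theorem orbitMask_zero (v μ r : ℕ) : orbitMask v μ 0 r = 0 := rfl

theorem orbitMask_succ (v μ k r : ℕ) :
    orbitMask v μ (k + 1) r = (1 <<< r) ||| ((1 <<< (v - r)) ||| orbitMask v μ k (μ * r % v)) := rfl

/-- a predicate invariant under negation and multiplication by `μ` holds on all the shifts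
recorded in the mask of a shift on which it holds -/
theorem of_orbitMask {v μ : ℕ} [NeZero v] (P : ZMod v → Prop)
    (hneg : ∀ s, P s → P (-s)) (hμ : ∀ s, P s → P ((μ : ZMod v) * s))
    (k r : ℕ) (hr : r < v) (hP : P (r : ZMod v)) (s : ℕ) (hs : s < v)
    (h : (orbitMask v μ k r).testBit s = true) : P (s : ZMod v) := by
  induction k generalizing r with
  | zero => simp [orbitMask_zero] at h
  | succ k ih =>
    rw [orbitMask_succ, Nat.testBit_lor, Nat.testBit_lor, Nat.one_shiftLeft, Nat.one_shiftLeft,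
      Nat.testBit_two_pow, Nat.testBit_two_pow, Bool.or_eq_true, Bool.or_eq_true] at h
    rcases h with h | h | h
    · have : r = s := by simpa using h
      rw [← this]; exact hP
    · have h1 : v - r = s := by simpa using h
      have h2 : ((s : ℕ) : ZMod v) = -(r : ZMod v) := by
        rw [← h1, Nat.cast_sub hr.le, ZMod.natCast_self, zero_sub]
      rw [h2]; exact hneg _ hP
    · refine ih (μ * r % v) (Nat.mod_lt _ (Nat.pos_of_ne_zero (NeZero.ne v))) ?_ h
      rw [ZMod.natCast_mod, Nat.cast_mul]
      exact hμ _ hP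

/-- invariance of the sequence coded by `A` under multiplication by `μ` -/
def invChk (v μ A : ℕ) : Bool :=
  Nat.rec (motive := fun _ => Bool) true
    (fun x ih => (A.testBit (μ * x % v) == A.testBit x) && ih) v

theorem invChk_spec {v μ A : ℕ} [NeZero v] (h : invChk v μ A = true) (x : ZMod v) :
    seqOf v A ((μ : ZMod v) * x) = seqOf v A x := by
  have key : ∀ n, Nat.rec (motive := fun _ => Bool) true
      (fun x ih => (A.testBit (μ * x % v) == A.testBit x) && ih) n = true →
      ∀ x < n, A.testBit (μ * x % v) = A.testBit x := by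
    intro n
    induction n with
    | zero => intro _ x hx; omega
    | succ n ih =>
      intro hn x hx
      have hn' : ((A.testBit (μ * n % v) == A.testBit n) &&
        Nat.rec (motive := fun _ => Bool) true
          (fun x ih => (A.testBit (μ * x % v) == A.testBit x) && ih) n) = true := hn
      rw [Bool.and_eq_true, beq_iff_eq] at hn'
      rcases Nat.lt_succ_iff_lt_or_eq.1 hx with h1 | h1
      · exact ih hn'.2 x h1
      · rw [h1]; exact hn'.1
  have h1 := key v h x.val (ZMod.val_lt x)
  have h2 : ((μ : ZMod v) * x).val = μ * x.val % v := by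
    rw [ZMod.val_mul, ZMod.val_natCast, Nat.mod_mul_mod]
  unfold seqOf
  rw [h2, h1]

theorem hasHadamard_of_invCheck (v μ k : ℕ) [NeZero v] (A B C D : ℕ) (reps : List ℕ)
    (hlt : A < 2 ^ v ∧ B < 2 ^ v ∧ C < 2 ^ v ∧ D < 2 ^ v)
    (hco : Nat.Coprime μ v)
    (hinv : (invChk v μ A && invChk v μ B && invChk v μ C && invChk v μ D) = true)
    (hreps : reps.all (fun r => r < v && r != 0 && chk v [A, B, C, D] r) = true)
    (hcov : reps.foldl (fun m r => m ||| orbitMask v μ k r) 1 % 2 ^ v = 2 ^ v - 1) :
    HasHadamard (4 * v) := by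
  obtain ⟨hA, hB, hC, hD⟩ := hlt
  have hv : 0 < v := Nat.pos_of_ne_zero (NeZero.ne v)
  simp only [Bool.and_eq_true] at hinv
  obtain ⟨⟨⟨iA, iB⟩, iC⟩, iD⟩ := hinv
  let u : (ZMod v)ˣ := ZMod.unitOfCoprime μ hco
  have hu : (u : ZMod v) = (μ : ZMod v) := ZMod.coe_unitOfCoprime μ hco
  let P : ZMod v → Prop := fun s =>
    C2 (seqOf v A) (seqOf v A) s + C2 (seqOf v B) (seqOf v B) s +
    C2 (seqOf v C) (seqOf v C) s + C2 (seqOf v D) (seqOf v D) s = 0
  have hneg : ∀ s, P s → P (-s) := by
    intro s hs
    change _ = _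
    rw [← C2_comm (seqOf v A), ← C2_comm (seqOf v B), ← C2_comm (seqOf v C),
      ← C2_comm (seqOf v D)]
    exact hs
  have hmul : ∀ s, P s → P ((μ : ZMod v) * s) := by
    intro s hs
    change _ = _
    rw [← hu, C2_mul _ u (fun x => by rw [hu]; exact invChk_spec iA x),
      C2_mul _ u (fun x => by rw [hu]; exact invChk_spec iB x),
      C2_mul _ u (fun x => by rw [hu]; exact invChk_spec iC x),
      C2_mul _ u (fun x => by rw [hu]; exact invChk_spec iD x)]
    exact hs
  have hrep : ∀ r ∈ reps, r < v ∧ r ≠ 0 ∧ P (r : ZMod v) := by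
    intro r hr
    have h1 := List.all_eq_true.1 hreps r hr
    simp only [Bool.and_eq_true, decide_eq_true_eq, bne_iff_ne, ne_eq] at h1
    obtain ⟨⟨h1, h2⟩, h3⟩ := h1
    refine ⟨h1, h2, ?_⟩
    unfold chk at h3
    simp only [List.map_cons, List.map_nil, List.sum_cons, List.sum_nil, beq_iff_eq,
      add_zero] at h3
    change _ = _
    rw [C2_seqOf hA h1, C2_seqOf hB h1, C2_seqOf hC h1, C2_seqOf hD h1]
    zify at h3
    linarith
  have hfold : ∀ (l : List ℕ) (m : ℕ) (s : ℕ),
      (l.foldl (fun m r => m ||| orbitMask v μ k r) m).testBit s = true →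
      m.testBit s = true ∨ ∃ r ∈ l, (orbitMask v μ k r).testBit s = true := by
    intro l
    induction l with
    | nil => intro m s h; exact Or.inl h
    | cons a l ih =>
      intro m s h
      rw [List.foldl_cons] at h
      rcases ih _ s h with h | ⟨r, hr, h⟩
      · rw [Nat.testBit_lor, Bool.or_eq_true] at h
        rcases h with h | h
        · exact Or.inl h
        · exact Or.inr ⟨a, List.mem_cons_self, h⟩
      · exact Or.inr ⟨r, List.mem_cons_of_mem _ hr, h⟩
  have main : ∀ s : ℕ, s < v → s ≠ 0 → P (s : ZMod v) := by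
    intro s hs h0
    have h1 : (reps.foldl (fun m r => m ||| orbitMask v μ k r) 1).testBit s = true := by
      have h2 := congrArg (fun n => Nat.testBit n s) hcov
      simp only [Nat.testBit_mod_two_pow, hs, decide_true, Bool.true_and] at h2
      rw [h2, Nat.testBit_two_pow_sub_one]
      simpa using hs
    rcases hfold _ _ _ h1 with h | ⟨r, hr, h⟩
    · rw [Nat.testBit_one_eq_true_iff_self_eq_zero] at h
      exact absurd h h0
    · obtain ⟨h3, _, h5⟩ := hrep r hr
      exact of_orbitMask P hneg hmul k r h3 h5 s hs h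
  have h := gs (seqOf v A) (seqOf v B) (seqOf v C) (seqOf v D)
    (seqOf_pm v A) (seqOf_pm v B) (seqOf_pm v C) (seqOf_pm v D) (by
      intro s hs
      have hs0 : s.val ≠ 0 := by rwa [Ne, ZMod.val_eq_zero]
      have h2 := main s.val (ZMod.val_lt s) hs0
      rw [ZMod.natCast_zmod_val] at h2
      exact h2)
  have hcard : Fintype.card (Fin 4 × ZMod v) = 4 * v := by simp [ZMod.card]
  let e : Fin (4 * v) ≃ Fin 4 × ZMod v :=
    (Fintype.equivFinOfCardEq hcard).symm
  refine ⟨(gsM (seqOf v A) (seqOf v B) (seqOf v C) (seqOf v D)).submatrix e e, ?_, ?_⟩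
  · intro i j
    exact h.1 _ _
  · rw [Matrix.transpose_submatrix, Matrix.submatrix_mul_equiv, h.2]
    rw [Matrix.submatrix_smul, Pi.smul_apply, Pi.smul_apply, Matrix.submatrix_one_equiv, ZMod.card]

end Pool.Agent.H816R2.GS
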