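import Pool.Agent.H816R2.GSCheck

/-!
The product theorem of Agayan and Sarukhanyan: Hadamard matrices of orders `4 m` and `4 n` give one
of order `8 m n`.
-/

namespace Pool.Agent.H816R2.GS

open Finset Matrix

theorem rows_of_hadamard {N : ℕ} {H : Matrix (Fin N) (Fin N) ℤ}
    (h : H * Matrix.transpose H = (N : ℤ) • (1 : Matrix (Fin N) (Fin N) ℤ)) (i j : Fin N) :
    ∑ k, H i k * H j k = if i = j then (N : ℤ) else 0 := by
  have := congrFun (congrFun h i) j
  rw [Matrix.mul_apply, Matrix.smul_apply, Matrix.one_apply] at this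
  simpa [Matrix.transpose_apply] using this

theorem hasHadamard_mul {m n : ℕ} (hm : HasHadamard (4 * m)) (hn : HasHadamard (4 * n)) :
    HasHadamard (8 * (m * n)) := by
  obtain ⟨H, h1, h2⟩ := hm
  obtain ⟨N, n1, n2⟩ := hn
  let e1 : Fin 2 × Fin (2 * m) ≃ Fin (4 * m) := finProdFinEquiv.trans (finCongr (by ring))
  let e2 : Fin 2 × Fin (2 * n) ≃ Fin (4 * n) := finProdFinEquiv.trans (finCongr (by ring))
  let A : Fin 2 × Fin (2 * m) → Fin 2 × Fin (2 * m) → ℤ := fun p q => H (e1 p) (e1 q)
  let B : Fin 2 × Fin (2 * n) → Fin 2 × Fin (2 * n) → ℤ := fun p q => N (e2 p) (e2 q)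
  have hA : ∀ p q, A p q = 1 ∨ A p q = -1 := fun p q => h1 _ _
  have hB : ∀ p q, B p q = 1 ∨ B p q = -1 := fun p q => n1 _ _
  have rA : ∀ p p', ∑ q, A p q * A p' q = if p = p' then (4 * m : ℤ) else 0 := by
    intro p p'
    have := rows_of_hadamard h2 (e1 p) (e1 p')
    rw [← Equiv.sum_comp e1] at this
    simp only [EmbeddingLike.apply_eq_iff_eq] at this
    rw [this]
    push_cast
    rfl
  have rB : ∀ p p', ∑ q, B p q * B p' q = if p = p' then (4 * n : ℤ) else 0 := by
    intro p p'
    have := rows_of_hadamard n2 (e2 p) (e2 p')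
    rw [← Equiv.sum_comp e2] at this
    simp only [EmbeddingLike.apply_eq_iff_eq] at this
    rw [this]
    push_cast
    rfl
  let X : (Fin 2 × Fin (2 * m)) × Fin (2 * n) → Fin (2 * m) × (Fin 2 × Fin (2 * n)) → ℤ :=
    fun r c => if A r.1 (0, c.1) = A r.1 (1, c.1) then A r.1 (0, c.1) * B (0, r.2) c.2
      else A r.1 (0, c.1) * B (1, r.2) c.2
  have hX : ∀ r c, X r c = 1 ∨ X r c = -1 := by
    intro r c
    simp only [X]
    split_ifs
    · rcases hA r.1 (0, c.1) with h | h <;> rcases hB (0, r.2) c.2 with h' | h' <;> simp [h, h']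
    · rcases hA r.1 (0, c.1) with h | h <;> rcases hB (1, r.2) c.2 with h' | h' <;> simp [h, h']
  have hX2 : ∀ r c, 2 * X r c = (A r.1 (0, c.1) + A r.1 (1, c.1)) * B (0, r.2) c.2 +
      (A r.1 (0, c.1) - A r.1 (1, c.1)) * B (1, r.2) c.2 := by
    intro r c
    simp only [X]
    rcases hA r.1 (0, c.1) with h | h <;> rcases hA r.1 (1, c.1) with h' | h' <;>
      simp [h, h'] <;> ring
  have rX : ∀ r r', ∑ c, X r c * X r' c = if r = r' then (8 * (m * n) : ℤ) else 0 := by
    intro r r'
    have h4 : ∑ c, (2 * X r c) * (2 * X r' c) = if r = r' then (32 * (m * n) : ℤ) else 0 := by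
      rw [Fintype.sum_prod_type]
      have hin : ∀ x : Fin (2 * m), ∑ y : Fin 2 × Fin (2 * n), (2 * X r (x, y)) * (2 * X r' (x, y)) =
          (if r.2 = r'.2 then (4 * n : ℤ) else 0) *
            (2 * (A r.1 (0, x) * A r'.1 (0, x) + A r.1 (1, x) * A r'.1 (1, x))) := by
        intro x
        have e : ∀ y : Fin 2 × Fin (2 * n), (2 * X r (x, y)) * (2 * X r' (x, y)) =
            (A r.1 (0, x) + A r.1 (1, x)) * (A r'.1 (0, x) + A r'.1 (1, x)) *
              (B (0, r.2) y * B (0, r'.2) y) +
            (A r.1 (0, x) - A r.1 (1, x)) * (A r'.1 (0, x) - A r'.1 (1, x)) *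
              (B (1, r.2) y * B (1, r'.2) y) +
            (A r.1 (0, x) + A r.1 (1, x)) * (A r'.1 (0, x) - A r'.1 (1, x)) *
              (B (0, r.2) y * B (1, r'.2) y) +
            (A r.1 (0, x) - A r.1 (1, x)) * (A r'.1 (0, x) + A r'.1 (1, x)) *
              (B (1, r.2) y * B (0, r'.2) y) := by
          intro y
          rw [hX2, hX2]
          ring
        rw [Finset.sum_congr rfl fun y _ => e y]
        rw [Finset.sum_add_distrib, Finset.sum_add_distrib, Finset.sum_add_distrib,
          ← Finset.mul_sum, ← Finset.mul_sum, ← Finset.mul_sum, ← Finset.mul_sum,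
          rB, rB, rB, rB]
        have z1 : ((0 : Fin 2), r.2) ≠ ((1 : Fin 2), r'.2) := by simp
        have z2 : ((1 : Fin 2), r.2) ≠ ((0 : Fin 2), r'.2) := by simp
        rw [if_neg z1, if_neg z2]
        have z3 : (((0 : Fin 2), r.2) = ((0 : Fin 2), r'.2)) ↔ r.2 = r'.2 := by simp
        have z4 : (((1 : Fin 2), r.2) = ((1 : Fin 2), r'.2)) ↔ r.2 = r'.2 := by simp
        simp only [z3, z4]
        split_ifs <;> ring
      rw [Finset.sum_congr rfl fun x _ => hin x, ← Finset.mul_sum, ← Finset.mul_sum]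
      have hsum : ∑ x : Fin (2 * m), (A r.1 (0, x) * A r'.1 (0, x) + A r.1 (1, x) * A r'.1 (1, x)) =
          if r.1 = r'.1 then (4 * m : ℤ) else 0 := by
        rw [← rA r.1 r'.1, Fintype.sum_prod_type, Fin.sum_univ_two, Finset.sum_add_distrib]
      rw [hsum]
      by_cases ha : r.1 = r'.1 <;> by_cases hb : r.2 = r'.2
      · have : r = r' := Prod.ext ha hb
        simp only [this, if_true]
        ring
      · have : r ≠ r' := fun h => hb (by rw [h])
        simp [hb, this]
      · have : r ≠ r' := fun h => ha (by rw [h])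
        simp [ha, this]
      · have : r ≠ r' := fun h => ha (by rw [h])
        simp [ha, this]
    have h5 : ∑ c, (2 * X r c) * (2 * X r' c) = 4 * ∑ c, X r c * X r' c := by
      rw [Finset.mul_sum]
      refine Finset.sum_congr rfl fun c _ => ?_
      ring
    rw [h5] at h4
    split_ifs at h4 ⊢ <;> linarith
  have cR : Fintype.card ((Fin 2 × Fin (2 * m)) × Fin (2 * n)) = 8 * (m * n) := by
    simp only [Fintype.card_prod, Fintype.card_fin]; ring
  have cC : Fintype.card (Fin (2 * m) × (Fin 2 × Fin (2 * n))) = 8 * (m * n) := by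
    simp only [Fintype.card_prod, Fintype.card_fin]; ring
  let eR := (Fintype.equivFinOfCardEq cR).symm
  let eC := (Fintype.equivFinOfCardEq cC).symm
  refine ⟨Matrix.of fun i j => X (eR i) (eC j), fun i j => hX _ _, ?_⟩
  ext i j
  rw [Matrix.mul_apply, Matrix.smul_apply, Matrix.one_apply]
  have := rX (eR i) (eR j)
  rw [← Equiv.sum_comp eC] at this
  simp only [EmbeddingLike.apply_eq_iff_eq] at this
  simp only [Matrix.transpose_apply, Matrix.of_apply, smul_eq_mul]
  rw [this]
  split_ifs <;> push_cast <;> ring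

end Pool.Agent.H816R2.GS
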