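import Pool.Agent.H816R2.KM2N

/-!
A Steiner system `S(2,6,226)`: 9 copies of an abelian group of order 25 and 1 fixed points.
-/

namespace Pool.Agent.H816R2.KM2

def full6_226 : List (List ℕ) :=
  [[0, 1, 35, 41, 87, 94],
   [0, 2, 101, 126, 155, 172],
   [0, 5, 115, 190, 203, 207],
   [0, 6, 28, 33, 193, 218],
   [0, 8, 91, 92, 144, 194],
   [0, 9, 64, 70, 137, 147],
   [0, 10, 80, 116, 124, 205],
   [0, 11, 58, 83, 152, 164],
   [0, 12, 31, 131, 178, 189],
   [0, 13, 84, 109, 180, 183],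
   [0, 25, 60, 65, 162, 168],
   [0, 26, 120, 130, 173, 179],
   [0, 29, 105, 145, 157, 176],
   [0, 30, 45, 57, 73, 100],
   [0, 32, 63, 119, 196, 214],
   [0, 34, 62, 123, 128, 188],
   [0, 36, 44, 150, 206, 224],
   [0, 37, 69, 132, 171, 213],
   [0, 38, 42, 125, 160, 165],
   [0, 43, 61, 148, 159, 217],
   [0, 46, 68, 107, 127, 192],
   [0, 48, 67, 111, 184, 216],
   [0, 50, 108, 122, 209, 221],
   [0, 51, 98, 117, 141, 215],
   [0, 52, 81, 146, 151, 199],
   [0, 53, 99, 134, 154, 181],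
   [0, 54, 82, 113, 139, 210],
   [0, 56, 74, 175, 211, 219],
   [0, 59, 85, 140, 163, 201],
   [0, 71, 90, 135, 167, 204],
   [0, 75, 102, 103, 161, 169],
   [0, 76, 79, 138, 142, 200],
   [0, 77, 112, 156, 182, 208],
   [0, 78, 118, 174, 198, 222],
   [25, 32, 87, 95, 141, 216],
   [25, 36, 103, 113, 191, 195],
   [25, 37, 67, 70, 156, 181],
   [25, 38, 126, 137, 159, 209],
   [25, 39, 82, 182, 202, 212],
   [25, 50, 85, 90, 132, 148],
   [25, 51, 81, 163, 192, 224],
   [25, 54, 99, 167, 188, 206],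
   [25, 59, 71, 83, 97, 175],
   [25, 61, 89, 110, 133, 176],
   [25, 64, 66, 75, 109, 121],
   [25, 69, 91, 115, 147, 179],
   [25, 76, 108, 127, 160, 211],
   [25, 79, 122, 128, 165, 219],
   [25, 86, 116, 151, 193, 222],
   [25, 88, 92, 101, 104, 150],
   [25, 94, 114, 154, 187, 208],
   [25, 100, 136, 144, 155, 170],
   [25, 107, 123, 135, 140, 200],
   [50, 56, 102, 109, 165, 166],
   [50, 59, 92, 167, 177, 182],
   [50, 60, 130, 155, 203, 212],
   [50, 82, 98, 110, 115, 200],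
   [50, 86, 94, 125, 180, 195],
   [50, 100, 134, 146, 214, 216],
   [50, 113, 117, 126, 129, 175],
   [50, 150, 187, 193, 210, 215],
   [75, 85, 168, 172, 202, 213],
   [75, 125, 151, 154, 184, 196],
   [100, 127, 128, 150, 186, 194],
   [100, 158, 172, 181, 199, 200],
   [125, 132, 193, 194, 203, 209]]

def short6_226 : List (List ℕ × List ℕ) :=
  [([0, 1, 2, 3, 4], [0, 7, 14, 16, 23, 225]),
   ([0, 5, 10, 15, 20], [25, 26, 27, 28, 29, 225]),
   ([0, 5, 10, 15, 20], [50, 51, 52, 53, 54, 225]),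
   ([0, 1, 2, 3, 4], [75, 81, 87, 93, 99, 225]),
   ([0, 1, 2, 3, 4], [100, 106, 112, 118, 124, 225]),
   ([0, 1, 2, 3, 4], [125, 131, 137, 143, 149, 225]),
   ([0, 1, 2, 3, 4], [150, 157, 164, 166, 173, 225]),
   ([0, 1, 2, 3, 4], [175, 182, 189, 191, 198, 225]),
   ([0, 5, 10, 15, 20], [200, 201, 202, 203, 204, 225])]

theorem ex6_226 : ∃ 𝓑 : Set (Finset (Fin 226)), IsS2 (Fin 226) 6 𝓑 :=
  of_coded (codedP 5 (codedZ 5)) 6 9 1 226 rfl full6_226 short6_226
    (by decide +kernel) (by decide +kernel) (by decide +kernel) (by decide +kernel)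
    (by decide +kernel) (by decide +kernel)

end Pool.Agent.H816R2.KM2
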