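import Mathlib

/-!
Steiner systems `S(2,k,·)` invariant under an abelian group acting semiregularly off its fixed
points: general lemmas for a computation with bit masks.
-/

namespace Pool.Agent.H816R2.KM2

open Finset

/-- a Steiner system `S(2,k,·)` on the point set `X` -/
def IsS2 (X : Type) [DecidableEq X] (k : ℕ) (𝓑 : Set (Finset X)) : Prop :=
  (∀ B ∈ 𝓑, B.card = k) ∧ ∀ a b : X, a ≠ b → ∃! B, B ∈ 𝓑 ∧ a ∈ B ∧ b ∈ B

theorem pair_main {X : Type} [Fintype X] [DecidableEq X] (k : ℕ)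
    (𝓑 : Finset (Finset X)) (hk : ∀ B ∈ 𝓑, B.card = k)
    (hcov : ∀ x y : X, x ≠ y → ∃ B ∈ 𝓑, x ∈ B ∧ y ∈ B)
    (hcount : 𝓑.card * (k * k - k) ≤ Fintype.card X * Fintype.card X - Fintype.card X) :
    ∃ 𝓑' : Set (Finset X), IsS2 X k 𝓑' := by
  classical
  refine ⟨{B | B ∈ 𝓑}, fun B hB => hk B hB, ?_⟩
  intro a b hab
  obtain ⟨B, hB, ha, hb⟩ := hcov a b hab
  refine ⟨B, ⟨hB, ha, hb⟩, ?_⟩
  rintro D ⟨hD, ha', hb'⟩
  by_contra hne
  have hoff : ∀ E ∈ 𝓑, E.offDiag.card = k * k - k := by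
    intro E hE
    rw [Finset.offDiag_card, hk E hE]
  have hsub : (Finset.univ : Finset X).offDiag ⊆
      ((𝓑.erase D).biUnion Finset.offDiag) ∪ (D.offDiag.erase (a, b)) := by
    intro p hp
    rw [Finset.mem_offDiag] at hp
    rw [Finset.mem_union, Finset.mem_biUnion]
    by_cases hpd : p = (a, b)
    · left
      refine ⟨B, Finset.mem_erase.2 ⟨fun h => hne h.symm, hB⟩, ?_⟩
      rw [hpd, Finset.mem_offDiag]
      exact ⟨ha, hb, hab⟩
    · obtain ⟨E, hE, hE1, hE2⟩ := hcov p.1 p.2 hp.2.2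
      by_cases hED : E = D
      · right
        rw [Finset.mem_erase, Finset.mem_offDiag, ← hED]
        exact ⟨hpd, hE1, hE2, hp.2.2⟩
      · left
        exact ⟨E, Finset.mem_erase.2 ⟨hED, hE⟩, Finset.mem_offDiag.2 ⟨hE1, hE2, hp.2.2⟩⟩
  have hc1 := Finset.card_le_card hsub
  have hc2 := Finset.card_union_le ((𝓑.erase D).biUnion Finset.offDiag) (D.offDiag.erase (a, b))
  have hc3 : ((𝓑.erase D).biUnion Finset.offDiag).card ≤ (𝓑.erase D).card * (k * k - k) := by
    refine Finset.card_biUnion_le_card_mul _ _ _ ?_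
    intro E hE
    exact (hoff E (Finset.mem_of_mem_erase hE)).le
  have hmem : (a, b) ∈ D.offDiag := Finset.mem_offDiag.2 ⟨ha', hb', hab⟩
  have hc4 : (D.offDiag.erase (a, b)).card = (k * k - k) - 1 := by
    rw [Finset.card_erase_of_mem hmem, hoff D hD]
  have hc5 : (𝓑.erase D).card = 𝓑.card - 1 := Finset.card_erase_of_mem hD
  have hc6 : 0 < 𝓑.card := Finset.card_pos.2 ⟨D, hD⟩
  have hc7 : 0 < k * k - k := by
    rw [← hoff D hD]
    exact Finset.card_pos.2 ⟨_, hmem⟩
  have hc8 : (Finset.univ : Finset X).offDiag.card =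
      Fintype.card X * Fintype.card X - Fintype.card X := by
    rw [Finset.offDiag_card, Finset.card_univ]
  have hc9 : (𝓑.card - 1) * (k * k - k) + ((k * k - k) - 1) < 𝓑.card * (k * k - k) := by
    obtain ⟨m, hm⟩ : ∃ m, 𝓑.card = m + 1 := ⟨𝓑.card - 1, by omega⟩
    rw [hm, Nat.add_sub_cancel, Nat.succ_mul]
    omega
  rw [hc5] at hc3
  omega

/-! ### Bit masks -/

def addBits : List ℕ → ℕ → ℕ
  | [], acc => acc
  | d :: l, acc => addBits l (acc ||| (1 <<< d))

theorem testBit_or_shift (acc a d : ℕ) : Nat.testBit (acc ||| (1 <<< a)) d = true ↔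
    (Nat.testBit acc d = true ∨ d = a) := by
  rw [Nat.testBit_or, Bool.or_eq_true, Nat.one_shiftLeft, Nat.testBit_two_pow]
  constructor
  · rintro (h | h)
    · exact Or.inl h
    · exact Or.inr (by simpa using (of_decide_eq_true h).symm)
  · rintro (h | h)
    · exact Or.inl h
    · exact Or.inr (by simp [h])

theorem addBits_spec (l : List ℕ) : ∀ (acc d : ℕ), Nat.testBit (addBits l acc) d = true ↔
    (Nat.testBit acc d = true ∨ d ∈ l) := by
  induction l with
  | nil => intro acc d; simp [addBits]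
  | cons a l ih =>
    intro acc d
    rw [addBits, ih, testBit_or_shift, List.mem_cons]
    tauto

/-- points covered together with the representative `r` by the translates of `B` through `r`;
`rp` gives the representative of a point and `bk p` moves the block so that `p` goes to its
representative -/
def covB (rp : ℕ → ℕ) (bk : ℕ → List ℕ → List ℕ) (r : ℕ) (B : List ℕ) : List ℕ → ℕ → ℕ
  | [], acc => acc
  | p :: l, acc => covB rp bk r B l (if rp p == r then addBits (bk p B) acc else acc)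

def covAll (rp : ℕ → ℕ) (bk : ℕ → List ℕ → List ℕ) (r : ℕ) : List (List ℕ) → ℕ → ℕ
  | [], acc => acc
  | B :: l, acc => covAll rp bk r l (covB rp bk r B B acc)

theorem covB_spec (rp : ℕ → ℕ) (bk : ℕ → List ℕ → List ℕ) (r : ℕ) (B : List ℕ) :
    ∀ (l : List ℕ) (acc d : ℕ), Nat.testBit (covB rp bk r B l acc) d = true →
      (Nat.testBit acc d = true ∨ ∃ p ∈ l, rp p = r ∧ d ∈ bk p B) := by
  intro l
  induction l with
  | nil => intro acc d h; exact Or.inl h
  | cons p l ih =>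
    intro acc d h
    rw [covB] at h
    rcases ih _ _ h with h1 | ⟨q, hq, h2, h3⟩
    · by_cases hp : (rp p == r) = true
      · rw [if_pos hp] at h1
        rcases (addBits_spec _ _ _).1 h1 with h4 | h4
        · exact Or.inl h4
        · exact Or.inr ⟨p, List.mem_cons_self, by simpa using hp, h4⟩
      · rw [if_neg hp] at h1
        exact Or.inl h1
    · exact Or.inr ⟨q, List.mem_cons_of_mem _ hq, h2, h3⟩

theorem covAll_spec (rp : ℕ → ℕ) (bk : ℕ → List ℕ → List ℕ) (r : ℕ) :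
    ∀ (l : List (List ℕ)) (acc d : ℕ), Nat.testBit (covAll rp bk r l acc) d = true →
      (Nat.testBit acc d = true ∨ ∃ B ∈ l, ∃ p ∈ B, rp p = r ∧ d ∈ bk p B) := by
  intro l
  induction l with
  | nil => intro acc d h; exact Or.inl h
  | cons B l ih =>
    intro acc d h
    rw [covAll] at h
    rcases ih _ _ h with h1 | ⟨C, hC, h2⟩
    · rcases covB_spec _ _ _ _ _ _ _ h1 with h3 | h3
      · exact Or.inl h3
      · exact Or.inr ⟨B, List.mem_cons_self, h3⟩
    · exact Or.inr ⟨C, List.mem_cons_of_mem _ hC, h2⟩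

/-- checks for a base block: `k` distinct codes less than `v` -/
def okB (k v : ℕ) (B : List ℕ) : Bool :=
  (B.length == k) && decide B.Nodup && B.all fun x => decide (x < v)

theorem okB_spec {k v : ℕ} {B : List ℕ} (h : okB k v B = true) :
    B.length = k ∧ B.Nodup ∧ ∀ x ∈ B, x < v := by
  unfold okB at h
  simp only [Bool.and_eq_true, beq_iff_eq, decide_eq_true_eq, List.all_eq_true] at h
  exact ⟨h.1.1, h.1.2, h.2⟩

/-- every translate of a short block is one of the listed translates -/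
def okShort (tr : ℕ → ℕ → ℕ) (nn : ℕ) (short : List (List ℕ × List ℕ)) : Bool :=
  short.all fun s => (List.range nn).all fun b => s.1.any fun a =>
    (s.2.map (tr b)).all fun y => (s.2.map (tr a)).contains y

section Codes

variable {X N : Type} [Fintype X] [DecidableEq X] [AddCommGroup N]

def st (el : ℕ → X) (D : List ℕ) : Finset X := (D.map el).toFinset

omit [Fintype X] in
theorem mem_st {el : ℕ → X} {D : List ℕ} {g : X} : g ∈ st el D ↔ ∃ x ∈ D, el x = g := by
  simp [st]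

theorem of_codes (k v : ℕ) (t : N → X → X) (ht0 : ∀ x, t 0 x = x)
    (htadd : ∀ a b x, t (a + b) x = t a (t b x))
    (hv : Fintype.card X = v) (el : ℕ → X)
    (hel : ∀ g : X, ∃ x < v, el x = g)
    (hinj : ∀ x < v, ∀ y < v, el x = el y → x = y)
    (nn : ℕ) (en : ℕ → N) (hen : ∀ g : N, ∃ a < nn, en a = g)
    (tr : ℕ → ℕ → ℕ) (htr : ∀ a < nn, ∀ p < v, tr a p < v ∧ el (tr a p) = t (en a) (el p))
    (rp : ℕ → ℕ) (nf : ℕ → ℕ) (u : ℕ)
    (hnf : ∀ p < u, nf p < nn ∧ tr (nf p) p = rp p)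
    (full : List (List ℕ)) (short : List (List ℕ × List ℕ))
    (h1 : (full.all (okB k v)) = true)
    (h2 : (short.all fun s => okB k v s.2 && s.1.all fun a => decide (a < nn)) = true)
    (h3 : okShort tr nn short = true)
    (h4 : (nn * full.length + (short.map fun s => s.1.length).sum) * (k * k - k) ≤ v * v - v)
    (reps : List ℕ) (hreps : ∀ p < u, rp p ∈ reps)
    (h5 : ∀ p < v, ¬ p < u → ∀ r ∈ reps, rp p ≠ r)
    (h6 : (reps.all fun r => covAll rp (fun p B => B.map (tr (nf p))) r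
      (full ++ short.map Prod.snd) 0 == 2 ^ v - 1) = true)
    (hfix : ∀ x < v, ∀ y < v, ¬ x < u → ¬ y < u → x ≠ y → ∃ s ∈ short, x ∈ s.2 ∧ y ∈ s.2) :
    ∃ 𝓑' : Set (Finset X), IsS2 X k 𝓑' := by
  classical
  -- the translation action
  have htinj : ∀ a : N, Function.Injective (t a) := by
    intro a x y hxy
    have : t (-a) (t a x) = t (-a) (t a y) := by rw [hxy]
    rwa [← htadd, ← htadd, neg_add_cancel, ht0, ht0] at this
  let 𝓛 : List (List ℕ) := (full.flatMap fun B => (List.range nn).map fun a => B.map (tr a)) ++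
    short.flatMap fun s => s.1.map fun a => s.2.map (tr a)
  have hmemL : ∀ E, E ∈ 𝓛 ↔ (∃ B ∈ full, ∃ a < nn, E = B.map (tr a)) ∨
      (∃ s ∈ short, ∃ a ∈ s.1, E = s.2.map (tr a)) := by
    intro E
    simp only [𝓛, List.mem_append, List.mem_flatMap, List.mem_map, List.mem_range]
    constructor
    · rintro (⟨B, hB, a, ha, rfl⟩ | ⟨s, hs, a, ha, rfl⟩)
      · exact Or.inl ⟨B, hB, a, ha, rfl⟩
      · exact Or.inr ⟨s, hs, a, ha, rfl⟩
    · rintro (⟨B, hB, a, ha, rfl⟩ | ⟨s, hs, a, ha, rfl⟩)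
      · exact Or.inl ⟨B, hB, a, ha, rfl⟩
      · exact Or.inr ⟨s, hs, a, ha, rfl⟩
  have hlen : 𝓛.length = nn * full.length + (short.map fun s => s.1.length).sum := by
    simp only [𝓛, List.length_append, List.length_flatMap, List.length_map, List.length_range,
      List.map_const', List.sum_replicate, smul_eq_mul]
    ring
  rw [List.all_eq_true] at h1
  have h2' : ∀ s ∈ short, (s.2.length = k ∧ s.2.Nodup ∧ ∀ x ∈ s.2, x < v) ∧ ∀ a ∈ s.1, a < nn := by
    intro s hs
    rw [List.all_eq_true] at h2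
    have h := h2 s hs
    rw [Bool.and_eq_true, List.all_eq_true] at h
    exact ⟨okB_spec h.1, fun a ha => of_decide_eq_true (h.2 a ha)⟩
  -- point sets
  have hst : ∀ B : List ℕ, (∀ x ∈ B, x < v) → ∀ a < nn,
      st el (B.map (tr a)) = (st el B).image (t (en a)) := by
    intro B hB a ha
    ext g
    simp only [mem_st, Finset.mem_image, List.mem_map]
    constructor
    · rintro ⟨x, ⟨y, hy, rfl⟩, rfl⟩
      exact ⟨el y, ⟨y, hy, rfl⟩, ((htr a ha y (hB y hy)).2).symm⟩
    · rintro ⟨w, ⟨y, hy, rfl⟩, rfl⟩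
      exact ⟨_, ⟨y, hy, rfl⟩, (htr a ha y (hB y hy)).2⟩
  have hcardst : ∀ B : List ℕ, B.length = k → B.Nodup → (∀ x ∈ B, x < v) →
      (st el B).card = k := by
    intro B hl hn hB
    unfold st
    rw [List.toFinset_card_of_nodup, List.length_map, hl]
    exact List.Nodup.map_on (fun x hx y hy hxy => hinj x (hB x hx) y (hB y hy) hxy) hn
  let 𝓑 : Finset (Finset X) := (𝓛.map (st el)).toFinset
  have hmem : ∀ E, E ∈ 𝓑 ↔ (∃ B ∈ full, ∃ a < nn, E = (st el B).image (t (en a))) ∨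
      (∃ s ∈ short, ∃ a ∈ s.1, E = (st el s.2).image (t (en a))) := by
    intro E
    rw [List.mem_toFinset, List.mem_map]
    constructor
    · rintro ⟨L, hL, rfl⟩
      rcases (hmemL L).1 hL with ⟨B, hB, a, ha, rfl⟩ | ⟨s, hs, a, ha, rfl⟩
      · exact Or.inl ⟨B, hB, a, ha, hst B (okB_spec (h1 B hB)).2.2 a ha⟩
      · exact Or.inr ⟨s, hs, a, ha, hst s.2 (h2' s hs).1.2.2 a ((h2' s hs).2 a ha)⟩
    · rintro (⟨B, hB, a, ha, rfl⟩ | ⟨s, hs, a, ha, rfl⟩)
      · exact ⟨_, (hmemL _).2 (Or.inl ⟨B, hB, a, ha, rfl⟩),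
          hst B (okB_spec (h1 B hB)).2.2 a ha⟩
      · exact ⟨_, (hmemL _).2 (Or.inr ⟨s, hs, a, ha, rfl⟩),
          hst s.2 (h2' s hs).1.2.2 a ((h2' s hs).2 a ha)⟩
  -- every translate of a short block is in the family
  have hshort : ∀ s ∈ short, ∀ b < nn, (st el s.2).image (t (en b)) ∈ 𝓑 := by
    intro s hs b hb
    unfold okShort at h3
    simp only [List.all_eq_true, List.any_eq_true, List.contains_iff_mem, List.mem_range] at h3
    obtain ⟨a, ha, hall⟩ := h3 s hs b hb
    have ha' := (h2' s hs).2 a ha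
    obtain ⟨⟨hl, hn, hlt⟩, _⟩ := h2' s hs
    have heq : (st el s.2).image (t (en b)) = (st el s.2).image (t (en a)) := by
      apply Finset.eq_of_subset_of_card_le
      · rw [← hst s.2 hlt b hb, ← hst s.2 hlt a ha']
        intro g hg
        obtain ⟨y, hy, rfl⟩ := mem_st.1 hg
        exact mem_st.2 ⟨y, hall y hy, rfl⟩
      · rw [Finset.card_image_of_injective _ (htinj _), Finset.card_image_of_injective _ (htinj _)]
    rw [heq]
    exact (hmem _).2 (Or.inr ⟨s, hs, a, ha, rfl⟩)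
  have hbase : ∀ B ∈ full ++ short.map Prod.snd, (∀ x ∈ B, x < v) ∧
      ∀ g : N, (st el B).image (t g) ∈ 𝓑 := by
    intro B hB
    rcases List.mem_append.1 hB with hB | hB
    · refine ⟨(okB_spec (h1 B hB)).2.2, fun g => ?_⟩
      obtain ⟨a, ha, rfl⟩ := hen g
      exact (hmem _).2 (Or.inl ⟨B, hB, a, ha, rfl⟩)
    · obtain ⟨s, hs, rfl⟩ := List.mem_map.1 hB
      refine ⟨(h2' s hs).1.2.2, fun g => ?_⟩
      obtain ⟨a, ha, rfl⟩ := hen g
      exact hshort s hs a ha
  have hclosed : ∀ E ∈ 𝓑, ∀ g : N, E.image (t g) ∈ 𝓑 := by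
    intro E hE g
    rcases (hmem E).1 hE with ⟨B, hB, a, ha, rfl⟩ | ⟨s, hs, a, ha, rfl⟩
    · rw [Finset.image_image]
      have : (t g ∘ t (en a)) = t (g + en a) := by
        funext x; exact (htadd g (en a) x).symm
      rw [this]
      exact (hbase B (List.mem_append_left _ hB)).2 _
    · rw [Finset.image_image]
      have : (t g ∘ t (en a)) = t (g + en a) := by
        funext x; exact (htadd g (en a) x).symm
      rw [this]
      exact (hbase s.2 (List.mem_append_right _ (List.mem_map.2 ⟨s, hs, rfl⟩))).2 _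
  -- coverage of pairs containing a representative
  have hrep : ∀ r ∈ reps, ∀ y : X, ∃ E ∈ 𝓑, el r ∈ E ∧ y ∈ E := by
    intro r hr y
    obtain ⟨c, hc, rfl⟩ := hel y
    rw [List.all_eq_true] at h6
    have h := h6 r hr
    rw [beq_iff_eq] at h
    have htb : Nat.testBit (covAll rp (fun p B => B.map (tr (nf p))) r
        (full ++ short.map Prod.snd) 0) c = true := by
      rw [h, Nat.testBit_two_pow_sub_one]
      exact decide_eq_true hc
    rcases covAll_spec _ _ _ _ _ _ htb with h7 | ⟨B, hB, p, hp, hpr, hcB⟩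
    · simp at h7
    · obtain ⟨hlt, hall⟩ := hbase B hB
      have hpu : p < u := by
        by_contra hpu
        exact h5 p (hlt p hp) hpu r hr hpr
      obtain ⟨hn1, hn2⟩ := hnf p hpu
      refine ⟨(st el B).image (t (en (nf p))), hall _, ?_, ?_⟩
      · refine Finset.mem_image.2 ⟨el p, mem_st.2 ⟨p, hp, rfl⟩, ?_⟩
        rw [← (htr (nf p) hn1 p (hlt p hp)).2, hn2, hpr]
      · obtain ⟨z, hz, rfl⟩ := List.mem_map.1 hcB
        refine Finset.mem_image.2 ⟨el z, mem_st.2 ⟨z, hz, rfl⟩, ?_⟩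
        exact ((htr (nf p) hn1 z (hlt z hz)).2).symm
  have hcov1 : ∀ p < v, p < u → ∀ y : X, ∃ E ∈ 𝓑, el p ∈ E ∧ y ∈ E := by
    intro p hp hpu y
    obtain ⟨hn1, hn2⟩ := hnf p hpu
    obtain ⟨E, hE, h7, h8⟩ := hrep (rp p) (hreps p hpu) (t (en (nf p)) y)
    refine ⟨E.image (t (-(en (nf p)))), hclosed E hE _, ?_, ?_⟩
    · refine Finset.mem_image.2 ⟨_, h7, ?_⟩
      rw [← hn2, (htr (nf p) hn1 p hp).2, ← htadd, neg_add_cancel, ht0]
    · refine Finset.mem_image.2 ⟨_, h8, ?_⟩
      rw [← htadd, neg_add_cancel, ht0]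
  refine pair_main k 𝓑 ?_ ?_ ?_
  · intro E hE
    rcases (hmem E).1 hE with ⟨B, hB, a, ha, rfl⟩ | ⟨s, hs, a, ha, rfl⟩
    · obtain ⟨hl, hn, hlt⟩ := okB_spec (h1 B hB)
      rw [Finset.card_image_of_injective _ (htinj _)]
      exact hcardst B hl hn hlt
    · obtain ⟨⟨hl, hn, hlt⟩, _⟩ := h2' s hs
      rw [Finset.card_image_of_injective _ (htinj _)]
      exact hcardst s.2 hl hn hlt
  · intro x y hxy
    obtain ⟨p, hp, rfl⟩ := hel x
    obtain ⟨q, hq, rfl⟩ := hel y
    by_cases hpu : p < u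
    · exact hcov1 p hp hpu (el q)
    · by_cases hqu : q < u
      · obtain ⟨E, hE, h7, h8⟩ := hcov1 q hq hqu (el p)
        exact ⟨E, hE, h8, h7⟩
      · have hpq : p ≠ q := fun h => hxy (by rw [h])
        obtain ⟨s, hs, hps, hqs⟩ := hfix p hp q hq hpu hqu hpq
        refine ⟨(st el s.2).image (t 0), ?_, ?_, ?_⟩
        · exact (hbase s.2 (List.mem_append_right _ (List.mem_map.2 ⟨s, hs, rfl⟩))).2 _
        · exact Finset.mem_image.2 ⟨el p, mem_st.2 ⟨p, hps, rfl⟩, ht0 _⟩
        · exact Finset.mem_image.2 ⟨el q, mem_st.2 ⟨q, hqs, rfl⟩, ht0 _⟩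
  · rw [hv]
    refine le_trans (Nat.mul_le_mul_right _ ?_) h4
    refine le_trans (List.toFinset_card_le _) ?_
    rw [List.length_map, hlen]

end Codes

/-! ### Several copies of the group and some fixed points -/

section Copies

variable {N : Type} [AddCommGroup N] [Fintype N] [DecidableEq N]

/-- translation action on copies of `N` and fixed points -/
def act (c f : ℕ) (g : N) : (Fin c × N) ⊕ Fin f → (Fin c × N) ⊕ Fin f
  | Sum.inl p => Sum.inl (p.1, p.2 + g)
  | Sum.inr j => Sum.inr j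

/-- the same on codes -/
def trc (nn u : ℕ) (addc : ℕ → ℕ → ℕ) (a p : ℕ) : ℕ :=
  if p < u then p / nn * nn + addc (p % nn) a else p

/-- representative of the orbit of a code -/
def rpc (nn u : ℕ) (p : ℕ) : ℕ := if p < u then p / nn * nn else p

theorem of_copies (k c f : ℕ) (nn : ℕ) (hnn : 0 < nn) (hN : Fintype.card N = nn) (en : ℕ → N)
    (hen : ∀ g : N, ∃ a < nn, en a = g) (heni : ∀ a < nn, ∀ b < nn, en a = en b → a = b)
    (hen0 : en 0 = 0)
    (addc : ℕ → ℕ → ℕ) (hadd : ∀ a < nn, ∀ b < nn, addc a b < nn ∧ en (addc a b) = en a + en b)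
    (negc : ℕ → ℕ) (hneg : ∀ a < nn, negc a < nn ∧ en (negc a) = - en a)
    (full : List (List ℕ)) (short : List (List ℕ × List ℕ))
    (h1 : (full.all (okB k (c * nn + f))) = true)
    (h2 : (short.all fun s => okB k (c * nn + f) s.2 && s.1.all fun a => decide (a < nn)) = true)
    (h3 : okShort (trc nn (c * nn) addc) nn short = true)
    (h4 : (nn * full.length + (short.map fun s => s.1.length).sum) * (k * k - k) ≤
      (c * nn + f) * (c * nn + f) - (c * nn + f))
    (h6 : (((List.range c).map fun i => i * nn).all fun r => covAll (rpc nn (c * nn))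
      (fun p B => B.map (trc nn (c * nn) addc (negc (p % nn)))) r
      (full ++ short.map Prod.snd) 0 == 2 ^ (c * nn + f) - 1) = true)
    (hfix : ∀ x < f, ∀ y < f, x ≠ y → ∃ s ∈ short, c * nn + x ∈ s.2 ∧ c * nn + y ∈ s.2) :
    ∃ 𝓑' : Set (Finset ((Fin c × N) ⊕ Fin f)), IsS2 ((Fin c × N) ⊕ Fin f) k 𝓑' := by
  classical
  by_cases hcf : c * nn + f = 0
  · -- no points at all
    have hX : ∀ x : (Fin c × N) ⊕ Fin f, False := by
      intro x
      have hc : Fintype.card ((Fin c × N) ⊕ Fin f) = 0 := by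
        rw [Fintype.card_sum, Fintype.card_prod, Fintype.card_fin, Fintype.card_fin, hN, hcf]
      exact (Fintype.card_eq_zero_iff.1 hc).false x
    exact ⟨∅, fun B hB => absurd hB (Set.notMem_empty B), fun a => (hX a).elim⟩
  -- decoding
  have hpos : 0 < c ∨ 0 < f := by
    by_contra h
    push Not at h
    obtain ⟨h7, h8⟩ := h
    have h9 : c = 0 := by omega
    have h10 : f = 0 := by omega
    apply hcf
    rw [h9, h10]; simp
  have hdiv : ∀ p < c * nn, p / nn < c := fun p hp => Nat.div_lt_of_lt_mul (by rwa [mul_comm] at hp)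
  have hel' : ∃ el : ℕ → (Fin c × N) ⊕ Fin f,
      (∀ p (hp : p < c * nn), el p = Sum.inl (⟨p / nn, hdiv p hp⟩, en (p % nn))) ∧
      (∀ p, ¬ p < c * nn → ∀ hp : p - c * nn < f, el p = Sum.inr ⟨p - c * nn, hp⟩) := by
    have hne : Nonempty ((Fin c × N) ⊕ Fin f) := by
      rcases hpos with h | h
      · exact ⟨Sum.inl (⟨0, h⟩, 0)⟩
      · exact ⟨Sum.inr ⟨0, h⟩⟩
    obtain ⟨d⟩ := hne
    refine ⟨fun p => if hp : p < c * nn then Sum.inl (⟨p / nn, hdiv p hp⟩, en (p % nn)) else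
      if hp' : p - c * nn < f then Sum.inr ⟨p - c * nn, hp'⟩ else d, ?_, ?_⟩
    · intro p hp
      simp only [hp, dif_pos]
    · intro p hp hp'
      simp only [hp, hp', dif_pos, dif_neg, not_false_eq_true]
  obtain ⟨el, he1, he2⟩ := hel'
  have hmodlt : ∀ p, p % nn < nn := fun p => Nat.mod_lt _ hnn
  have hcode : ∀ i < c, ∀ x < nn, i * nn + x < c * nn ∧ (i * nn + x) / nn = i ∧
      (i * nn + x) % nn = x := by
    intro i hi x hx
    refine ⟨?_, ?_, ?_⟩
    · calc i * nn + x < i * nn + nn := by omega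
        _ = (i + 1) * nn := by ring
        _ ≤ c * nn := Nat.mul_le_mul_right _ hi
    · rw [Nat.add_comm, Nat.add_mul_div_right _ _ hnn, Nat.div_eq_of_lt hx, Nat.zero_add]
    · rw [Nat.add_comm, Nat.add_mul_mod_self_right, Nat.mod_eq_of_lt hx]
  refine of_codes k (c * nn + f) (act c f) ?_ ?_ ?_ el ?_ ?_ nn en hen
    (trc nn (c * nn) addc) ?_ (rpc nn (c * nn)) (fun p => negc (p % nn)) (c * nn) ?_ full short
    h1 h2 h3 h4 ((List.range c).map fun i => i * nn) ?_ ?_ h6 ?_
  · rintro (⟨i, x⟩ | j)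
    · simp [act]
    · rfl
  · rintro a b (⟨i, x⟩ | j)
    · simp only [act]
      rw [add_comm a b, add_assoc]
    · rfl
  · rw [Fintype.card_sum, Fintype.card_prod, Fintype.card_fin, Fintype.card_fin, hN]
  · rintro (⟨i, x⟩ | j)
    · obtain ⟨a, ha, rfl⟩ := hen x
      obtain ⟨h7, h8, h9⟩ := hcode i.1 i.2 a ha
      refine ⟨i.1 * nn + a, by omega, ?_⟩
      rw [he1 _ h7]
      simp only [h8, h9]
    · refine ⟨c * nn + j.1, by omega, ?_⟩
      have hp' : c * nn + j.1 - c * nn < f := by omega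
      rw [he2 _ (by omega) hp']
      congr 1
      apply Fin.ext
      show c * nn + j.1 - c * nn = j.1
      omega
  · intro x hx y hy hxy
    by_cases hxu : x < c * nn
    · by_cases hyu : y < c * nn
      · rw [he1 x hxu, he1 y hyu, Sum.inl.injEq, Prod.mk.injEq, Fin.mk.injEq] at hxy
        have h7 := heni _ (hmodlt x) _ (hmodlt y) hxy.2
        rw [← Nat.div_add_mod x nn, ← Nat.div_add_mod y nn, hxy.1, h7]
      · rw [he1 x hxu, he2 y hyu (by omega)] at hxy
        exact absurd hxy (by simp)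
    · by_cases hyu : y < c * nn
      · rw [he2 x hxu (by omega), he1 y hyu] at hxy
        exact absurd hxy (by simp)
      · rw [he2 x hxu (by omega), he2 y hyu (by omega), Sum.inr.injEq, Fin.mk.injEq] at hxy
        omega
  · intro a ha p hp
    unfold trc
    by_cases hpu : p < c * nn
    · rw [if_pos hpu]
      obtain ⟨h7, h8⟩ := hadd _ (hmodlt p) a ha
      obtain ⟨h9, h10, h11⟩ := hcode (p / nn) (hdiv p hpu) _ h7
      refine ⟨by omega, ?_⟩
      rw [he1 _ h9, he1 _ hpu]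
      simp only [h10, h11, act, h8]
    · rw [if_neg hpu]
      refine ⟨hp, ?_⟩
      rw [he2 p hpu (by omega)]
      rfl
  · intro p hp
    obtain ⟨h7, h8⟩ := hneg _ (hmodlt p)
    refine ⟨h7, ?_⟩
    show trc nn (c * nn) addc (negc (p % nn)) p = rpc nn (c * nn) p
    unfold trc rpc
    rw [if_pos hp, if_pos hp]
    obtain ⟨h9, h10⟩ := hadd _ (hmodlt p) _ h7
    have h11 : addc (p % nn) (negc (p % nn)) = 0 := by
      apply heni _ h9 _ hnn
      rw [h10, h8, hen0, add_neg_cancel]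
    rw [h11, Nat.add_zero]
  · intro p hp
    unfold rpc
    rw [if_pos hp]
    exact List.mem_map.2 ⟨p / nn, List.mem_range.2 (hdiv p hp), rfl⟩
  · intro p hp hpu r hr
    obtain ⟨i, hi, rfl⟩ := List.mem_map.1 hr
    unfold rpc
    rw [if_neg hpu]
    have h7 : i * nn < c * nn := Nat.mul_lt_mul_of_pos_right (List.mem_range.1 hi) hnn
    omega
  · intro x hx y hy hxu hyu hxy
    obtain ⟨s, hs, h7, h8⟩ := hfix (x - c * nn) (by omega) (y - c * nn) (by omega) (by omega)
    have h9 : c * nn + (x - c * nn) = x := by omega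
    have h10 : c * nn + (y - c * nn) = y := by omega
    rw [h9] at h7
    rw [h10] at h8
    exact ⟨s, hs, h7, h8⟩

end Copies

theorem transport {X Y : Type} [DecidableEq X] [DecidableEq Y] (k : ℕ) (e : X ≃ Y)
    (h : ∃ 𝓑 : Set (Finset X), IsS2 X k 𝓑) : ∃ 𝓑 : Set (Finset Y), IsS2 Y k 𝓑 := by
  obtain ⟨𝓑, h1, h2⟩ := h
  refine ⟨{C | ∃ B ∈ 𝓑, C = B.map e.toEmbedding}, ?_, ?_⟩
  · rintro C ⟨B, hB, rfl⟩
    rw [Finset.card_map]
    exact h1 B hB
  · intro a b hab
    obtain ⟨B, ⟨hB, ha, hb⟩, hu⟩ := h2 (e.symm a) (e.symm b) (fun h => hab (e.symm.injective h))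
    refine ⟨B.map e.toEmbedding, ⟨⟨B, hB, rfl⟩, ?_, ?_⟩, ?_⟩
    · rwa [Finset.mem_map_equiv]
    · rwa [Finset.mem_map_equiv]
    · rintro C ⟨⟨B', hB', rfl⟩, ha', hb'⟩
      rw [Finset.mem_map_equiv] at ha' hb'
      rw [hu B' ⟨hB', ha', hb'⟩]

end Pool.Agent.H816R2.KM2
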