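import Pool.Agent.H816R2.KM2

/-!
Finite abelian groups with elements coded by natural numbers.
-/

namespace Pool.Agent.H816R2.KM2

open Finset

/-- a finite abelian group with a coding by `0, …, nn - 1` -/
structure Coded (N : Type) [AddCommGroup N] [Fintype N] where
  nn : ℕ
  en : ℕ → N
  addc : ℕ → ℕ → ℕ
  negc : ℕ → ℕ
  hnn : 0 < nn
  hN : Fintype.card N = nn
  hen : ∀ g : N, ∃ a < nn, en a = g
  heni : ∀ a < nn, ∀ b < nn, en a = en b → a = b
  hen0 : en 0 = 0
  hadd : ∀ a < nn, ∀ b < nn, addc a b < nn ∧ en (addc a b) = en a + en b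
  hneg : ∀ a < nn, negc a < nn ∧ en (negc a) = - en a

def addm (n : ℕ) (a b : ℕ) : ℕ := (a + b) % n

def negm (n : ℕ) (a : ℕ) : ℕ := (n - a) % n

def codedZ (n : ℕ) [NeZero n] : Coded (ZMod n) where
  nn := n
  en := fun a => (a : ZMod n)
  addc := addm n
  negc := negm n
  hnn := Nat.pos_of_ne_zero (NeZero.ne n)
  hN := ZMod.card n
  hen := fun g => ⟨g.val, ZMod.val_lt g, ZMod.natCast_zmod_val g⟩
  heni := by
    intro a ha b hb h
    have h' := (ZMod.natCast_eq_natCast_iff a b n).1 h
    have h'' : a % n = b % n := h'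
    rwa [Nat.mod_eq_of_lt ha, Nat.mod_eq_of_lt hb] at h''
  hen0 := by simp
  hadd := by
    intro a _ b _
    refine ⟨Nat.mod_lt _ (Nat.pos_of_ne_zero (NeZero.ne n)), ?_⟩
    unfold addm
    rw [ZMod.natCast_mod, Nat.cast_add]
  hneg := by
    intro a ha
    refine ⟨Nat.mod_lt _ (Nat.pos_of_ne_zero (NeZero.ne n)), ?_⟩
    unfold negm
    rw [ZMod.natCast_mod, Nat.cast_sub ha.le, ZMod.natCast_self]
    ring

def addp (m : ℕ) (addc : ℕ → ℕ → ℕ) (a b : ℕ) : ℕ :=
  (a % m + b % m) % m + m * addc (a / m) (b / m)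

def negp (m : ℕ) (negc : ℕ → ℕ) (a : ℕ) : ℕ := (m - a % m) % m + m * negc (a / m)

def codedP (m : ℕ) [NeZero m] {N : Type} [AddCommGroup N] [Fintype N] (C : Coded N) :
    Coded (ZMod m × N) where
  nn := m * C.nn
  en := fun a => ((a : ZMod m), C.en (a / m))
  addc := addp m C.addc
  negc := negp m C.negc
  hnn := Nat.mul_pos (Nat.pos_of_ne_zero (NeZero.ne m)) C.hnn
  hN := by rw [Fintype.card_prod, ZMod.card, C.hN]
  hen := by
    rintro ⟨g, h⟩
    obtain ⟨b, hb, rfl⟩ := C.hen h
    have hg := ZMod.val_lt g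
    refine ⟨g.val + m * b, ?_, ?_⟩
    · calc g.val + m * b < m + m * b := by omega
        _ = m * (b + 1) := by ring
        _ ≤ m * C.nn := Nat.mul_le_mul_left _ hb
    · have h1 : (g.val + m * b) / m = b := by
        rw [Nat.add_mul_div_left _ _ (Nat.pos_of_ne_zero (NeZero.ne m)), Nat.div_eq_of_lt hg,
          Nat.zero_add]
      rw [h1]
      simp
  heni := by
    intro a ha b hb h
    rw [Prod.mk.injEq] at h
    obtain ⟨h1, h2⟩ := h
    have h3 := (ZMod.natCast_eq_natCast_iff a b m).1 h1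
    have h4 : a % m = b % m := h3
    have h5 := C.heni _ (Nat.div_lt_of_lt_mul ha) _ (Nat.div_lt_of_lt_mul hb) h2
    rw [← Nat.div_add_mod a m, ← Nat.div_add_mod b m, h4, h5]
  hen0 := by
    simp [C.hen0]
  hadd := by
    intro a ha b hb
    have hm : 0 < m := Nat.pos_of_ne_zero (NeZero.ne m)
    obtain ⟨h1, h2⟩ := C.hadd _ (Nat.div_lt_of_lt_mul ha) _ (Nat.div_lt_of_lt_mul hb)
    have h3 : (a % m + b % m) % m < m := Nat.mod_lt _ hm
    unfold addp
    refine ⟨?_, ?_⟩
    · calc (a % m + b % m) % m + m * C.addc (a / m) (b / m)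
          < m + m * C.addc (a / m) (b / m) := by omega
        _ = m * (C.addc (a / m) (b / m) + 1) := by ring
        _ ≤ m * C.nn := Nat.mul_le_mul_left _ h1
    · have h4 : ((a % m + b % m) % m + m * C.addc (a / m) (b / m)) / m =
          C.addc (a / m) (b / m) := by
        rw [Nat.add_mul_div_left _ _ hm, Nat.div_eq_of_lt h3, Nat.zero_add]
      rw [h4, h2]
      simp
  hneg := by
    intro a ha
    have hm : 0 < m := Nat.pos_of_ne_zero (NeZero.ne m)
    obtain ⟨h1, h2⟩ := C.hneg _ (Nat.div_lt_of_lt_mul ha)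
    have h3 : (m - a % m) % m < m := Nat.mod_lt _ hm
    unfold negp
    refine ⟨?_, ?_⟩
    · calc (m - a % m) % m + m * C.negc (a / m)
          < m + m * C.negc (a / m) := by omega
        _ = m * (C.negc (a / m) + 1) := by ring
        _ ≤ m * C.nn := Nat.mul_le_mul_left _ h1
    · have h4 : ((m - a % m) % m + m * C.negc (a / m)) / m = C.negc (a / m) := by
        rw [Nat.add_mul_div_left _ _ hm, Nat.div_eq_of_lt h3, Nat.zero_add]
      rw [h4, h2]
      have h5 : a % m ≤ m := (Nat.mod_lt a hm).le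
      simp [Nat.cast_sub h5]

theorem of_coded {N : Type} [AddCommGroup N] [Fintype N] [DecidableEq N] (C : Coded N)
    (k c f v : ℕ) (hv : c * C.nn + f = v)
    (full : List (List ℕ)) (short : List (List ℕ × List ℕ))
    (h1 : (full.all (okB k v)) = true)
    (h2 : (short.all fun s => okB k v s.2 && s.1.all fun a => decide (a < C.nn)) = true)
    (h3 : okShort (trc C.nn (c * C.nn) C.addc) C.nn short = true)
    (h4 : (C.nn * full.length + (short.map fun s => s.1.length).sum) * (k * k - k) ≤ v * v - v)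
    (h6 : (((List.range c).map fun i => i * C.nn).all fun r => covAll (rpc C.nn (c * C.nn))
      (fun p B => B.map (trc C.nn (c * C.nn) C.addc (C.negc (p % C.nn)))) r
      (full ++ short.map Prod.snd) 0 == 2 ^ v - 1) = true)
    (hfix : ((List.range f).all fun x => (List.range f).all fun y => x == y ||
      short.any fun s => s.2.contains (c * C.nn + x) && s.2.contains (c * C.nn + y)) = true) :
    ∃ 𝓑' : Set (Finset (Fin v)), IsS2 (Fin v) k 𝓑' := by
  subst hv
  have hfix : ∀ x < f, ∀ y < f, x ≠ y → ∃ s ∈ short, c * C.nn + x ∈ s.2 ∧ c * C.nn + y ∈ s.2 := by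
    intro x hx y hy hxy
    rw [List.all_eq_true] at hfix
    have h7 := hfix x (List.mem_range.2 hx)
    rw [List.all_eq_true] at h7
    have h8 := h7 y (List.mem_range.2 hy)
    rw [Bool.or_eq_true, beq_iff_eq, List.any_eq_true] at h8
    rcases h8 with h8 | ⟨s, hs, h9⟩
    · exact absurd h8 hxy
    · rw [Bool.and_eq_true, List.contains_iff_mem, List.contains_iff_mem] at h9
      exact ⟨s, hs, h9.1, h9.2⟩
  have h := of_copies k c f C.nn C.hnn C.hN C.en C.hen C.heni C.hen0 C.addc C.hadd C.negc C.hneg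
    full short h1 h2 h3 h4 h6 hfix
  refine transport k (Fintype.equivFinOfCardEq ?_) h
  rw [Fintype.card_sum, Fintype.card_prod, Fintype.card_fin, Fintype.card_fin, C.hN]

end Pool.Agent.H816R2.KM2
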