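import Mathlib

/-!
Steiner systems `S(3,5,·)` invariant under an abelian group acting regularly on the points and
an automorphism `θ` of that group.
-/

namespace Pool.Agent.H816R2.S35

open Finset

/-- a Steiner system `S(3,5,·)` on the point set `α` -/
def IsS35 (α : Type) [DecidableEq α] (𝓑 : Set (Finset α)) : Prop :=
  (∀ B ∈ 𝓑, B.card = 5) ∧
    ∀ a b c : α, a ≠ b → a ≠ c → b ≠ c → ∃! B, B ∈ 𝓑 ∧ a ∈ B ∧ b ∈ B ∧ c ∈ B

section Main

variable {X : Type} [AddCommGroup X] [Fintype X] [DecidableEq X]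

/-- pairs of distinct nonzero elements -/
def prsX (D : Finset X) : Finset (X × X) := (D.erase 0).offDiag

theorem mem_prsX {D : Finset X} {p : X × X} :
    p ∈ prsX D ↔ (p.1 ≠ 0 ∧ p.1 ∈ D) ∧ (p.2 ≠ 0 ∧ p.2 ∈ D) ∧ p.1 ≠ p.2 := by
  unfold prsX
  rw [Finset.mem_offDiag, Finset.mem_erase, Finset.mem_erase]

theorem card_prsX {D : Finset X} (h5 : D.card = 5) (h0 : (0 : X) ∈ D) : (prsX D).card = 12 := by
  unfold prsX
  rw [Finset.offDiag_card, Finset.card_erase_of_mem h0, h5]

theorem main (θ : X →+ X) (n : ℕ) (hn : 0 < n) (hθ : ∀ x, θ^[n] x = x)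
    (𝓓 : Finset (Finset X)) (h5 : ∀ D ∈ 𝓓, D.card = 5) (h0 : ∀ D ∈ 𝓓, (0 : X) ∈ D)
    (htr : ∀ D ∈ 𝓓, ∀ x ∈ D, D.image (fun y => y - x) ∈ 𝓓)
    (hth : ∀ D ∈ 𝓓, D.image θ ∈ 𝓓)
    (reps : List X) (hreps : ∀ d : X, d ≠ 0 → ∃ r ∈ reps, ∃ i : ℕ, θ^[i] r = d)
    (hcov : ∀ r ∈ reps, ∀ e : X, ∃ D ∈ 𝓓, r ∈ D ∧ e ∈ D)
    (hcard : 12 * 𝓓.card ≤ (Fintype.card X - 1) * (Fintype.card X - 2)) :
    ∃ 𝓑 : Set (Finset X), IsS35 X 𝓑 := by
  classical
  have hit : ∀ i : ℕ, ∀ D ∈ 𝓓, D.image (θ^[i]) ∈ 𝓓 := by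
    intro i
    induction i with
    | zero =>
      intro D hD
      have : D.image (θ^[0]) = D := by simp
      rw [this]; exact hD
    | succ i ih =>
      intro D hD
      have : D.image (θ^[i + 1]) = (D.image (θ^[i])).image θ := by
        rw [Finset.image_image]
        congr 1
        rw [Function.iterate_succ']
      rw [this]
      exact hth _ (ih D hD)
  have hmul : ∀ i : ℕ, ∀ x, θ^[n * i] x = x := by
    intro i
    induction i with
    | zero => intro x; simp
    | succ i ih => intro x; rw [Nat.mul_succ, Function.iterate_add_apply, hθ, ih]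
  -- every pair is covered
  have hex : ∀ d e : X, d ≠ 0 → e ≠ 0 → d ≠ e → ∃ D ∈ 𝓓, d ∈ D ∧ e ∈ D := by
    intro d e hd he hde
    obtain ⟨r, hr, i, rfl⟩ := hreps d hd
    obtain ⟨D, hD, h1, h2⟩ := hcov r hr (θ^[(n - 1) * i] e)
    have hk : θ^[i] (θ^[(n - 1) * i] e) = e := by
      rw [← Function.iterate_add_apply]
      have : i + (n - 1) * i = n * i := by
        obtain ⟨m, rfl⟩ : ∃ m, n = m + 1 := ⟨n - 1, by omega⟩
        simp only [Nat.add_sub_cancel]; ring
      rw [this, hmul]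
    refine ⟨_, hit i D hD, ?_, ?_⟩
    · rw [Finset.mem_image]; exact ⟨_, h1, rfl⟩
    · rw [Finset.mem_image]; exact ⟨_, h2, hk⟩
  -- and only once
  let P : Finset (X × X) := prsX Finset.univ
  have hP : P.card = (Fintype.card X - 1) * (Fintype.card X - 2) := by
    show ((Finset.univ.erase (0 : X)).offDiag).card = _
    rw [Finset.offDiag_card, Finset.card_erase_of_mem (Finset.mem_univ _), Finset.card_univ]
    have h2 : ∀ m : ℕ, m * m - m = m * (m - 1) := fun m => by rw [Nat.mul_sub, Nat.mul_one]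
    rw [h2]
    rfl
  have huniq : ∀ d e : X, d ≠ 0 → e ≠ 0 → d ≠ e → ∀ D ∈ 𝓓, ∀ D' ∈ 𝓓,
      d ∈ D → e ∈ D → d ∈ D' → e ∈ D' → D = D' := by
    intro d e hd he hde D hD D' hD' h1 h2 h3 h4
    by_contra hne
    have hsub : P ⊆ ((𝓓.erase D').biUnion prsX) ∪ ((prsX D').erase (d, e)) := by
      intro p hp
      have hp' := (mem_prsX (D := Finset.univ)).1 hp
      rw [Finset.mem_union, Finset.mem_biUnion]
      by_cases hpd : p = (d, e)
      · left
        refine ⟨D, Finset.mem_erase.2 ⟨hne, hD⟩, mem_prsX.2 ?_⟩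
        rw [hpd]
        exact ⟨⟨hd, h1⟩, ⟨he, h2⟩, hde⟩
      · obtain ⟨E, hE, hE1, hE2⟩ := hex p.1 p.2 hp'.1.1 hp'.2.1.1 hp'.2.2
        by_cases hED : E = D'
        · right
          rw [Finset.mem_erase]
          refine ⟨hpd, mem_prsX.2 ?_⟩
          rw [← hED]
          exact ⟨⟨hp'.1.1, hE1⟩, ⟨hp'.2.1.1, hE2⟩, hp'.2.2⟩
        · left
          exact ⟨E, Finset.mem_erase.2 ⟨hED, hE⟩, mem_prsX.2
            ⟨⟨hp'.1.1, hE1⟩, ⟨hp'.2.1.1, hE2⟩, hp'.2.2⟩⟩
    have hc1 := Finset.card_le_card hsub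
    have hc2 := Finset.card_union_le ((𝓓.erase D').biUnion prsX) ((prsX D').erase (d, e))
    have hc3 : ((𝓓.erase D').biUnion prsX).card ≤ (𝓓.erase D').card * 12 := by
      refine Finset.card_biUnion_le_card_mul _ _ _ ?_
      intro E hE
      exact (card_prsX (h5 E (Finset.mem_of_mem_erase hE)) (h0 E (Finset.mem_of_mem_erase hE))).le
    have hc4 : ((prsX D').erase (d, e)).card = 11 := by
      rw [Finset.card_erase_of_mem (mem_prsX.2 ⟨⟨hd, h3⟩, ⟨he, h4⟩, hde⟩),
        card_prsX (h5 D' hD') (h0 D' hD')]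
    have hc5 : (𝓓.erase D').card = 𝓓.card - 1 := Finset.card_erase_of_mem hD'
    have hc6 : 0 < 𝓓.card := Finset.card_pos.2 ⟨D', hD'⟩
    omega
  refine ⟨{B | ∃ D ∈ 𝓓, ∃ t : X, B = D.image (fun y => y + t)}, ?_, ?_⟩
  · rintro B ⟨D, hD, t, rfl⟩
    rw [Finset.card_image_of_injective _ (add_left_injective t)]
    exact h5 D hD
  · intro a b c hab hac hbc
    have hd : b - a ≠ 0 := sub_ne_zero.2 (Ne.symm hab)
    have he : c - a ≠ 0 := sub_ne_zero.2 (Ne.symm hac)
    have hde : b - a ≠ c - a := fun h => hbc (sub_left_injective h)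
    obtain ⟨D, hD, h1, h2⟩ := hex (b - a) (c - a) hd he hde
    refine ⟨D.image (fun y => y + a), ⟨⟨D, hD, a, rfl⟩, ?_, ?_, ?_⟩, ?_⟩
    · exact Finset.mem_image.2 ⟨0, h0 D hD, zero_add a⟩
    · exact Finset.mem_image.2 ⟨b - a, h1, sub_add_cancel b a⟩
    · exact Finset.mem_image.2 ⟨c - a, h2, sub_add_cancel c a⟩
    · rintro B ⟨⟨D', hD', t, rfl⟩, ha, hb, hc⟩
      obtain ⟨x, hx, hxa⟩ := Finset.mem_image.1 ha
      obtain ⟨y, hy, hyb⟩ := Finset.mem_image.1 hb
      obtain ⟨z, hz, hzc⟩ := Finset.mem_image.1 hc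
      have hE := htr D' hD' x hx
      have hyE : b - a ∈ D'.image (fun y => y - x) := by
        refine Finset.mem_image.2 ⟨y, hy, ?_⟩
        rw [← hxa, ← hyb]; abel
      have hzE : c - a ∈ D'.image (fun y => y - x) := by
        refine Finset.mem_image.2 ⟨z, hz, ?_⟩
        rw [← hxa, ← hzc]; abel
      have heq := huniq _ _ hd he hde _ hE D hD hyE hzE h1 h2
      rw [← heq, Finset.image_image]
      congr 1
      funext w
      simp only [Function.comp]
      rw [← hxa]; abel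

end Main

/-! ### Computation with codes -/

/-- `[D, θ D, …, θ^(m-1) D]` -/
def orb (th : ℕ → ℕ) : ℕ → List ℕ → List (List ℕ)
  | 0, _ => []
  | m + 1, D => D :: orb th m (D.map th)

/-- all pointed blocks -/
def allD (th : ℕ → ℕ) (cl : List (ℕ × List (List ℕ))) : List (List ℕ) :=
  cl.flatMap fun c => c.2.flatMap fun D => orb th c.1 D

/-- five distinct codes, one of them `0` -/
def okD (v : ℕ) (D : List ℕ) : Bool :=
  (D.length == 5) && decide D.Nodup && (D.all fun x => decide (x < v)) && D.contains 0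

def okCl (v : ℕ) (cl : List (ℕ × List (List ℕ))) : Bool :=
  cl.all fun c => decide (0 < c.1) && c.2.all fun D => okD v D

/-- closure of the classes under translation -/
def okTr (cs : ℕ → ℕ → ℕ) (cl : List (ℕ × List (List ℕ))) : Bool :=
  cl.all fun c => c.2.all fun D => D.all fun x => c.2.any fun D' => D.all fun y =>
    D'.contains (cs y x)

def iter (th : ℕ → ℕ) : ℕ → List ℕ → List ℕ
  | 0, D => D
  | m + 1, D => iter th m (D.map th)

/-- closure of the classes under the power of `θ` -/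
def okTh (th : ℕ → ℕ) (cl : List (ℕ × List (List ℕ))) : Bool :=
  cl.all fun c => c.2.all fun D => c.2.any fun D' => (iter th c.1 D).all fun y =>
    D'.contains y

def cnt (cl : List (ℕ × List (List ℕ))) : ℕ := (cl.map fun c => c.1 * c.2.length).sum

def addBits : List ℕ → ℕ → ℕ
  | [], acc => acc
  | d :: l, acc => addBits l (acc ||| (1 <<< d))

def cov (r : ℕ) : List (List ℕ) → ℕ → ℕ
  | [], acc => acc
  | D :: l, acc => cov r l (if D.contains r then addBits D acc else acc)

def reach (th : ℕ → ℕ) : ℕ → ℕ → ℕ → ℕ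
  | 0, _, acc => acc
  | m + 1, r, acc => reach th m (th r) (acc ||| (1 <<< r))

def reachAll (th : ℕ → ℕ) (n : ℕ) : List ℕ → ℕ → ℕ
  | [], acc => acc
  | r :: l, acc => reachAll th n l (reach th n r acc)

theorem testBit_or_shift (acc a d : ℕ) : Nat.testBit (acc ||| (1 <<< a)) d = true ↔
    (Nat.testBit acc d = true ∨ d = a) := by
  rw [Nat.testBit_or, Bool.or_eq_true, Nat.one_shiftLeft, Nat.testBit_two_pow]
  constructor
  · rintro (h | h)
    · exact Or.inl h
    · exact Or.inr (by simpa using (of_decide_eq_true h).symm)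
  · rintro (h | h)
    · exact Or.inl h
    · exact Or.inr (by simp [h])

theorem addBits_spec (l : List ℕ) : ∀ (acc d : ℕ), Nat.testBit (addBits l acc) d = true ↔
    (Nat.testBit acc d = true ∨ d ∈ l) := by
  induction l with
  | nil => intro acc d; simp [addBits]
  | cons a l ih =>
    intro acc d
    rw [addBits, ih, testBit_or_shift, List.mem_cons]
    tauto

theorem cov_spec (r : ℕ) (l : List (List ℕ)) : ∀ (acc d : ℕ),
    Nat.testBit (cov r l acc) d = true →
      (Nat.testBit acc d = true ∨ ∃ D ∈ l, r ∈ D ∧ d ∈ D) := by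
  induction l with
  | nil => intro acc d h; exact Or.inl h
  | cons D l ih =>
    intro acc d h
    rw [cov] at h
    rcases ih _ _ h with h1 | ⟨E, hE, h2⟩
    · by_cases hr : D.contains r = true
      · rw [if_pos hr] at h1
        rcases (addBits_spec _ _ _).1 h1 with h3 | h3
        · exact Or.inl h3
        · refine Or.inr ⟨D, List.mem_cons_self, ?_, h3⟩
          simpa using hr
      · rw [if_neg hr] at h1
        exact Or.inl h1
    · exact Or.inr ⟨E, List.mem_cons_of_mem _ hE, h2⟩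

theorem reach_spec (th : ℕ → ℕ) : ∀ (m r acc d : ℕ),
    Nat.testBit (reach th m r acc) d = true →
      (Nat.testBit acc d = true ∨ ∃ i, th^[i] r = d) := by
  intro m
  induction m with
  | zero => intro r acc d h; exact Or.inl h
  | succ m ih =>
    intro r acc d h
    rw [reach] at h
    rcases ih _ _ _ h with h1 | ⟨i, hi⟩
    · rcases (testBit_or_shift _ _ _).1 h1 with h2 | h2
      · exact Or.inl h2
      · exact Or.inr ⟨0, h2.symm⟩
    · exact Or.inr ⟨i + 1, by rw [Function.iterate_succ_apply]; exact hi⟩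

theorem reachAll_spec (th : ℕ → ℕ) (n : ℕ) (l : List ℕ) : ∀ (acc d : ℕ),
    Nat.testBit (reachAll th n l acc) d = true →
      (Nat.testBit acc d = true ∨ ∃ r ∈ l, ∃ i, th^[i] r = d) := by
  induction l with
  | nil => intro acc d h; exact Or.inl h
  | cons a l ih =>
    intro acc d h
    rw [reachAll] at h
    rcases ih _ _ h with h1 | ⟨r, hr, h2⟩
    · rcases reach_spec _ _ _ _ _ h1 with h3 | h3
      · exact Or.inl h3
      · exact Or.inr ⟨a, List.mem_cons_self, h3⟩
    · exact Or.inr ⟨r, List.mem_cons_of_mem _ hr, h2⟩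

theorem mem_orb (th : ℕ → ℕ) : ∀ (m : ℕ) (D E : List ℕ),
    E ∈ orb th m D ↔ ∃ i < m, E = D.map (th^[i]) := by
  intro m
  induction m with
  | zero => intro D E; simp [orb]
  | succ m ih =>
    intro D E
    rw [orb, List.mem_cons, ih]
    constructor
    · rintro (h | ⟨i, hi, h⟩)
      · exact ⟨0, Nat.succ_pos _, by simp [h]⟩
      · refine ⟨i + 1, by omega, ?_⟩
        rw [h, List.map_map]
        rfl
    · rintro ⟨i, hi, h⟩
      rcases i with _ | i
      · left; simpa using h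
      · right
        refine ⟨i, by omega, ?_⟩
        rw [h, List.map_map]
        rfl

theorem length_orb (th : ℕ → ℕ) : ∀ (m : ℕ) (D : List ℕ), (orb th m D).length = m := by
  intro m
  induction m with
  | zero => intro D; rfl
  | succ m ih => intro D; rw [orb, List.length_cons, ih]

theorem length_allD (th : ℕ → ℕ) (cl : List (ℕ × List (List ℕ))) :
    (allD th cl).length = cnt cl := by
  unfold allD cnt
  rw [List.length_flatMap]
  congr 1
  refine List.map_congr_left ?_
  intro c _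
  rw [List.length_flatMap]
  simp only [length_orb, List.map_const', List.sum_replicate, smul_eq_mul]
  ring

theorem iter_eq (th : ℕ → ℕ) : ∀ (m : ℕ) (D : List ℕ), iter th m D = D.map (th^[m]) := by
  intro m
  induction m with
  | zero => intro D; simp [iter]
  | succ m ih =>
    intro D
    rw [iter, ih, List.map_map]
    rfl

section Codes

variable {X : Type} [AddCommGroup X] [Fintype X] [DecidableEq X]

/-- the set of points with codes in `D` -/
def st (el : ℕ → X) (D : List ℕ) : Finset X := (D.map el).toFinset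

theorem mem_st {el : ℕ → X} {D : List ℕ} {g : X} : g ∈ st el D ↔ ∃ x ∈ D, el x = g := by
  simp [st]

theorem of_codes (θ : X →+ X) (n : ℕ) (hn : 0 < n) (hθ : ∀ x, θ^[n] x = x)
    (v : ℕ) (hv : Fintype.card X = v) (el : ℕ → X) (th : ℕ → ℕ) (cs : ℕ → ℕ → ℕ)
    (hel : ∀ g : X, ∃ x < v, el x = g)
    (hinj : ∀ x < v, ∀ y < v, el x = el y → x = y)
    (hel0 : el 0 = 0)
    (hth : ∀ x < v, th x < v ∧ el (th x) = θ (el x))
    (hcs : ∀ x < v, ∀ y < v, cs x y < v ∧ el (cs x y) = el x - el y)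
    (cl : List (ℕ × List (List ℕ))) (h1 : okCl v cl = true) (h2 : okTr cs cl = true)
    (h3 : okTh th cl = true) (h4 : 12 * cnt cl = (v - 1) * (v - 2))
    (reps : List ℕ) (hr : (reps.all fun r => decide (r < v)) = true)
    (h5 : reachAll th n reps 1 = 2 ^ v - 1)
    (h6 : (reps.all fun r => cov r (allD th cl) 0 == 2 ^ v - 1) = true) :
    ∃ 𝓑 : Set (Finset X), IsS35 X 𝓑 := by
  classical
  -- iterates
  have hit : ∀ (i : ℕ) (x : ℕ), x < v → th^[i] x < v ∧ el (th^[i] x) = θ^[i] (el x) := by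
    intro i
    induction i with
    | zero => intro x hx; exact ⟨hx, rfl⟩
    | succ i ih =>
      intro x hx
      rw [Function.iterate_succ_apply', Function.iterate_succ_apply']
      obtain ⟨ha, hb⟩ := ih x hx
      obtain ⟨hc, hd⟩ := hth _ ha
      exact ⟨hc, by rw [hd, hb]⟩
  have hθinj : ∀ i : ℕ, Function.Injective (θ^[i]) := by
    have h1 : Function.Injective θ := by
      intro x y hxy
      have hx := hθ x
      have hy := hθ y
      obtain ⟨m, rfl⟩ : ∃ m, n = m + 1 := ⟨n - 1, by omega⟩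
      rw [Function.iterate_succ_apply] at hx hy
      rw [← hx, ← hy, hxy]
    exact fun i => h1.iterate i
  -- unpack the checks
  have hok : ∀ c ∈ cl, 0 < c.1 ∧ ∀ D ∈ c.2, D.length = 5 ∧ D.Nodup ∧ (∀ x ∈ D, x < v) ∧
      0 ∈ D := by
    intro c hc
    unfold okCl at h1
    rw [List.all_eq_true] at h1
    have h := h1 c hc
    rw [Bool.and_eq_true, decide_eq_true_eq, List.all_eq_true] at h
    refine ⟨h.1, ?_⟩
    intro D hD
    have h' := h.2 D hD
    unfold okD at h'
    simp only [Bool.and_eq_true, beq_iff_eq, decide_eq_true_eq, List.all_eq_true,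
      List.contains_iff_mem] at h'
    exact ⟨h'.1.1.1, h'.1.1.2, h'.1.2, h'.2⟩
  have hokT : ∀ c ∈ cl, ∀ D ∈ c.2, ∀ x ∈ D, ∃ D' ∈ c.2, ∀ y ∈ D, cs y x ∈ D' := by
    intro c hc D hD x hx
    unfold okTr at h2
    simp only [List.all_eq_true, List.any_eq_true, List.contains_iff_mem] at h2
    exact h2 c hc D hD x hx
  have hokΘ : ∀ c ∈ cl, ∀ D ∈ c.2, ∃ D' ∈ c.2, ∀ y ∈ D, th^[c.1] y ∈ D' := by
    intro c hc D hD
    unfold okTh at h3
    simp only [List.all_eq_true, List.any_eq_true, List.contains_iff_mem, iter_eq,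
      List.mem_map, forall_exists_index, and_imp, forall_apply_eq_imp_iff₂] at h3
    exact h3 c hc D hD
  have hmemL : ∀ E, E ∈ allD th cl ↔ ∃ c ∈ cl, ∃ D ∈ c.2, ∃ i < c.1, E = D.map (th^[i]) := by
    intro E
    unfold allD
    simp only [List.mem_flatMap, mem_orb]
  -- cardinality of the point sets
  have hcardst : ∀ c ∈ cl, ∀ D ∈ c.2, (st el D).card = 5 := by
    intro c hc D hD
    obtain ⟨ha, hb, hlt, _⟩ := (hok c hc).2 D hD
    unfold st
    rw [List.toFinset_card_of_nodup, List.length_map, ha]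
    exact List.Nodup.map_on (fun x hx y hy hxy => hinj x (hlt x hx) y (hlt y hy) hxy) hb
  have hstit : ∀ c ∈ cl, ∀ D ∈ c.2, ∀ i, st el (D.map (th^[i])) = (st el D).image (θ^[i]) := by
    intro c hc D hD i
    obtain ⟨_, _, hlt, _⟩ := (hok c hc).2 D hD
    ext g
    simp only [mem_st, Finset.mem_image, List.mem_map]
    constructor
    · rintro ⟨x, ⟨y, hy, rfl⟩, rfl⟩
      exact ⟨el y, ⟨y, hy, rfl⟩, ((hit i y (hlt y hy)).2).symm⟩
    · rintro ⟨a, ⟨y, hy, rfl⟩, rfl⟩
      exact ⟨_, ⟨y, hy, rfl⟩, (hit i y (hlt y hy)).2⟩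
  let 𝓓 : Finset (Finset X) := ((allD th cl).map (st el)).toFinset
  have hmem : ∀ E, E ∈ 𝓓 ↔ ∃ c ∈ cl, ∃ D ∈ c.2, ∃ i < c.1, E = (st el D).image (θ^[i]) := by
    intro E
    rw [List.mem_toFinset, List.mem_map]
    constructor
    · rintro ⟨L, hL, rfl⟩
      obtain ⟨c, hc, D, hD, i, hi, rfl⟩ := (hmemL L).1 hL
      exact ⟨c, hc, D, hD, i, hi, hstit c hc D hD i⟩
    · rintro ⟨c, hc, D, hD, i, hi, rfl⟩
      exact ⟨_, (hmemL _).2 ⟨c, hc, D, hD, i, hi, rfl⟩, hstit c hc D hD i⟩
  have hsub : ∀ c ∈ cl, ∀ D' ∈ c.2, ∀ S : Finset X, S.card = 5 → S ⊆ st el D' → S = st el D' := by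
    intro c hc D' hD' S hS hSD
    exact Finset.eq_of_subset_of_card_le hSD (by rw [hcardst c hc D' hD', hS])
  refine main θ n hn hθ 𝓓 ?_ ?_ ?_ ?_ (reps.map el) ?_ ?_ ?_
  · intro E hE
    obtain ⟨c, hc, D, hD, i, hi, rfl⟩ := (hmem E).1 hE
    rw [Finset.card_image_of_injective _ (hθinj i)]
    exact hcardst c hc D hD
  · intro E hE
    obtain ⟨c, hc, D, hD, i, hi, rfl⟩ := (hmem E).1 hE
    obtain ⟨_, _, _, h0⟩ := (hok c hc).2 D hD
    have hz : θ^[i] 0 = 0 := iterate_map_zero θ i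
    exact Finset.mem_image.2 ⟨0, mem_st.2 ⟨0, h0, hel0⟩, hz⟩
  · intro E hE z hz
    obtain ⟨c, hc, D, hD, i, hi, rfl⟩ := (hmem E).1 hE
    obtain ⟨w, hw, rfl⟩ := Finset.mem_image.1 hz
    obtain ⟨x, hx, rfl⟩ := mem_st.1 hw
    obtain ⟨D', hD', hall⟩ := hokT c hc D hD x hx
    obtain ⟨_, _, hlt, _⟩ := (hok c hc).2 D hD
    refine (hmem _).2 ⟨c, hc, D', hD', i, hi, ?_⟩
    have : (st el D).image (fun y => y - el x) = st el D' := by
      refine hsub c hc D' hD' _ ?_ ?_
      · rw [Finset.card_image_of_injective _ (sub_left_injective)]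
        exact hcardst c hc D hD
      · intro g hg
        obtain ⟨w, hw, rfl⟩ := Finset.mem_image.1 hg
        obtain ⟨y, hy, rfl⟩ := mem_st.1 hw
        exact mem_st.2 ⟨_, hall y hy, (hcs y (hlt y hy) x (hlt x hx)).2⟩
    rw [← this, Finset.image_image, Finset.image_image]
    congr 1
    funext w
    simp only [Function.comp]
    exact (iterate_map_sub θ i w (el x)).symm
  · intro E hE
    obtain ⟨c, hc, D, hD, i, hi, rfl⟩ := (hmem E).1 hE
    have him : ((st el D).image (θ^[i])).image θ = (st el D).image (θ^[i + 1]) := by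
      rw [Finset.image_image]
      congr 1
      rw [Function.iterate_succ']
    rw [him]
    by_cases hi' : i + 1 < c.1
    · exact (hmem _).2 ⟨c, hc, D, hD, i + 1, hi', rfl⟩
    · have hic : i + 1 = c.1 := by omega
      obtain ⟨D', hD', hall⟩ := hokΘ c hc D hD
      obtain ⟨_, _, hlt, _⟩ := (hok c hc).2 D hD
      refine (hmem _).2 ⟨c, hc, D', hD', 0, (hok c hc).1, ?_⟩
      have h0 : (st el D').image (θ^[0]) = st el D' := by simp
      rw [h0]
      refine hsub c hc D' hD' _ ?_ ?_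
      · rw [Finset.card_image_of_injective _ (hθinj _)]
        exact hcardst c hc D hD
      · intro g hg
        obtain ⟨w, hw, rfl⟩ := Finset.mem_image.1 hg
        obtain ⟨y, hy, rfl⟩ := mem_st.1 hw
        rw [hic]
        exact mem_st.2 ⟨_, hall y hy, (hit c.1 y (hlt y hy)).2⟩
  · intro d hd
    obtain ⟨x, hx, rfl⟩ := hel d
    have hx0 : x ≠ 0 := by
      rintro rfl
      exact hd hel0
    have ht : Nat.testBit (reachAll th n reps 1) x = true := by
      rw [h5, Nat.testBit_two_pow_sub_one]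
      exact decide_eq_true hx
    rcases reachAll_spec _ _ _ _ _ ht with h | ⟨r, hr', i, hi⟩
    · exfalso
      rw [Nat.testBit_one_eq_true_iff_self_eq_zero] at h
      exact hx0 h
    · refine ⟨el r, List.mem_map.2 ⟨r, hr', rfl⟩, i, ?_⟩
      rw [List.all_eq_true] at hr
      have hrv : r < v := of_decide_eq_true (hr r hr')
      rw [← (hit i r hrv).2, hi]
  · intro g hg e
    obtain ⟨r, hr', rfl⟩ := List.mem_map.1 hg
    obtain ⟨x, hx, rfl⟩ := hel e
    rw [List.all_eq_true] at h6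
    have h := h6 r hr'
    rw [beq_iff_eq] at h
    have ht : Nat.testBit (cov r (allD th cl) 0) x = true := by
      rw [h, Nat.testBit_two_pow_sub_one]
      exact decide_eq_true hx
    rcases cov_spec _ _ _ _ ht with h | ⟨D, hD, h7, h8⟩
    · simp at h
    · exact ⟨st el D, List.mem_toFinset.2 (List.mem_map.2 ⟨D, hD, rfl⟩), mem_st.2 ⟨r, h7, rfl⟩,
        mem_st.2 ⟨x, h8, rfl⟩⟩
  · have hc : 𝓓.card ≤ cnt cl := by
      refine le_trans (List.toFinset_card_le _) ?_
      rw [List.length_map, length_allD]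
    rw [hv, ← h4]
    exact Nat.mul_le_mul_left _ hc

end Codes

end Pool.Agent.H816R2.S35
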