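import Pool.Agent.H816R2.S35Base

/-!
Steiner systems `S(3,5,v)` invariant under the translations of `ZMod v` and a multiplier.
-/

namespace Pool.Agent.H816R2.S35

open Finset

/-- difference modulo `v` -/
def cyc (v : ℕ) (x y : ℕ) : ℕ := (v - y + x) % v

/-- multiplication by `g` modulo `v` -/
def mulc (v g : ℕ) (x : ℕ) : ℕ := g * x % v

/-- the five pointed blocks of a block -/
def pointed (v m : ℕ) (B : List ℕ) : ℕ × List (List ℕ) :=
  (m, B.map fun x => B.map fun y => cyc v y x)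

theorem of_cyc (v : ℕ) [NeZero v] (g n : ℕ) (hn : 0 < n) (hg : g ^ n % v = 1 % v)
    (cl : List (ℕ × List (List ℕ))) (h1 : okCl v cl = true) (h2 : okTr (cyc v) cl = true)
    (h3 : okTh (mulc v g) cl = true) (h4 : 12 * cnt cl = (v - 1) * (v - 2))
    (reps : List ℕ) (hr : (reps.all fun r => decide (r < v)) = true)
    (h5 : reachAll (mulc v g) n reps 1 = 2 ^ v - 1)
    (h6 : (reps.all fun r => cov r (allD (mulc v g) cl) 0 == 2 ^ v - 1) = true) :
    ∃ 𝓑 : Set (Finset (ZMod v)), IsS35 (ZMod v) 𝓑 := by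
  have hv0 : 0 < v := Nat.pos_of_ne_zero (NeZero.ne v)
  have hgn : ((g : ZMod v)) ^ n = 1 := by
    have : ((g ^ n : ℕ) : ZMod v) = ((1 : ℕ) : ZMod v) := by
      rw [ZMod.natCast_eq_natCast_iff]
      exact hg
    rw [Nat.cast_pow, Nat.cast_one] at this
    exact this
  have hit : ∀ (i : ℕ) (x : ZMod v), (AddMonoidHom.mulLeft (g : ZMod v))^[i] x = (g : ZMod v) ^ i * x := by
    intro i
    induction i with
    | zero => intro x; simp
    | succ i ih =>
      intro x
      rw [Function.iterate_succ_apply, ih, AddMonoidHom.coe_mulLeft]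
      ring
  refine of_codes (AddMonoidHom.mulLeft (g : ZMod v)) n hn ?_ v (ZMod.card v)
    (fun x => (x : ZMod v)) (mulc v g) (cyc v) ?_ ?_ ?_ ?_ ?_ cl h1 h2 h3 h4 reps hr h5 h6
  · intro x
    rw [hit, hgn, one_mul]
  · intro x
    exact ⟨x.val, ZMod.val_lt x, ZMod.natCast_zmod_val x⟩
  · intro x hx y hy hxy
    have h := (ZMod.natCast_eq_natCast_iff x y v).1 hxy
    have h' : x % v = y % v := h
    rwa [Nat.mod_eq_of_lt hx, Nat.mod_eq_of_lt hy] at h'
  · simp
  · intro x _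
    refine ⟨Nat.mod_lt _ hv0, ?_⟩
    unfold mulc
    rw [ZMod.natCast_mod, Nat.cast_mul]
    rfl
  · intro x hx y hy
    refine ⟨Nat.mod_lt _ hv0, ?_⟩
    unfold cyc
    rw [ZMod.natCast_mod, Nat.cast_add, Nat.cast_sub hy.le, ZMod.natCast_self]
    ring

end Pool.Agent.H816R2.S35
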