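import Pool.Agent.H816R2.S35Mul4

/-!
A Steiner system `S(3,5,125)` whose blocks are the lines of `AG(3,5)` and two orbits of
`AGL(1,125)`.
-/

namespace Pool.Agent.H816R2.S35

open Finset

abbrev X5 : Type := ZMod 5 × ZMod 5 × ZMod 5

/-- multiplication by a primitive element `θ` of `GF(125)`, `θ^3 = θ + 2` -/
def th5 : X5 →+ X5 where
  toFun p := (2 * p.2.2, p.1 + p.2.2, p.2.1)
  map_zero' := by simp
  map_add' p q := by
    ext
    · simp; ring
    · simp; ring
    · simp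

def el5 (x : ℕ) : X5 := ((x : ZMod 5), ((x / 5 : ℕ) : ZMod 5), ((x / 25 : ℕ) : ZMod 5))

def tc5 (x : ℕ) : ℕ := 2 * (x / 25) % 5 + 5 * ((x % 5 + x / 25) % 5) + 25 * (x / 5 % 5)

def cs5 (x y : ℕ) : ℕ := (5 - y % 5 + x % 5) % 5 + 5 * ((5 - y / 5 % 5 + x / 5 % 5) % 5) +
  25 * ((5 - y / 25 % 5 + x / 25 % 5) % 5)

theorem el5_eq {a b c : ℕ} (ha : a < 5) (hb : b < 5) :
    el5 (a + 5 * b + 25 * c) = ((a : ZMod 5), (b : ZMod 5), (c : ZMod 5)) := by
  unfold el5
  have h1 : (a + 5 * b + 25 * c) / 5 = b + 5 * c := by omega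
  have h2 : (a + 5 * b + 25 * c) / 25 = c := by omega
  have h5 : ((5 : ℕ) : ZMod 5) = 0 := ZMod.natCast_self 5
  have h25 : ((25 : ℕ) : ZMod 5) = 0 := by decide
  rw [h1, h2, Nat.cast_add, Nat.cast_add, Nat.cast_mul, Nat.cast_mul, Nat.cast_add, Nat.cast_mul,
    h5, h25]
  simp

theorem sub5 (x y : ℕ) : (((5 - y % 5 + x % 5) % 5 : ℕ) : ZMod 5) = (x : ZMod 5) - y := by
  have h5 : ((5 : ℕ) : ZMod 5) = 0 := ZMod.natCast_self 5
  have hy : y % 5 ≤ 5 := (Nat.mod_lt y (by norm_num)).le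
  rw [ZMod.natCast_mod, Nat.cast_add, Nat.cast_sub hy, h5, ZMod.natCast_mod, ZMod.natCast_mod]
  ring

def cl125 : List (ℕ × List (List ℕ)) :=
  [(31, [[0, 1, 2, 3, 4]]),
   (124, [0, 1, 5, 61, 86].map fun x => [0, 1, 5, 61, 86].map fun y => cs5 y x),
   (124, [0, 1, 8, 14, 71].map fun x => [0, 1, 8, 14, 71].map fun y => cs5 y x)]

theorem ex125 : ∃ 𝓑 : Set (Finset (Fin (124 + 1))), IsS35 (Fin (124 + 1)) 𝓑 := by
  have h : ∃ 𝓑 : Set (Finset X5), IsS35 X5 𝓑 := by
    have hth : ∀ x < 125, tc5 x < 125 ∧ el5 (tc5 x) = th5 (el5 x) := by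
      intro x hx
      refine ⟨by unfold tc5; omega, ?_⟩
      unfold tc5
      rw [el5_eq (Nat.mod_lt _ (by norm_num)) (Nat.mod_lt _ (by norm_num))]
      unfold el5 th5
      simp only [AddMonoidHom.coe_mk, ZeroHom.coe_mk, ZMod.natCast_mod, Nat.cast_mul, Nat.cast_add,
        Nat.cast_ofNat]
    have hit : ∀ (i : ℕ) (x : ℕ), x < 125 → tc5^[i] x < 125 ∧ el5 (tc5^[i] x) = th5^[i] (el5 x) := by
      intro i
      induction i with
      | zero => intro x hx; exact ⟨hx, rfl⟩
      | succ i ih =>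
        intro x hx
        rw [Function.iterate_succ_apply', Function.iterate_succ_apply']
        obtain ⟨ha, hb⟩ := ih x hx
        obtain ⟨hc, hd⟩ := hth _ ha
        exact ⟨hc, by rw [hd, hb]⟩
    have hsurj : ∀ g : X5, ∃ x < 125, el5 x = g := by
      rintro ⟨a, b, c⟩
      refine ⟨a.val + 5 * b.val + 25 * c.val, ?_, ?_⟩
      · have h1 := ZMod.val_lt a
        have h2 := ZMod.val_lt b
        have h3 := ZMod.val_lt c
        omega
      · rw [el5_eq (ZMod.val_lt a) (ZMod.val_lt b)]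
        simp
    have hinj : ∀ x < 125, ∀ y < 125, el5 x = el5 y → x = y := by
      intro x hx y hy hxy
      unfold el5 at hxy
      rw [Prod.mk.injEq, Prod.mk.injEq, ZMod.natCast_eq_natCast_iff, ZMod.natCast_eq_natCast_iff,
        ZMod.natCast_eq_natCast_iff] at hxy
      obtain ⟨h1, h2, h3⟩ := hxy
      unfold Nat.ModEq at h1 h2 h3
      omega
    have hcyc : ((List.range 125).all fun x => iter tc5 124 [x] == [x]) = true := by
      decide +kernel
    refine of_codes th5 124 (by norm_num) ?_ 125 (by simp [X5]) el5 tc5 cs5 hsurj hinj rfl hth ?_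
      cl125 (by decide +kernel) (by decide +kernel) (by decide +kernel) (by decide +kernel)
      [1] (by decide +kernel) (by decide +kernel) (by decide +kernel)
    · intro g
      obtain ⟨x, hx, rfl⟩ := hsurj g
      rw [List.all_eq_true] at hcyc
      have h1 := hcyc x (List.mem_range.2 hx)
      rw [beq_iff_eq, iter_eq, List.map_cons, List.map_nil, List.cons.injEq] at h1
      rw [← (hit 124 x hx).2, h1.1]
    · intro x _ y _
      refine ⟨by unfold cs5; omega, ?_⟩
      unfold cs5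
      rw [el5_eq (Nat.mod_lt _ (by norm_num)) (Nat.mod_lt _ (by norm_num)), sub5, sub5, sub5]
      rfl
  exact transport (Fintype.equivFinOfCardEq (by simp [X5])) h

end Pool.Agent.H816R2.S35
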