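import Pool.Agent.H816R2.S35Mul4
import Pool.Agent.H816R2.S35Cyc

/-!
A Steiner system `S(3,5,137)` invariant under `x ↦ x + 1` and `x ↦ 9 * x` modulo `137`.
-/

namespace Pool.Agent.H816R2.S35

def cl137 : List (ℕ × List (List ℕ)) :=
  ([(34, [0, 1, 2, 14, 125]),
    (68, [0, 1, 12, 53, 119]),
    (68, [0, 1, 6, 32, 115]),
    (68, [0, 1, 3, 8, 111]),
    (68, [0, 1, 4, 74, 121])] : List (ℕ × List ℕ)).map fun c => pointed 137 c.1 c.2

theorem ex137 : ∃ 𝓑 : Set (Finset (Fin (136 + 1))), IsS35 (Fin (136 + 1)) 𝓑 := by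
  have h := of_cyc 137 9 68 (by norm_num) (by decide +kernel) cl137 (by decide +kernel)
    (by decide +kernel) (by decide +kernel) (by decide +kernel) [1, 3]
    (by decide +kernel) (by decide +kernel) (by decide +kernel)
  exact transport (ZMod.finEquiv 137).symm.toEquiv h

end Pool.Agent.H816R2.S35
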