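import Pool.Agent.H816R2.S35Mul4
import Pool.Agent.H816R2.S35Cyc

/-!
A Steiner system `S(3,5,146)` invariant under `x ↦ x + 1` and `x ↦ 5 * x` modulo `146`.
-/

namespace Pool.Agent.H816R2.S35

def cl146 : List (ℕ × List (List ℕ)) :=
  ([(24, [0, 1, 10, 66, 74]),
    (36, [0, 1, 2, 39, 109]),
    (72, [0, 1, 7, 9, 113]),
    (72, [0, 1, 3, 48, 80]),
    (72, [0, 1, 12, 69, 121]),
    (72, [0, 1, 4, 44, 116])] : List (ℕ × List ℕ)).map fun c => pointed 146 c.1 c.2

theorem ex146 : ∃ 𝓑 : Set (Finset (Fin (145 + 1))), IsS35 (Fin (145 + 1)) 𝓑 := by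
  have h := of_cyc 146 5 72 (by norm_num) (by decide +kernel) cl146 (by decide +kernel)
    (by decide +kernel) (by decide +kernel) (by decide +kernel) [1, 2, 73]
    (by decide +kernel) (by decide +kernel) (by decide +kernel)
  exact transport (ZMod.finEquiv 146).symm.toEquiv h

end Pool.Agent.H816R2.S35
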