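import Pool.Agent.H816R2.S35Mul4
import Pool.Agent.H816R2.S35Cyc

/-!
A Steiner system `S(3,5,197)` invariant under `x ↦ x + 1` and `x ↦ 4 * x` modulo `197`.
-/

namespace Pool.Agent.H816R2.S35

def cl197 : List (ℕ × List (List ℕ)) :=
  ([(49, [0, 1, 2, 49, 150]),
    (98, [0, 1, 3, 16, 83]),
    (98, [0, 1, 25, 132, 163]),
    (98, [0, 1, 7, 67, 69]),
    (98, [0, 1, 6, 120, 130]),
    (98, [0, 1, 12, 101, 122]),
    (98, [0, 1, 4, 96, 117])] : List (ℕ × List ℕ)).map fun c => pointed 197 c.1 c.2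

theorem ex197 : ∃ 𝓑 : Set (Finset (Fin (196 + 1))), IsS35 (Fin (196 + 1)) 𝓑 := by
  have h := of_cyc 197 4 98 (by norm_num) (by decide +kernel) cl197 (by decide +kernel)
    (by decide +kernel) (by decide +kernel) (by decide +kernel) [1, 2]
    (by decide +kernel) (by decide +kernel) (by decide +kernel)
  exact transport (ZMod.finEquiv 197).symm.toEquiv h

end Pool.Agent.H816R2.S35
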