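import Pool.Agent.H816R2.S35Mul4
import Pool.Agent.H816R2.S35Cyc

/-!
A Steiner system `S(3,5,206)` invariant under `x ↦ x + 1` and `x ↦ 5 * x` modulo `206`.
-/

namespace Pool.Agent.H816R2.S35

def cl206 : List (ℕ × List (List ℕ)) :=
  ([(34, [0, 1, 48, 58, 104]),
    (51, [0, 1, 2, 93, 115]),
    (102, [0, 1, 3, 119, 137]),
    (102, [0, 1, 5, 73, 95]),
    (102, [0, 1, 7, 156, 169]),
    (102, [0, 1, 25, 35, 155]),
    (102, [0, 1, 9, 22, 160]),
    (102, [0, 1, 6, 28, 79])] : List (ℕ × List ℕ)).map fun c => pointed 206 c.1 c.2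

theorem ex206 : ∃ 𝓑 : Set (Finset (Fin (205 + 1))), IsS35 (Fin (205 + 1)) 𝓑 := by
  have h := of_cyc 206 5 102 (by norm_num) (by decide +kernel) cl206 (by decide +kernel)
    (by decide +kernel) (by decide +kernel) (by decide +kernel) [1, 2, 103]
    (by decide +kernel) (by decide +kernel) (by decide +kernel)
  exact transport (ZMod.finEquiv 206).symm.toEquiv h

end Pool.Agent.H816R2.S35
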