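import Pool.Agent.H816R2.S35Base

/-!
From an `S(3,5,u+1)` to an `S(3,5,4u+1)` (Hanani's construction with `q = 4`).
-/

namespace Pool.Agent.H816R2.S35

open Finset

/-! ### Ingredients -/

/-- incidence of the 17 points `∞, (i,a)` with the 64 blocks of the ingredient system, bit masks -/
def colCL : List ℕ := [1477888841187903766, 9373189378941786289, 2900678946985657545, 4695144604365100558, 2600847583917154730, 9314043547296535845, 4792131829212713682, 1739552913486817861, 1229790856010343193, 2459568500290169954, 4919131771323433084, 9838263508270206848, 4223155950088192, 67570495142199296, 1081127801945325568, 17294104035489480704, 18446462598732840960]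

/-- incidence of the 20 points `(i,a)` with the 64 words of an orthogonal array, bit masks -/
def colOL : List ℕ := [1229782938247303441, 2459565876494606882, 4919131752989213764, 9838263505978427528, 1317339743034442785, 2415075402841147410, 5193358597887107460, 9520970329946853960, 9373139274136299585, 4695046873354081410, 2900671275401904660, 1477886650817265960, 9314046665258451585, 4792138022002393410, 2600970906390042660, 1739588480058663960, 65535, 4294901760, 281470681743360, 18446462598732840960]

def colC : Option (Fin 4 × Fin 4) → ℕ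
  | none => colCL.getD 16 0
  | some s => colCL.getD (4 * s.1.val + s.2.val) 0

def colO (s : Fin 5 × Fin 4) : ℕ := colOL.getD (4 * s.1.val + s.2.val) 0

/-- the point `t` is `∞` or lies in the group of `x` -/
def inG {β : Type} (x : β) : Option (β × Fin 4) → Prop
  | none => True
  | some s => s.1 = x

instance decInG {β : Type} [DecidableEq β] (x : β) (t : Option (β × Fin 4)) :
    Decidable (inG x t) :=
  match t with
  | none => isTrue trivial
  | some s => inferInstanceAs (Decidable (s.1 = x))

def pow2 (x : ℕ) : Bool := (x == 2 ^ Nat.log2 x) && decide (Nat.log2 x < 64)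

theorem pow2_spec {x : ℕ} (h : pow2 x = true) : ∃ w < 64, ∀ w', Nat.testBit x w' = true ↔ w' = w := by
  unfold pow2 at h
  rw [Bool.and_eq_true, beq_iff_eq, decide_eq_true_eq] at h
  refine ⟨Nat.log2 x, h.2, ?_⟩
  intro w'
  rw [h.1, Nat.testBit_two_pow, Nat.log2_two_pow]
  constructor
  · intro h'; exact (of_decide_eq_true h').symm
  · intro h'; exact decide_eq_true h'.symm

theorem ingO_good : ∀ p q r : Fin 5 × Fin 4, p.1 ≠ q.1 → p.1 ≠ r.1 → q.1 ≠ r.1 →
    pow2 (colO p &&& colO q &&& colO r) = true := by decide +kernel

theorem ingO_bad : ∀ p q : Fin 5 × Fin 4, p ≠ q → p.1 = q.1 → colO p &&& colO q = 0 := by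
  decide +kernel

theorem ingO_card : ∀ w : Fin 64, (Finset.univ.filter fun p : Fin 5 × Fin 4 =>
    Nat.testBit (colO p) w.val = true).card = 5 := by decide +kernel

/-- all three points lie in one group together with `∞` -/
def bad {β : Type} (p q r : Option (β × Fin 4)) : Prop := ∃ i : β, inG i p ∧ inG i q ∧ inG i r

instance decBad (p q r : Option (Fin 4 × Fin 4)) : Decidable (bad p q r) :=
  inferInstanceAs (Decidable (∃ i : Fin 4, inG i p ∧ inG i q ∧ inG i r))

theorem ingC_good' : ∀ p q r : Option (Fin 4 × Fin 4), (p ≠ q ∧ p ≠ r ∧ q ≠ r ∧ ¬ bad p q r) →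
    pow2 (colC p &&& colC q &&& colC r) = true := by decide +kernel

theorem ingC_bad' : ∀ p q r : Option (Fin 4 × Fin 4), (p ≠ q ∧ p ≠ r ∧ q ≠ r ∧ bad p q r) →
    colC p &&& colC q &&& colC r = 0 := by decide +kernel

theorem ingC_card : ∀ w : Fin 64, (Finset.univ.filter fun p : Option (Fin 4 × Fin 4) =>
    Nat.testBit (colC p) w.val = true).card = 5 := by decide +kernel

end Pool.Agent.H816R2.S35
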