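import Pool.Agent.H816R2.S35Ing

/-!
From an `S(3,5,u+1)` to an `S(3,5,4u+1)` (Hanani's construction with `q = 4`).
-/

namespace Pool.Agent.H816R2.S35

open Finset

set_option linter.unusedSectionVars false

variable {α : Type} [DecidableEq α]

/-- block of the first ingredient (orthogonal array) -/
def blkO (f : Fin 5 → α) (w : ℕ) : Finset (Option (α × Fin 4)) :=
  (Finset.univ.filter fun p : Fin 5 × Fin 4 => Nat.testBit (colO p) w = true).image
    fun p => some (f p.1, p.2)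

/-- block of the second ingredient (candelabra system) -/
def blkC (g : Fin 4 → α) (w : ℕ) : Finset (Option (α × Fin 4)) :=
  (Finset.univ.filter fun p : Option (Fin 4 × Fin 4) => Nat.testBit (colC p) w = true).image
    (Option.map (Prod.map g id))

def blkG (x : α) : Finset (Option (α × Fin 4)) :=
  insert none (Finset.univ.image fun c : Fin 4 => some (x, c))

theorem mem_blkO {f : Fin 5 → α} {w : ℕ} {t : Option (α × Fin 4)} :
    t ∈ blkO f w ↔ ∃ p : Fin 5 × Fin 4, Nat.testBit (colO p) w = true ∧ some (f p.1, p.2) = t := by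
  simp [blkO]

theorem mem_blkC {g : Fin 4 → α} {w : ℕ} {t : Option (α × Fin 4)} :
    t ∈ blkC g w ↔ ∃ p : Option (Fin 4 × Fin 4), Nat.testBit (colC p) w = true ∧
      Option.map (Prod.map g id) p = t := by
  simp only [blkC, Finset.mem_image, Finset.mem_filter, Finset.mem_univ, true_and]

theorem mem_blkG {x : α} {t : Option (α × Fin 4)} : t ∈ blkG x ↔ inG x t := by
  unfold blkG
  rcases t with _ | ⟨y, c⟩
  · simp [inG]
  · rw [Finset.mem_insert, Finset.mem_image]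
    constructor
    · rintro (h | ⟨a, _, h⟩)
      · exact absurd h (by simp)
      · rw [Option.some.injEq, Prod.mk.injEq] at h
        exact h.1.symm
    · intro h
      refine Or.inr ⟨c, Finset.mem_univ _, ?_⟩
      have h' : y = x := h
      rw [h']

theorem card_blkG (x : α) : (blkG x).card = 5 := by
  unfold blkG
  rw [Finset.card_insert_of_notMem, Finset.card_image_of_injective]
  · simp
  · intro a b h
    simpa using h
  · simp

theorem injO {f : Fin 5 → α} (hf : Function.Injective f) :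
    Function.Injective (fun p : Fin 5 × Fin 4 => (some (f p.1, p.2) : Option (α × Fin 4))) := by
  rintro ⟨i, a⟩ ⟨j, b⟩ h
  simp only [Option.some.injEq, Prod.mk.injEq] at h
  exact Prod.ext (hf h.1) h.2

theorem injC {g : Fin 4 → α} (hg : Function.Injective g) :
    Function.Injective (Option.map (Prod.map g (id : Fin 4 → Fin 4))) :=
  Option.map_injective (Prod.map_injective.2 ⟨hg, Function.injective_id⟩)

theorem card_blkO {f : Fin 5 → α} (hf : Function.Injective f) {w : ℕ} (hw : w < 64) :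
    (blkO f w).card = 5 := by
  unfold blkO
  rw [Finset.card_image_of_injective _ (injO hf)]
  exact ingO_card ⟨w, hw⟩

theorem card_blkC {g : Fin 4 → α} (hg : Function.Injective g) {w : ℕ} (hw : w < 64) :
    (blkC g w).card = 5 := by
  unfold blkC
  rw [Finset.card_image_of_injective _ (injC hg)]
  exact ingC_card ⟨w, hw⟩

/-- projection to the old points -/
def pr (t : Option (α × Fin 4)) : Option α := t.map Prod.fst

/-- the old block `B` is responsible for the triple `a, b, c` -/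
def Sup (a b c : Option (α × Fin 4)) (B : Finset (Option α)) : Prop :=
  pr a ∈ B ∧ pr b ∈ B ∧ pr c ∈ B ∧ (none ∈ B ∨ (pr a ≠ pr b ∧ pr a ≠ pr c ∧ pr b ≠ pr c))

theorem pr_none {t : Option (α × Fin 4)} (h : pr t = none) : t = none := by
  rcases t with _ | s
  · rfl
  · simp [pr] at h

theorem inG_iff {x : α} {t : Option (α × Fin 4)} : inG x t ↔ (pr t = none ∨ pr t = some x) := by
  rcases t with _ | s
  · simp [inG, pr]
  · simp [inG, pr]

theorem claim1 {𝓑 : Set (Finset (Option α))} (h : IsS35 (Option α) 𝓑)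
    {a b c : Option (α × Fin 4)} (hab : a ≠ b) (hac : a ≠ c) (hbc : b ≠ c) (hbad : ¬ bad a b c) :
    ∃! B, B ∈ 𝓑 ∧ Sup a b c B := by
  -- two equal projections
  have key : ∀ s t u : Option (α × Fin 4), s ≠ t → pr s = pr t → ¬ bad s t u →
      ∃! B, B ∈ 𝓑 ∧ (pr s ∈ B ∧ pr u ∈ B ∧ none ∈ B) := by
    intro s t u hst hp hb
    have hsn : pr s ≠ none := by
      intro hs
      exact hst ((pr_none hs).trans (pr_none (hp ▸ hs)).symm)
    obtain ⟨x, hx⟩ := Option.ne_none_iff_exists'.1 hsn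
    have hun : pr u ≠ none := by
      intro hu
      exact hb ⟨x, inG_iff.2 (Or.inr hx), inG_iff.2 (Or.inr (hp ▸ hx)), inG_iff.2 (Or.inl hu)⟩
    have hus : pr s ≠ pr u := by
      intro hu
      exact hb ⟨x, inG_iff.2 (Or.inr hx), inG_iff.2 (Or.inr (hp ▸ hx)),
        inG_iff.2 (Or.inr (hu ▸ hx))⟩
    obtain ⟨B, hB, hB'⟩ := h.2 (pr s) (pr u) none hus hsn hun
    exact ⟨B, hB, hB'⟩
  by_cases h1 : pr a = pr b
  · obtain ⟨B, ⟨hB, h2, h3, h4⟩, hu⟩ := key a b c hab h1 hbad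
    refine ⟨B, ⟨hB, h2, h1 ▸ h2, h3, Or.inl h4⟩, ?_⟩
    rintro B' ⟨hB', h5, h6, h7, h8⟩
    rcases h8 with h8 | h8
    · exact hu B' ⟨hB', h5, h7, h8⟩
    · exact absurd h1 h8.1
  by_cases h2 : pr a = pr c
  · have hb' : ¬ bad a c b := fun ⟨x, hx, hy, hz⟩ => hbad ⟨x, hx, hz, hy⟩
    obtain ⟨B, ⟨hB, h3, h4, h5⟩, hu⟩ := key a c b hac h2 hb'
    refine ⟨B, ⟨hB, h3, h4, h2 ▸ h3, Or.inl h5⟩, ?_⟩
    rintro B' ⟨hB', h6, h7, h8, h9⟩
    rcases h9 with h9 | h9
    · exact hu B' ⟨hB', h6, h7, h9⟩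
    · exact absurd h2 h9.2.1
  by_cases h3 : pr b = pr c
  · have hb' : ¬ bad b c a := fun ⟨x, hx, hy, hz⟩ => hbad ⟨x, hz, hx, hy⟩
    obtain ⟨B, ⟨hB, h4, h5, h6⟩, hu⟩ := key b c a hbc h3 hb'
    refine ⟨B, ⟨hB, h5, h4, h3 ▸ h4, Or.inl h6⟩, ?_⟩
    rintro B' ⟨hB', h7, h8, h9, h10⟩
    rcases h10 with h10 | h10
    · exact hu B' ⟨hB', h8, h7, h10⟩
    · exact absurd h3 h10.2.2
  · obtain ⟨B, ⟨hB, h4, h5, h6⟩, hu⟩ := h.2 (pr a) (pr b) (pr c) h1 h2 h3
    refine ⟨B, ⟨hB, h4, h5, h6, Or.inr ⟨h1, h2, h3⟩⟩, ?_⟩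
    rintro B' ⟨hB', h7, h8, h9, _⟩
    exact hu B' ⟨hB', h7, h8, h9⟩

theorem enum5 (B : Finset (Option α)) (hB : B.card = 5) (hn : none ∉ B) :
    ∃ f : Fin 5 → α, Function.Injective f ∧ ∀ x, some x ∈ B ↔ ∃ i, f i = x := by
  have hc : B.eraseNone.card = 5 := by
    rw [← hB, ← Finset.card_map (s := B.eraseNone) Function.Embedding.some,
      Finset.map_some_eraseNone, Finset.erase_eq_of_notMem hn]
  refine ⟨fun i => ((Finset.equivFinOfCardEq hc).symm i).val, ?_, ?_⟩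
  · intro i j hij
    exact (Finset.equivFinOfCardEq hc).symm.injective (Subtype.ext hij)
  · intro x
    rw [← Finset.mem_eraseNone]
    constructor
    · intro hx
      exact ⟨Finset.equivFinOfCardEq hc ⟨x, hx⟩, by simp⟩
    · rintro ⟨i, rfl⟩
      exact ((Finset.equivFinOfCardEq hc).symm i).2

theorem enum4 (B : Finset (Option α)) (hB : B.card = 5) (hn : none ∈ B) :
    ∃ f : Fin 4 → α, Function.Injective f ∧ ∀ x, some x ∈ B ↔ ∃ i, f i = x := by
  have hc : B.eraseNone.card = 4 := by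
    rw [← Finset.card_map (s := B.eraseNone) Function.Embedding.some,
      Finset.map_some_eraseNone, Finset.card_erase_of_mem hn, hB]
  refine ⟨fun i => ((Finset.equivFinOfCardEq hc).symm i).val, ?_, ?_⟩
  · intro i j hij
    exact (Finset.equivFinOfCardEq hc).symm.injective (Subtype.ext hij)
  · intro x
    rw [← Finset.mem_eraseNone]
    constructor
    · intro hx
      exact ⟨Finset.equivFinOfCardEq hc ⟨x, hx⟩, by simp⟩
    · rintro ⟨i, rfl⟩
      exact ((Finset.equivFinOfCardEq hc).symm i).2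

theorem testBit_and3 {x y z w : ℕ} : Nat.testBit (x &&& y &&& z) w = true ↔
    (Nat.testBit x w = true ∧ Nat.testBit y w = true ∧ Nat.testBit z w = true) := by
  rw [Nat.testBit_and, Nat.testBit_and, Bool.and_eq_true, Bool.and_eq_true, and_assoc]

theorem pr_ne_of_mem_blkO {f : Fin 5 → α} (hf : Function.Injective f) {w : ℕ}
    {a b : Option (α × Fin 4)} (hab : a ≠ b) (ha : a ∈ blkO f w) (hb : b ∈ blkO f w) :
    pr a ≠ pr b := by
  obtain ⟨p, hp, rfl⟩ := mem_blkO.1 ha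
  obtain ⟨q, hq, rfl⟩ := mem_blkO.1 hb
  intro h
  have h1 : p.1 = q.1 := by
    apply hf
    simpa [pr] using h
  have hpq : p ≠ q := by
    rintro rfl
    exact hab rfl
  have h2 := ingO_bad p q hpq h1
  have h3 : Nat.testBit (colO p &&& colO q) w = true := by
    rw [Nat.testBit_and, hp, hq]; rfl
  rw [h2] at h3
  simp at h3

theorem notbad_of_mem_blkC {g : Fin 4 → α} (hg : Function.Injective g) {w : ℕ}
    {a b c : Option (α × Fin 4)} (hab : a ≠ b) (hac : a ≠ c) (hbc : b ≠ c)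
    (ha : a ∈ blkC g w) (hb : b ∈ blkC g w) (hc : c ∈ blkC g w) : ¬ bad a b c := by
  obtain ⟨p, hp, rfl⟩ := mem_blkC.1 ha
  obtain ⟨q, hq, rfl⟩ := mem_blkC.1 hb
  obtain ⟨r, hr, rfl⟩ := mem_blkC.1 hc
  rintro ⟨x, h1, h2, h3⟩
  have hpq : p ≠ q := fun h => hab (by rw [h])
  have hpr : p ≠ r := fun h => hac (by rw [h])
  have hqr : q ≠ r := fun h => hbc (by rw [h])
  have hconv : ∀ i : Fin 4, g i = x → ∀ t : Option (Fin 4 × Fin 4),
      inG x (Option.map (Prod.map g id) t) → inG i t := by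
    intro i hi t ht
    rcases t with _ | s
    · trivial
    · have ht' : g s.1 = x := ht
      exact hg (ht'.trans hi.symm)
  have hex : ∃ i : Fin 4, g i = x := by
    rcases p with _ | s
    · rcases q with _ | u
      · exact absurd rfl hpq
      · exact ⟨u.1, h2⟩
    · exact ⟨s.1, h1⟩
  obtain ⟨i, hi⟩ := hex
  have h4 := ingC_bad' p q r ⟨hpq, hpr, hqr, i, hconv i hi p h1, hconv i hi q h2, hconv i hi r h3⟩
  have h5 := testBit_and3.2 ⟨hp, hq, hr⟩
  rw [h4] at h5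
  simp at h5

theorem uniqO {f : Fin 5 → α} (hf : Function.Injective f) {w w' : ℕ}
    {a b c : Option (α × Fin 4)} (hab : a ≠ b) (hac : a ≠ c) (hbc : b ≠ c)
    (ha : a ∈ blkO f w) (hb : b ∈ blkO f w) (hc : c ∈ blkO f w)
    (ha' : a ∈ blkO f w') (hb' : b ∈ blkO f w') (hc' : c ∈ blkO f w') : w = w' := by
  have n1 := pr_ne_of_mem_blkO hf hab ha hb
  have n2 := pr_ne_of_mem_blkO hf hac ha hc
  have n3 := pr_ne_of_mem_blkO hf hbc hb hc
  obtain ⟨p, hp, rfl⟩ := mem_blkO.1 ha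
  obtain ⟨q, hq, rfl⟩ := mem_blkO.1 hb
  obtain ⟨r, hr, rfl⟩ := mem_blkO.1 hc
  obtain ⟨p', hp', e1⟩ := mem_blkO.1 ha'
  obtain ⟨q', hq', e2⟩ := mem_blkO.1 hb'
  obtain ⟨r', hr', e3⟩ := mem_blkO.1 hc'
  have i1 : p' = p := injO hf e1
  have i2 : q' = q := injO hf e2
  have i3 : r' = r := injO hf e3
  subst i1 i2 i3
  have m1 : p'.1 ≠ q'.1 := fun h => n1 (by simp [pr, h])
  have m2 : p'.1 ≠ r'.1 := fun h => n2 (by simp [pr, h])
  have m3 : q'.1 ≠ r'.1 := fun h => n3 (by simp [pr, h])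
  obtain ⟨w0, _, hw0⟩ := pow2_spec (ingO_good p' q' r' m1 m2 m3)
  rw [(hw0 w).1 (testBit_and3.2 ⟨hp, hq, hr⟩), (hw0 w').1 (testBit_and3.2 ⟨hp', hq', hr'⟩)]

theorem notbad_conv {g : Fin 4 → α} {p q r : Option (Fin 4 × Fin 4)}
    (h : ¬ bad (Option.map (Prod.map g (id : Fin 4 → Fin 4)) p) (Option.map (Prod.map g id) q)
      (Option.map (Prod.map g id) r)) : ¬ bad p q r := by
  rintro ⟨i, h1, h2, h3⟩
  have hconv : ∀ t : Option (Fin 4 × Fin 4), inG i t →
      inG (g i) (Option.map (Prod.map g (id : Fin 4 → Fin 4)) t) := by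
    intro t ht
    rcases t with _ | s
    · trivial
    · have ht' : s.1 = i := ht
      show g s.1 = g i
      rw [ht']
  exact h ⟨g i, hconv p h1, hconv q h2, hconv r h3⟩

theorem uniqC {g : Fin 4 → α} (hg : Function.Injective g) {w w' : ℕ}
    {a b c : Option (α × Fin 4)} (hab : a ≠ b) (hac : a ≠ c) (hbc : b ≠ c)
    (ha : a ∈ blkC g w) (hb : b ∈ blkC g w) (hc : c ∈ blkC g w)
    (ha' : a ∈ blkC g w') (hb' : b ∈ blkC g w') (hc' : c ∈ blkC g w') : w = w' := by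
  have hbad := notbad_of_mem_blkC hg hab hac hbc ha hb hc
  obtain ⟨p, hp, rfl⟩ := mem_blkC.1 ha
  obtain ⟨q, hq, rfl⟩ := mem_blkC.1 hb
  obtain ⟨r, hr, rfl⟩ := mem_blkC.1 hc
  obtain ⟨p', hp', e1⟩ := mem_blkC.1 ha'
  obtain ⟨q', hq', e2⟩ := mem_blkC.1 hb'
  obtain ⟨r', hr', e3⟩ := mem_blkC.1 hc'
  have i1 : p' = p := injC hg e1
  have i2 : q' = q := injC hg e2
  have i3 : r' = r := injC hg e3
  subst i1 i2 i3
  have m1 : p' ≠ q' := fun h => hab (by rw [h])
  have m2 : p' ≠ r' := fun h => hac (by rw [h])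
  have m3 : q' ≠ r' := fun h => hbc (by rw [h])
  obtain ⟨w0, _, hw0⟩ := pow2_spec (ingC_good' p' q' r' ⟨m1, m2, m3, notbad_conv hbad⟩)
  rw [(hw0 w).1 (testBit_and3.2 ⟨hp, hq, hr⟩), (hw0 w').1 (testBit_and3.2 ⟨hp', hq', hr'⟩)]

theorem pr_mem_blkO {f : Fin 5 → α} {B : Finset (Option α)} (hf : ∀ x, some x ∈ B ↔ ∃ i, f i = x)
    {w : ℕ} {t : Option (α × Fin 4)} (ht : t ∈ blkO f w) : pr t ∈ B := by
  obtain ⟨p, _, rfl⟩ := mem_blkO.1 ht
  exact (hf _).2 ⟨p.1, rfl⟩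

theorem pr_mem_blkC {g : Fin 4 → α} {B : Finset (Option α)} (hn : none ∈ B)
    (hg : ∀ x, some x ∈ B ↔ ∃ i, g i = x) {w : ℕ} {t : Option (α × Fin 4)} (ht : t ∈ blkC g w) :
    pr t ∈ B := by
  obtain ⟨p, _, rfl⟩ := mem_blkC.1 ht
  rcases p with _ | s
  · exact hn
  · exact (hg _).2 ⟨s.1, rfl⟩

theorem mul4 (𝓑 : Set (Finset (Option α))) (h : IsS35 (Option α) 𝓑) :
    ∃ 𝓑' : Set (Finset (Option (α × Fin 4))), IsS35 (Option (α × Fin 4)) 𝓑' := by
  classical
  choose F hFi hF using fun B : {B : Finset (Option α) // B ∈ 𝓑 ∧ none ∉ B} =>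
    enum5 B.1 (h.1 B.1 B.2.1) B.2.2
  choose G hGi hG using fun B : {B : Finset (Option α) // B ∈ 𝓑 ∧ none ∈ B} =>
    enum4 B.1 (h.1 B.1 B.2.1) B.2.2
  refine ⟨{C | (∃ x, C = blkG x) ∨
    (∃ B : {B : Finset (Option α) // B ∈ 𝓑 ∧ none ∉ B}, ∃ w < 64, C = blkO (F B) w) ∨
    (∃ B : {B : Finset (Option α) // B ∈ 𝓑 ∧ none ∈ B}, ∃ w < 64, C = blkC (G B) w)}, ?_, ?_⟩
  · rintro C (⟨x, rfl⟩ | ⟨B, w, hw, rfl⟩ | ⟨B, w, hw, rfl⟩)
    · exact card_blkG x
    · exact card_blkO (hFi B) hw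
    · exact card_blkC (hGi B) hw
  · intro a b c hab hac hbc
    by_cases hbad : bad a b c
    · obtain ⟨x, ha, hb, hc⟩ := hbad
      refine ⟨blkG x, ⟨Or.inl ⟨x, rfl⟩, mem_blkG.2 ha, mem_blkG.2 hb, mem_blkG.2 hc⟩, ?_⟩
      rintro C ⟨hC, ha', hb', hc'⟩
      rcases hC with ⟨y, rfl⟩ | ⟨B, w, hw, rfl⟩ | ⟨B, w, hw, rfl⟩
      · have h1 := mem_blkG.1 ha'
        have h2 := mem_blkG.1 hb'
        congr 1
        rcases a with _ | s
        · rcases b with _ | u
          · exact absurd rfl hab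
          · exact Eq.trans (Eq.symm (show u.1 = y from h2)) hb
        · exact Eq.trans (Eq.symm (show s.1 = y from h1)) ha
      · exfalso
        have n1 := pr_ne_of_mem_blkO (hFi B) hab ha' hb'
        have n2 := pr_ne_of_mem_blkO (hFi B) hac ha' hc'
        have n3 := pr_ne_of_mem_blkO (hFi B) hbc hb' hc'
        rcases inG_iff.1 ha with e1 | e1 <;> rcases inG_iff.1 hb with e2 | e2 <;>
          rcases inG_iff.1 hc with e3 | e3
        · exact n1 (e1.trans e2.symm)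
        · exact n1 (e1.trans e2.symm)
        · exact n2 (e1.trans e3.symm)
        · exact n3 (e2.trans e3.symm)
        · exact n3 (e2.trans e3.symm)
        · exact n2 (e1.trans e3.symm)
        · exact n1 (e1.trans e2.symm)
        · exact n1 (e1.trans e2.symm)
      · exact absurd ⟨x, ha, hb, hc⟩ (notbad_of_mem_blkC (hGi B) hab hac hbc ha' hb' hc')
    · obtain ⟨B, ⟨hB, hs⟩, hu⟩ := claim1 h hab hac hbc hbad
      -- any block through the three points comes from `B`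
      have hO : ∀ B' : {B : Finset (Option α) // B ∈ 𝓑 ∧ none ∉ B}, ∀ w,
          a ∈ blkO (F B') w → b ∈ blkO (F B') w → c ∈ blkO (F B') w → B'.1 = B := by
        intro B' w ha hb hc
        refine hu B'.1 ⟨B'.2.1, pr_mem_blkO (hF B') ha, pr_mem_blkO (hF B') hb,
          pr_mem_blkO (hF B') hc, Or.inr ⟨pr_ne_of_mem_blkO (hFi B') hab ha hb,
          pr_ne_of_mem_blkO (hFi B') hac ha hc, pr_ne_of_mem_blkO (hFi B') hbc hb hc⟩⟩
      have hC : ∀ B' : {B : Finset (Option α) // B ∈ 𝓑 ∧ none ∈ B}, ∀ w,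
          a ∈ blkC (G B') w → b ∈ blkC (G B') w → c ∈ blkC (G B') w → B'.1 = B := by
        intro B' w ha hb hc
        exact hu B'.1 ⟨B'.2.1, pr_mem_blkC B'.2.2 (hG B') ha, pr_mem_blkC B'.2.2 (hG B') hb,
          pr_mem_blkC B'.2.2 (hG B') hc, Or.inl B'.2.2⟩
      obtain ⟨s1, s2, s3, s4⟩ := hs
      by_cases hn : none ∈ B
      · -- candelabra
        let B₀ : {B : Finset (Option α) // B ∈ 𝓑 ∧ none ∈ B} := ⟨B, hB, hn⟩
        have hran : ∀ t : Option (α × Fin 4), pr t ∈ B →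
            ∃ p, Option.map (Prod.map (G B₀) (id : Fin 4 → Fin 4)) p = t := by
          intro t ht
          rcases t with _ | u
          · exact ⟨none, rfl⟩
          · obtain ⟨i, hi⟩ := (hG B₀ u.1).1 ht
            refine ⟨some (i, u.2), ?_⟩
            simp [hi]
        obtain ⟨p, hp⟩ := hran a s1
        obtain ⟨q, hq⟩ := hran b s2
        obtain ⟨r, hr⟩ := hran c s3
        have hpq : p ≠ q := fun e => hab (by rw [← hp, ← hq, e])
        have hpr : p ≠ r := fun e => hac (by rw [← hp, ← hr, e])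
        have hqr : q ≠ r := fun e => hbc (by rw [← hq, ← hr, e])
        have hbad' : ¬ bad p q r := by
          apply notbad_conv (g := G B₀)
          rw [hp, hq, hr]
          exact hbad
        obtain ⟨w, hw, hw'⟩ := pow2_spec (ingC_good' p q r ⟨hpq, hpr, hqr, hbad'⟩)
        obtain ⟨t1, t2, t3⟩ := testBit_and3.1 ((hw' w).2 rfl)
        have ma : a ∈ blkC (G B₀) w := mem_blkC.2 ⟨p, t1, hp⟩
        have mb : b ∈ blkC (G B₀) w := mem_blkC.2 ⟨q, t2, hq⟩
        have mc : c ∈ blkC (G B₀) w := mem_blkC.2 ⟨r, t3, hr⟩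
        refine ⟨blkC (G B₀) w, ⟨Or.inr (Or.inr ⟨B₀, w, hw, rfl⟩), ma, mb, mc⟩, ?_⟩
        rintro C ⟨hC', ha', hb', hc'⟩
        rcases hC' with ⟨y, rfl⟩ | ⟨B', w', _, rfl⟩ | ⟨B', w', _, rfl⟩
        · exact absurd ⟨y, mem_blkG.1 ha', mem_blkG.1 hb', mem_blkG.1 hc'⟩ hbad
        · exfalso
          have e := hO B' w' ha' hb' hc'
          exact B'.2.2 (e ▸ hn)
        · have e : B' = B₀ := Subtype.ext (hC B' w' ha' hb' hc')
          subst e
          rw [uniqC (hGi _) hab hac hbc ma mb mc ha' hb' hc']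
      · -- orthogonal array
        let B₀ : {B : Finset (Option α) // B ∈ 𝓑 ∧ none ∉ B} := ⟨B, hB, hn⟩
        have hran : ∀ t : Option (α × Fin 4), pr t ∈ B →
            ∃ p : Fin 5 × Fin 4, some (F B₀ p.1, p.2) = t := by
          intro t ht
          rcases t with _ | u
          · exact absurd ht hn
          · obtain ⟨i, hi⟩ := (hF B₀ u.1).1 ht
            refine ⟨(i, u.2), ?_⟩
            simp [hi]
        rcases s4 with s4 | ⟨n1, n2, n3⟩
        · exact absurd s4 hn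
        obtain ⟨p, hp⟩ := hran a s1
        obtain ⟨q, hq⟩ := hran b s2
        obtain ⟨r, hr⟩ := hran c s3
        have hpq : p.1 ≠ q.1 := fun e => n1 (by rw [← hp, ← hq]; simp [pr, e])
        have hpr : p.1 ≠ r.1 := fun e => n2 (by rw [← hp, ← hr]; simp [pr, e])
        have hqr : q.1 ≠ r.1 := fun e => n3 (by rw [← hq, ← hr]; simp [pr, e])
        obtain ⟨w, hw, hw'⟩ := pow2_spec (ingO_good p q r hpq hpr hqr)
        obtain ⟨t1, t2, t3⟩ := testBit_and3.1 ((hw' w).2 rfl)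
        have ma : a ∈ blkO (F B₀) w := mem_blkO.2 ⟨p, t1, hp⟩
        have mb : b ∈ blkO (F B₀) w := mem_blkO.2 ⟨q, t2, hq⟩
        have mc : c ∈ blkO (F B₀) w := mem_blkO.2 ⟨r, t3, hr⟩
        refine ⟨blkO (F B₀) w, ⟨Or.inr (Or.inl ⟨B₀, w, hw, rfl⟩), ma, mb, mc⟩, ?_⟩
        rintro C ⟨hC', ha', hb', hc'⟩
        rcases hC' with ⟨y, rfl⟩ | ⟨B', w', _, rfl⟩ | ⟨B', w', _, rfl⟩
        · exact absurd ⟨y, mem_blkG.1 ha', mem_blkG.1 hb', mem_blkG.1 hc'⟩ hbad
        · have e : B' = B₀ := Subtype.ext (hO B' w' ha' hb' hc')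
          subst e
          rw [uniqO (hFi _) hab hac hbc ma mb mc ha' hb' hc']
        · exfalso
          have e := hC B' w' ha' hb' hc'
          exact hn (e ▸ B'.2.2)

/-! ### Transport and iteration -/

theorem transport {X Y : Type} [DecidableEq X] [DecidableEq Y] (e : X ≃ Y)
    (h : ∃ 𝓑 : Set (Finset X), IsS35 X 𝓑) : ∃ 𝓑 : Set (Finset Y), IsS35 Y 𝓑 := by
  obtain ⟨𝓑, h1, h2⟩ := h
  refine ⟨{C | ∃ B ∈ 𝓑, C = B.map e.toEmbedding}, ?_, ?_⟩
  · rintro C ⟨B, hB, rfl⟩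
    rw [Finset.card_map]
    exact h1 B hB
  · intro a b c hab hac hbc
    obtain ⟨B, ⟨hB, ha, hb, hc⟩, hu⟩ := h2 (e.symm a) (e.symm b) (e.symm c)
      (fun h => hab (e.symm.injective h)) (fun h => hac (e.symm.injective h))
      (fun h => hbc (e.symm.injective h))
    refine ⟨B.map e.toEmbedding, ⟨⟨B, hB, rfl⟩, ?_, ?_, ?_⟩, ?_⟩
    · rwa [Finset.mem_map_equiv]
    · rwa [Finset.mem_map_equiv]
    · rwa [Finset.mem_map_equiv]
    · rintro C ⟨⟨B', hB', rfl⟩, ha', hb', hc'⟩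
      rw [Finset.mem_map_equiv] at ha' hb' hc'
      rw [hu B' ⟨hB', ha', hb', hc'⟩]

theorem ex_mul4 (u : ℕ) (h : ∃ 𝓑 : Set (Finset (Fin (u + 1))), IsS35 (Fin (u + 1)) 𝓑) :
    ∃ 𝓑 : Set (Finset (Fin (u * 4 + 1))), IsS35 (Fin (u * 4 + 1)) 𝓑 := by
  obtain ⟨𝓑, hB⟩ := transport (finSuccEquiv u) h
  obtain ⟨𝓒, hC⟩ := mul4 𝓑 hB
  exact transport ((Equiv.optionCongr finProdFinEquiv).trans (finSuccEquiv (u * 4)).symm) ⟨𝓒, hC⟩

theorem ex_pow4 (u : ℕ) (h : ∃ 𝓑 : Set (Finset (Fin (u + 1))), IsS35 (Fin (u + 1)) 𝓑) (n : ℕ) :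
    ∃ 𝓑 : Set (Finset (Fin (u * 4 ^ n + 1))), IsS35 (Fin (u * 4 ^ n + 1)) 𝓑 := by
  induction n with
  | zero => rw [pow_zero, mul_one]; exact h
  | succ n ih =>
    have := ex_mul4 _ ih
    rwa [mul_assoc, ← pow_succ] at this

end Pool.Agent.H816R2.S35
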